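import Mathlib

/-! The ring `A[T]/(G)`. -/

set_option autoImplicit false

namespace Pool.Agent.Helper97.HR

open Polynomial

variable {A 𝒦 : Type} [CommRing A] [IsDomain A] [Field 𝒦] (ψ : A →+* 𝒦)
  (hψ : Function.Injective ψ) {G : A[X]} (hG : G.Monic) (hirr : Irreducible (G.map ψ))

include hψ hG hirr

theorem adj_inj : ∃ ρ : AdjoinRoot G →+* AdjoinRoot (G.map ψ), Function.Injective ρ ∧
    (∀ a, ρ (AdjoinRoot.of G a) = AdjoinRoot.of (G.map ψ) (ψ a)) ∧
    ρ (AdjoinRoot.root G) = AdjoinRoot.root (G.map ψ) := by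
  refine ⟨AdjoinRoot.map ψ G (G.map ψ) dvd_rfl, ?_, fun a => ?_, ?_⟩
  · rw [injective_iff_map_eq_zero]
    intro y hy
    obtain ⟨p, rfl⟩ := AdjoinRoot.mk_surjective y
    have h2 : AdjoinRoot.mk (G.map ψ) (p.map ψ) = 0 := by
      rw [← hy, AdjoinRoot.map, AdjoinRoot.lift_mk, ← Polynomial.eval₂_map]
      rw [← AdjoinRoot.aeval_eq, Polynomial.aeval_def]
      rfl
    rw [AdjoinRoot.mk_eq_zero] at h2 ⊢
    rw [← Polynomial.modByMonic_eq_zero_iff_dvd (hG.map ψ), ← Polynomial.map_modByMonic ψ hG,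
      Polynomial.map_eq_zero_iff hψ, Polynomial.modByMonic_eq_zero_iff_dvd hG] at h2
    exact h2
  · simp [AdjoinRoot.map]
  · simp [AdjoinRoot.map]

theorem adj_domain : IsDomain (AdjoinRoot G) := by
  obtain ⟨ρ, hρ, _⟩ := adj_inj ψ hψ hG hirr
  have : Fact (Irreducible (G.map ψ)) := ⟨hirr⟩
  exact hρ.isDomain ρ

theorem adj_not_frac (hdeg : 2 ≤ G.natDegree) (a d : A) (hd : d ≠ 0) :
    AdjoinRoot.root G * AdjoinRoot.of G d ≠ AdjoinRoot.of G a := by
  obtain ⟨ρ, hρ, h1, h2⟩ := adj_inj ψ hψ hG hirr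
  have : Fact (Irreducible (G.map ψ)) := ⟨hirr⟩
  intro h
  have h3 := congrArg ρ h
  rw [map_mul, h1, h1, h2] at h3
  have hd' : ψ d ≠ 0 := by
    rwa [Ne, map_eq_zero_iff ψ hψ]
  have h4 : AdjoinRoot.root (G.map ψ) = AdjoinRoot.of (G.map ψ) (ψ a / ψ d) := by
    rw [map_div₀, eq_div_iff, h3]
    rwa [Ne, map_eq_zero_iff _ (AdjoinRoot.of (G.map ψ)).injective]
  have h5 : (G.map ψ).IsRoot (ψ a / ψ d) := by
    have h6 := AdjoinRoot.eval₂_root (G.map ψ)
    rw [h4, Polynomial.eval₂_at_apply] at h6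
    exact (map_eq_zero_iff _ (AdjoinRoot.of (G.map ψ)).injective).1 h6
  have h6 := Polynomial.degree_eq_one_of_irreducible_of_root hirr h5
  have h7 : (G.map ψ).natDegree = 1 := Polynomial.natDegree_eq_of_degree_eq_some h6
  rw [Polynomial.natDegree_map_eq_of_injective hψ] at h7
  omega

end Pool.Agent.Helper97.HR
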