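import Mathlib

/-! Integral closures of finitely generated domains are finite. -/

set_option autoImplicit false

namespace Pool.Agent.Helper97.HR

theorem nagata (k R L : Type) [Field k] [CharZero k] [CommRing R] [IsDomain R] [Algebra k R]
    [Algebra.FiniteType k R] [Field L] [Algebra R L]
    (hinj : Function.Injective (algebraMap R L)) (T : Set L) (hTf : T.Finite)
    (hT : ∀ θ ∈ T, IsAlgebraic R θ)
    (hgen : Subfield.closure (Set.range (algebraMap R L) ∪ T) = ⊤) :
    IsNoetherian R (integralClosure R L) := by
  classical
  obtain ⟨s, g, hg, hgf⟩ := exists_finite_inj_algHom_of_fg k R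
  let A := MvPolynomial (Fin s) k
  let _ : Algebra A R := g.toRingHom.toAlgebra
  have hAR : Function.Injective (algebraMap A R) := hg
  have hfin : Module.Finite A R := hgf
  let _ : Algebra A L := ((algebraMap R L).comp (algebraMap A R)).toAlgebra
  have htow : IsScalarTower A R L := IsScalarTower.of_algebraMap_eq fun _ => rfl
  have hAL : Function.Injective (algebraMap A L) := hinj.comp hAR
  have hfs : FaithfulSMul A L := (faithfulSMul_iff_algebraMap_injective A L).2 hAL
  let K := FractionRing A
  let _ : Algebra K L := FractionRing.liftAlgebra A L
  have htow2 : IsScalarTower A K L := FractionRing.isScalarTower_liftAlgebra A L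
  have hc : CharZero K := by
    have h1 : CharZero A := inferInstance
    exact charZero_of_injective_algebraMap (IsFractionRing.injective A K)
  have hint : Algebra.IsIntegral A R := inferInstance
  have halg : Algebra.IsAlgebraic A R := inferInstance
  obtain ⟨G, hG⟩ := (Module.finite_def.1 hfin)
  let S : Set L := (algebraMap R L '' (G : Set R)) ∪ T
  have hSf : S.Finite := (G.finite_toSet.image _).union hTf
  have hSi : ∀ x ∈ S, IsIntegral K x := by
    rintro x (⟨r, _, rfl⟩ | hx)
    · have h1 : IsIntegral A (algebraMap R L r) := (hint.isIntegral r).algebraMap
      exact h1.tower_top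
    · have h1 : IsAlgebraic A x := (hT x hx).restrictScalars A
      have h2 : IsAlgebraic K x := (IsFractionRing.isAlgebraic_iff A K L).1 h1
      exact h2.isIntegral
  have htop : IntermediateField.adjoin K S = ⊤ := by
    have h1 : Subfield.closure (Set.range (algebraMap R L) ∪ T) ≤
        (IntermediateField.adjoin K S).toSubfield := by
      rw [Subfield.closure_le]
      rintro x (⟨r, rfl⟩ | hx)
      · have h2 : r ∈ Submodule.span A (G : Set R) := by rw [hG]; trivial
        refine Submodule.span_induction (p := fun r _ => algebraMap R L r ∈
          (IntermediateField.adjoin K S).toSubfield) ?_ ?_ ?_ ?_ h2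
        · intro y hy
          exact IntermediateField.subset_adjoin K S (Or.inl ⟨y, hy, rfl⟩)
        · rw [map_zero]
          exact zero_mem _
        · intro y z _ _ hy hz
          rw [map_add]
          exact add_mem hy hz
        · intro c y _ hy
          rw [Algebra.smul_def, map_mul, ← IsScalarTower.algebraMap_apply,
            IsScalarTower.algebraMap_apply A K L]
          exact mul_mem ((IntermediateField.adjoin K S).algebraMap_mem _) hy
      · exact IntermediateField.subset_adjoin K S (Or.inr hx)
    rw [hgen] at h1
    rw [eq_top_iff]
    intro x _
    exact h1 trivial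
  have hfd : FiniteDimensional K L := by
    have : Finite S := hSf
    have h1 : FiniteDimensional K (IntermediateField.adjoin K S) :=
      IntermediateField.finiteDimensional_adjoin hSi
    rw [htop] at h1
    exact (IntermediateField.topEquiv (F := K) (E := L)).toLinearEquiv.finiteDimensional
  have hN : IsNoetherian A (integralClosure A L) :=
    IsIntegralClosure.isNoetherian A K L (integralClosure A L)
  have hle : ∀ x : L, x ∈ integralClosure R L → x ∈ integralClosure A L := fun x hx =>
    isIntegral_trans (R := A) (A := R) x hx
  have hN2 : IsNoetherian A (integralClosure R L) := by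
    let f : integralClosure R L →ₗ[A] integralClosure A L :=
      { toFun := fun x => ⟨x.1, hle x.1 x.2⟩
        map_add' := fun _ _ => rfl
        map_smul' := fun c x => Subtype.ext (by
          rw [RingHom.id_apply]
          rfl) }
    refine isNoetherian_of_injective f fun x y h => ?_
    exact Subtype.ext (congrArg (fun z : integralClosure A L => (z : L)) h)
  exact isNoetherian_of_tower A hN2

end Pool.Agent.Helper97.HR
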