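import Mathlib

/-! Points of `y² = x³ + a x + b`: coordinates, doubling. -/

set_option autoImplicit false
set_option linter.unusedSectionVars false

namespace Pool.Agent.Helper97.HR

open WeierstrassCurve

/-- The curve `y² = x³ + a x + b`. -/
def cv {R : Type} [CommRing R] (a b : R) : WeierstrassCurve.Affine R := ⟨0, 0, 0, a, b⟩

/-- The discriminant up to a sign and a power of two. -/
def dsc {R : Type} [CommRing R] (a b : R) : R := 4 * a ^ 3 + 27 * b ^ 2

theorem dsc_map {R S : Type} [CommRing R] [CommRing S] (f : R →+* S) (a b : R) :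
    dsc (f a) (f b) = f (dsc a b) := by
  simp [dsc, map_ofNat]

section field

variable {F : Type} [Field F] [CharZero F] {a b : F}

theorem eqn_iff {x y : F} : (cv a b).Equation x y ↔ y ^ 2 = x ^ 3 + a * x + b := by
  rw [WeierstrassCurve.Affine.equation_iff]
  simp [cv]

theorem dsc_id (a b x : F) : dsc a b = (3 * x ^ 2 + 4 * a) *
    ((3 * x ^ 2 + a) ^ 2 - 8 * x * (x ^ 3 + a * x + b)) -
    (3 * x ^ 3 - 5 * a * x - 27 * b) * (x ^ 3 + a * x + b) := by
  unfold dsc
  ring

theorem nonsing_iff (hd : dsc a b ≠ 0) {x y : F} :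
    (cv a b).Nonsingular x y ↔ y ^ 2 = x ^ 3 + a * x + b := by
  rw [WeierstrassCurve.Affine.nonsingular_iff, eqn_iff]
  refine ⟨fun h => h.1, fun h => ⟨h, ?_⟩⟩
  by_contra hc
  push Not at hc
  obtain ⟨h1, h2⟩ := hc
  simp only [cv, zero_mul, mul_zero, sub_zero, add_zero] at h1 h2
  apply hd
  have h3 : y = 0 := by
    have : 2 * y = 0 := by linear_combination h2
    simpa using this
  have h4 : 3 * x ^ 2 + a = 0 := by linear_combination -h1
  have h5 : x ^ 3 + a * x + b = 0 := by rw [← h, h3]; ring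
  rw [dsc_id a b x, h4, h5]
  ring

variable [DecidableEq F]

/-- A point given by its coordinates. -/
def pt (hd : dsc a b ≠ 0) (x y : F) (h : y ^ 2 = x ^ 3 + a * x + b) : (cv a b).Point :=
  .some x y ((nonsing_iff hd).2 h)

theorem pt_ne {hd : dsc a b ≠ 0} {x y : F} {h : y ^ 2 = x ^ 3 + a * x + b} : pt hd x y h ≠ 0 :=
  WeierstrassCurve.Affine.Point.some_ne_zero _

theorem pt_inj {hd : dsc a b ≠ 0} {x y x' y' : F} {h : y ^ 2 = x ^ 3 + a * x + b}
    {h' : y' ^ 2 = x' ^ 3 + a * x' + b} : pt hd x y h = pt hd x' y' h' ↔ x = x' ∧ y = y' := by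
  unfold pt
  rw [WeierstrassCurve.Affine.Point.some.injEq]

theorem pt_congr {hd : dsc a b ≠ 0} {x y x' y' : F} {h : y ^ 2 = x ^ 3 + a * x + b}
    {h' : y' ^ 2 = x' ^ 3 + a * x' + b} (hx : x = x') (hy : y = y') :
    pt hd x y h = pt hd x' y' h' := pt_inj.2 ⟨hx, hy⟩

/-- Every point is zero or given by coordinates. -/
theorem pt_cases (hd : dsc a b ≠ 0) (P : (cv a b).Point) :
    P = 0 ∨ ∃ (x y : F) (h : y ^ 2 = x ^ 3 + a * x + b), P = pt hd x y h := by
  rcases P with _ | ⟨x, y, h⟩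
  · exact Or.inl rfl
  · exact Or.inr ⟨x, y, (nonsing_iff hd).1 h, rfl⟩

theorem negY_eq (x y : F) : (cv a b).negY x y = -y := by
  simp [WeierstrassCurve.Affine.negY, cv]

theorem neg_pt {hd : dsc a b ≠ 0} {x y : F} {h : y ^ 2 = x ^ 3 + a * x + b} :
    -pt hd x y h = pt hd x (-y) (by rw [neg_sq]; exact h) := by
  unfold pt
  rw [WeierstrassCurve.Affine.Point.neg_some]
  congr 1
  exact negY_eq x y

/-- Points with the same first coordinate. -/
theorem eq_or_neg {hd : dsc a b ≠ 0} {x y y' : F} {h : y ^ 2 = x ^ 3 + a * x + b}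
    {h' : y' ^ 2 = x ^ 3 + a * x + b} : pt hd x y h = pt hd x y' h' ∨
      pt hd x y h = -pt hd x y' h' := by
  have h1 : y ^ 2 = y' ^ 2 := h.trans h'.symm
  rcases sq_eq_sq_iff_eq_or_eq_neg.1 h1 with h2 | h2
  · exact Or.inl (pt_congr rfl h2)
  · right
    rw [neg_pt]
    exact pt_congr rfl h2

/-- The sum of points with different first coordinates. -/
theorem add_ne {hd : dsc a b ≠ 0} {x y x' y' : F} {h : y ^ 2 = x ^ 3 + a * x + b}
    {h' : y' ^ 2 = x' ^ 3 + a * x' + b} (hx : x ≠ x') :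
    ∃ h3, pt hd x y h + pt hd x' y' h' = pt hd (((y - y') / (x - x')) ^ 2 - x - x')
      (-((y - y') / (x - x') * (((y - y') / (x - x')) ^ 2 - x - x' - x) + y)) h3 := by
  have h1 : (cv a b).slope x x' y y' = (y - y') / (x - x') :=
    WeierstrassCurve.Affine.slope_of_X_ne hx
  have h2 : pt hd x y h + pt hd x' y' h' = _ :=
    WeierstrassCurve.Affine.Point.add_of_X_ne (h₁ := (nonsing_iff hd).2 h)
      (h₂ := (nonsing_iff hd).2 h') hx
  have h3 : (cv a b).addX x x' ((cv a b).slope x x' y y') =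
      ((y - y') / (x - x')) ^ 2 - x - x' := by
    rw [h1, WeierstrassCurve.Affine.addX]
    simp [cv]
  have h4 : (cv a b).addY x x' y ((cv a b).slope x x' y y') =
      -((y - y') / (x - x') * (((y - y') / (x - x')) ^ 2 - x - x' - x) + y) := by
    rw [WeierstrassCurve.Affine.addY, WeierstrassCurve.Affine.negAddY, negY_eq, h3, h1]
  have h5 := (nonsing_iff hd).1 (WeierstrassCurve.Affine.nonsingular_add
    ((nonsing_iff hd).2 h) ((nonsing_iff hd).2 h') fun hxy => hx hxy.1)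
  rw [h3, h4] at h5
  refine ⟨h5, h2.trans ?_⟩
  unfold pt
  rw [WeierstrassCurve.Affine.Point.some.injEq]
  exact ⟨h3, h4⟩

/-- The double of a point. -/
theorem add_self {hd : dsc a b ≠ 0} {x y : F} {h : y ^ 2 = x ^ 3 + a * x + b} (hy : y ≠ 0) :
    ∃ h3, pt hd x y h + pt hd x y h = pt hd (((3 * x ^ 2 + a) / (2 * y)) ^ 2 - x - x)
      (-((3 * x ^ 2 + a) / (2 * y) * (((3 * x ^ 2 + a) / (2 * y)) ^ 2 - x - x - x) + y)) h3 := by
  have hy' : y ≠ (cv a b).negY x y := by
    rw [negY_eq]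
    intro h
    apply hy
    have : 2 * y = 0 := by linear_combination h
    simpa using this
  have h1 : (cv a b).slope x x y y = (3 * x ^ 2 + a) / (2 * y) := by
    rw [WeierstrassCurve.Affine.slope_of_Y_ne rfl hy', negY_eq]
    simp [cv]
    ring
  have h2 : pt hd x y h + pt hd x y h = _ :=
    WeierstrassCurve.Affine.Point.add_of_Y_ne (h₁ := (nonsing_iff hd).2 h)
      (h₂ := (nonsing_iff hd).2 h) hy'
  have h3 : (cv a b).addX x x ((cv a b).slope x x y y) =
      ((3 * x ^ 2 + a) / (2 * y)) ^ 2 - x - x := by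
    rw [h1, WeierstrassCurve.Affine.addX]
    simp [cv]
  have h4 : (cv a b).addY x x y ((cv a b).slope x x y y) =
      -((3 * x ^ 2 + a) / (2 * y) * (((3 * x ^ 2 + a) / (2 * y)) ^ 2 - x - x - x) + y) := by
    rw [WeierstrassCurve.Affine.addY, WeierstrassCurve.Affine.negAddY, negY_eq, h3, h1]
  have h5 := (nonsing_iff hd).1 (WeierstrassCurve.Affine.nonsingular_add
    ((nonsing_iff hd).2 h) ((nonsing_iff hd).2 h) fun hxy => hy' hxy.2)
  rw [h3, h4] at h5
  refine ⟨h5, h2.trans ?_⟩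
  unfold pt
  rw [WeierstrassCurve.Affine.Point.some.injEq]
  exact ⟨h3, h4⟩

theorem add_self_zero {hd : dsc a b ≠ 0} {x y : F} {h : y ^ 2 = x ^ 3 + a * x + b} (hy : y = 0) :
    pt hd x y h + pt hd x y h = 0 := by
  unfold pt
  refine WeierstrassCurve.Affine.Point.add_of_Y_eq rfl ?_
  rw [negY_eq, hy, neg_zero]

/-- The first coordinate of the double. -/
theorem double_x {x y : F} (h : y ^ 2 = x ^ 3 + a * x + b) (hy : y ≠ 0) :
    (((3 * x ^ 2 + a) / (2 * y)) ^ 2 - x - x) * (4 * (x ^ 3 + a * x + b)) =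
      x ^ 4 - 2 * a * x ^ 2 - 8 * b * x + a ^ 2 := by
  rw [← h]
  field_simp
  linear_combination (-32 * x) * h

/-- If twice `R` is `Q ≠ 0`, the first coordinate of `R` is a root of the halving quartic. -/
theorem half_root {hd : dsc a b ≠ 0} {R : (cv a b).Point} {u v : F}
    {h : v ^ 2 = u ^ 3 + a * u + b} (hR : R + R = pt hd u v h) :
    ∃ (r s : F) (h' : s ^ 2 = r ^ 3 + a * r + b), s ≠ 0 ∧ R = pt hd r s h' ∧
      r ^ 4 - 2 * a * r ^ 2 - 8 * b * r + a ^ 2 - u * (4 * (r ^ 3 + a * r + b)) = 0 := by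
  rcases pt_cases hd R with h0 | ⟨r, s, h', h1⟩
  · rw [h0, add_zero] at hR
    exact absurd hR.symm pt_ne
  · have hs : s ≠ 0 := by
      intro hs
      rw [h1, add_self_zero hs] at hR
      exact absurd hR.symm pt_ne
    refine ⟨r, s, h', hs, h1, ?_⟩
    obtain ⟨h3, h4⟩ := add_self (hd := hd) (h := h') hs
    rw [h1, h4, pt_inj] at hR
    rw [← hR.1, double_x h' hs, sub_self]

/-- Conversely a root of the halving quartic with a second coordinate. -/
theorem root_half {hd : dsc a b ≠ 0} {u v : F} {h : v ^ 2 = u ^ 3 + a * u + b} {r s : F}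
    (h' : s ^ 2 = r ^ 3 + a * r + b)
    (hr : r ^ 4 - 2 * a * r ^ 2 - 8 * b * r + a ^ 2 - u * (4 * (r ^ 3 + a * r + b)) = 0) :
    pt hd r s h' + pt hd r s h' = pt hd u v h ∨ pt hd r s h' + pt hd r s h' = -pt hd u v h := by
  have hs : s ≠ 0 := by
    intro hs
    apply hd
    have h5 : r ^ 3 + a * r + b = 0 := by rw [← h', hs]; ring
    have h6 : (3 * r ^ 2 + a) ^ 2 = 0 := by linear_combination hr + (8 * r + 4 * u) * h5
    rw [dsc_id a b r, h6, h5]
    ring
  obtain ⟨h3, h4⟩ := add_self (hd := hd) (h := h') hs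
  have h5 : r ^ 3 + a * r + b ≠ 0 := by rw [← h']; exact pow_ne_zero _ hs
  have h6 : ((3 * r ^ 2 + a) / (2 * s)) ^ 2 - r - r = u := by
    have h7 := double_x h' hs
    have h8 : 4 * (r ^ 3 + a * r + b) ≠ 0 := mul_ne_zero (by norm_num) h5
    apply mul_right_cancel₀ h8
    rw [h7]
    linear_combination hr
  rw [h4]
  subst h6
  exact eq_or_neg

end field

end Pool.Agent.Helper97.HR
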