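import Mathlib
import Pool.Agent.Helper97.HR.Curve

/-! Points with coordinates in a subfield. -/

set_option autoImplicit false
set_option linter.unusedSectionVars false

namespace Pool.Agent.Helper97.HR

open WeierstrassCurve

variable {F : Type} [Field F] [CharZero F] {a b : F} [DecidableEq F]

/-- The coordinates of `P` are in `E`. -/
def HC (E : Subfield F) (P : (cv a b).Point) : Prop :=
  ∀ (x y : F) (h : (cv a b).Nonsingular x y), P = .some x y h → x ∈ E ∧ y ∈ E

theorem HC.zero {E : Subfield F} : HC E (0 : (cv a b).Point) := by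
  intro x y h h0
  exact absurd h0.symm (WeierstrassCurve.Affine.Point.some_ne_zero h)

theorem HC.pt {E : Subfield F} {hd : dsc a b ≠ 0} {x y : F} {h : y ^ 2 = x ^ 3 + a * x + b} :
    HC E (pt hd x y h) ↔ x ∈ E ∧ y ∈ E := by
  constructor
  · intro h1
    exact h1 x y _ rfl
  · rintro h1 x' y' h' h2
    unfold HR.pt at h2
    rw [WeierstrassCurve.Affine.Point.some.injEq] at h2
    rw [← h2.1, ← h2.2]
    exact h1

theorem HC.mono {E E' : Subfield F} (h : E ≤ E') {P : (cv a b).Point} (hP : HC E P) :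
    HC E' P := fun x y h1 h2 => ⟨h (hP x y h1 h2).1, h (hP x y h1 h2).2⟩

theorem HC.neg {E : Subfield F} (hd : dsc a b ≠ 0) {P : (cv a b).Point} (hP : HC E P) :
    HC E (-P) := by
  rcases pt_cases hd P with rfl | ⟨x, y, h, rfl⟩
  · exact HC.zero
  · rw [HC.pt] at hP
    rw [neg_pt, HC.pt]
    exact ⟨hP.1, neg_mem hP.2⟩

theorem HC.add {E : Subfield F} (hd : dsc a b ≠ 0) (ha : a ∈ E) {P Q : (cv a b).Point}
    (hP : HC E P) (hQ : HC E Q) : HC E (P + Q) := by
  rcases pt_cases hd P with rfl | ⟨x, y, h, rfl⟩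
  · rwa [zero_add]
  rcases pt_cases hd Q with rfl | ⟨x', y', h', rfl⟩
  · rwa [add_zero]
  rw [HC.pt] at hP hQ
  have e2 : (2 : F) ∈ E := ofNat_mem E 2
  have e3 : (3 : F) ∈ E := ofNat_mem E 3
  by_cases hx : x = x'
  · subst hx
    rcases eq_or_neg (hd := hd) (h := h) (h' := h') with h1 | h1
    · rw [← h1]
      by_cases hy : y = 0
      · rw [add_self_zero hy]
        exact HC.zero
      · obtain ⟨h3, h4⟩ := add_self (hd := hd) (h := h) hy
        rw [h4, HC.pt]
        have hs : (3 * x ^ 2 + a) / (2 * y) ∈ E :=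
          div_mem (add_mem (mul_mem e3 (pow_mem hP.1 2)) ha) (mul_mem e2 hP.2)
        have hX := sub_mem (sub_mem (pow_mem hs 2) hP.1) hP.1
        exact ⟨hX, neg_mem (add_mem (mul_mem hs (sub_mem hX hP.1)) hP.2)⟩
    · rw [h1, neg_add_cancel]
      exact HC.zero
  · obtain ⟨h3, h4⟩ := add_ne (hd := hd) (h := h) (h' := h') hx
    rw [h4, HC.pt]
    have hs : (y - y') / (x - x') ∈ E := div_mem (sub_mem hP.2 hQ.2) (sub_mem hP.1 hQ.1)
    have hX := sub_mem (sub_mem (pow_mem hs 2) hP.1) hQ.1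
    exact ⟨hX, neg_mem (add_mem (mul_mem hs (sub_mem hX hP.1)) hP.2)⟩

theorem HC.sub {E : Subfield F} (hd : dsc a b ≠ 0) (ha : a ∈ E) {P Q : (cv a b).Point}
    (hP : HC E P) (hQ : HC E Q) : HC E (P - Q) := by
  rw [sub_eq_add_neg]
  exact HC.add hd ha hP (HC.neg hd hQ)

theorem HC.sum {E : Subfield F} (hd : dsc a b ≠ 0) (ha : a ∈ E) {ι : Type} (s : Finset ι)
    {P : ι → (cv a b).Point} (hP : ∀ i ∈ s, HC E (P i)) : HC E (∑ i ∈ s, P i) := by
  classical
  induction s using Finset.induction_on with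
  | empty => rw [Finset.sum_empty]; exact HC.zero
  | insert i s hi ih =>
    rw [Finset.sum_insert hi]
    exact HC.add hd ha (hP i (Finset.mem_insert_self i s))
      (ih fun j hj => hP j (Finset.mem_insert_of_mem hj))

end Pool.Agent.Helper97.HR
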