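import Mathlib
import Pool.Agent.Helper97.HR.Coords

/-! The generic point of an elliptic curve, moved by a constant point, is not divisible by two. -/

set_option autoImplicit false
set_option linter.unusedSectionVars false

namespace Pool.Agent.Helper97.HR

open Polynomial

/-- If `u = N(ρ)/D(ρ)` with `deg D ≥ 3`, then `1, ρ, ρ²` are linearly independent over `E(u)`. -/
theorem indep3 {E L : Type} [Field E] [Field L] [Algebra E L] {ρ : L} (hρ : Transcendental E ρ)
    {N D : E[X]} (hD : 3 ≤ D.natDegree) (hcop : IsCoprime D N) {u : L}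
    (hu : u * aeval ρ D = aeval ρ N) (m : ℕ) : ∀ (c : Fin 3 → E[X]), (∀ j, (c j).degree < m) →
    ∑ j, aeval u (c j) * ρ ^ (j : ℕ) = 0 → ∀ j, c j = 0 := by
  induction m with
  | zero =>
    intro c hc _ j
    have := hc j
    rwa [Nat.cast_zero, ← Polynomial.degree_eq_bot, Nat.WithBot.lt_zero_iff] at *
  | succ m ih =>
    intro c hc h0
    let H : E[X] → E[X] := fun f => ∑ i ∈ Finset.range (m + 1), C (f.coeff i) * N ^ i * D ^ (m - i)
    have hH : ∀ f : E[X], f.degree < (m + 1 : ℕ) → aeval ρ (H f) = aeval ρ D ^ m * aeval u f := by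
      intro f hf
      have h1 : aeval u f = ∑ i ∈ Finset.range (m + 1), algebraMap E L (f.coeff i) * u ^ i := by
        conv_lhs => rw [Polynomial.as_sum_range' f (m + 1) (by
          by_cases hf0 : f = 0
          · rw [hf0, natDegree_zero]; omega
          · rwa [Polynomial.degree_eq_natDegree hf0, Nat.cast_lt] at hf)]
        rw [map_sum]
        exact Finset.sum_congr rfl fun i _ => by rw [aeval_monomial]
      rw [h1, map_sum, Finset.mul_sum]
      refine Finset.sum_congr rfl fun i hi => ?_
      rw [Finset.mem_range] at hi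
      rw [map_mul, map_mul, map_pow, map_pow, aeval_C, ← hu, mul_pow]
      have h2 : aeval ρ D ^ m = aeval ρ D ^ i * aeval ρ D ^ (m - i) := by
        rw [← pow_add]
        congr 1
        omega
      rw [h2]
      ring
    have h1 : ∑ j : Fin 3, H (c j) * X ^ (j : ℕ) = 0 := by
      apply (transcendental_iff.1 hρ)
      rw [map_sum]
      have h2 : ∀ j : Fin 3, aeval ρ (H (c j) * X ^ (j : ℕ)) =
          aeval ρ D ^ m * (aeval u (c j) * ρ ^ (j : ℕ)) := by
        intro j
        rw [map_mul, hH _ (hc j), map_pow, aeval_X]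
        ring
      rw [Finset.sum_congr rfl fun j _ => h2 j, ← Finset.mul_sum, h0, mul_zero]
    have h2 : ∀ f : E[X], D ∣ H f - C (f.coeff m) * N ^ m := by
      intro f
      have : H f - C (f.coeff m) * N ^ m =
          ∑ i ∈ Finset.range m, C (f.coeff i) * N ^ i * D ^ (m - i) := by
        change (∑ i ∈ Finset.range (m + 1), C (f.coeff i) * N ^ i * D ^ (m - i)) - _ = _
        rw [Finset.sum_range_succ, Nat.sub_self, pow_zero, mul_one, add_sub_cancel_right]
      rw [this]
      refine Finset.dvd_sum fun i hi => ?_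
      rw [Finset.mem_range] at hi
      exact Dvd.dvd.mul_left (dvd_pow_self D (by omega)) _
    have h3 : D ∣ N ^ m * ∑ j : Fin 3, C ((c j).coeff m) * X ^ (j : ℕ) := by
      have h4 : N ^ m * ∑ j : Fin 3, C ((c j).coeff m) * X ^ (j : ℕ) =
          ∑ j : Fin 3, H (c j) * X ^ (j : ℕ) -
            ∑ j : Fin 3, (H (c j) - C ((c j).coeff m) * N ^ m) * X ^ (j : ℕ) := by
        rw [← Finset.sum_sub_distrib, Finset.mul_sum]
        refine Finset.sum_congr rfl fun j _ => ?_
        ring
      rw [h4, h1, zero_sub]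
      exact (Finset.dvd_sum fun j _ => Dvd.dvd.mul_right (h2 _) _).neg_right
    have h4 : D ∣ ∑ j : Fin 3, C ((c j).coeff m) * X ^ (j : ℕ) :=
      (hcop.pow_right (n := m)).dvd_of_dvd_mul_left h3
    have h5 : (∑ j : Fin 3, C ((c j).coeff m) * X ^ (j : ℕ)) = 0 := by
      by_contra hne
      have h6 := Polynomial.natDegree_le_of_dvd h4 hne
      have h7 : (∑ j : Fin 3, C ((c j).coeff m) * X ^ (j : ℕ)).natDegree ≤ 2 := by
        refine Polynomial.natDegree_sum_le_of_forall_le _ _ fun j _ => ?_
        refine (Polynomial.natDegree_C_mul_X_pow_le _ _).trans ?_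
        omega
      omega
    refine ih c (fun j => ?_) h0
    have h6 : (c j).coeff m = 0 := by
      have h7 := congrArg (fun p => Polynomial.coeff p (j : ℕ)) h5
      simp only [Polynomial.finsetSum_coeff, Polynomial.coeff_C_mul, Polynomial.coeff_X_pow,
        Polynomial.coeff_zero] at h7
      rw [Finset.sum_eq_single j] at h7
      · simpa using h7
      · intro i _ hi
        rw [if_neg fun h => hi (Fin.ext h.symm), mul_zero]
      · intro h
        exact absurd (Finset.mem_univ j) h
    have h8 := hc j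
    rw [Polynomial.degree_lt_iff_coeff_zero] at h8 ⊢
    intro i hi
    rcases Nat.eq_or_lt_of_le hi with h9 | h9
    · rw [← h9, h6]
    · exact h8 i h9

/-- Elements of `E(u, w)`, `w² ∈ E(u)`, satisfy quadratic equations over `E[u]`. -/
theorem quad {E L : Type} [Field E] [Field L] [Algebra E L] {u w : L}
    (hgen : IntermediateField.adjoin E {u, w} = ⊤) (g : E[X]) (hg : w ^ 2 = aeval u g) (ρ : L) :
    ∃ c : Fin 3 → E[X], (∃ j, c j ≠ 0) ∧ ∑ j, aeval u (c j) * ρ ^ (j : ℕ) = 0 := by
  classical
  let T := IntermediateField.adjoin E {u}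
  have hwT : w ^ 2 ∈ T := by
    rw [hg]
    exact IntermediateField.algebra_adjoin_le_adjoin _ _ (Polynomial.aeval_mem_adjoin_singleton _ _)
  let gT : T[X] := X ^ 2 - C ⟨w ^ 2, hwT⟩
  have hgT : gT.Monic := monic_X_pow_sub_C _ (by norm_num)
  have hgw : aeval w gT = 0 := by
    simp [gT]
  have hint : IsIntegral T w := ⟨gT, hgT, hgw⟩
  have htop : IntermediateField.adjoin T {w} = ⊤ := by
    have h1 := IntermediateField.adjoin_adjoin_left E {u} {w}
    rw [Set.singleton_union, hgen] at h1
    rw [← IntermediateField.restrictScalars_eq_top_iff (K := E)]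
    exact h1
  have hfr : Module.finrank T L ≤ 2 := by
    have h2 := IntermediateField.adjoin.finrank hint
    rw [htop, IntermediateField.finrank_top'] at h2
    rw [h2]
    have h3 := Polynomial.natDegree_le_of_dvd (minpoly.dvd T w hgw) hgT.ne_zero
    rwa [natDegree_X_pow_sub_C] at h3
  have hfd : FiniteDimensional T L := by
    have h3 : FiniteDimensional T (IntermediateField.adjoin T {w}) :=
      IntermediateField.adjoin.finiteDimensional hint
    rw [htop] at h3
    exact FiniteDimensional.of_finrank_pos (by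
      rw [← IntermediateField.finrank_top' (F := T) (E := L)]
      exact Module.finrank_pos)
  have hnl : ¬ LinearIndependent T (fun j : Fin 3 => ρ ^ (j : ℕ)) := by
    intro h
    have h4 := h.fintype_card_le_finrank
    rw [Fintype.card_fin] at h4
    omega
  rw [Fintype.not_linearIndependent_iff] at hnl
  obtain ⟨t, ht0, j₀, htj⟩ := hnl
  have hrep : ∀ j, ∃ r s : E[X], aeval u s ≠ 0 ∧ ((t j : T) : L) * aeval u s = aeval u r := by
    intro j
    obtain ⟨r, s, hrs⟩ := (IntermediateField.mem_adjoin_simple_iff E ((t j : T) : L)).1 (t j).2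
    by_cases hs : aeval u s = 0
    · refine ⟨0, 1, by simp, ?_⟩
      rw [hrs, hs]
      simp
    · exact ⟨r, s, hs, by rw [hrs, div_mul_cancel₀ _ hs]⟩
  choose r s hs hrs using hrep
  refine ⟨fun j => r j * ∏ i ∈ Finset.univ.erase j, s i, ⟨j₀, ?_⟩, ?_⟩
  · have hr : aeval u (r j₀) ≠ 0 := by
      rw [← hrs]
      refine mul_ne_zero ?_ (hs _)
      intro h
      exact htj (Subtype.ext h)
    refine mul_ne_zero (fun h => hr (by rw [h, map_zero])) (Finset.prod_ne_zero_iff.2 fun i _ h =>
      hs i (by rw [h, map_zero]))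
  · have h5 : ∀ j : Fin 3, aeval u (r j * ∏ i ∈ Finset.univ.erase j, s i) * ρ ^ (j : ℕ) =
        (∏ i, aeval u (s i)) * (((t j : T) : L) * ρ ^ (j : ℕ)) := by
      intro j
      rw [map_mul, map_prod, ← hrs, ← Finset.mul_prod_erase Finset.univ _ (Finset.mem_univ j)]
      ring
    rw [Finset.sum_congr rfl fun j _ => h5 j, ← Finset.mul_sum]
    have h6 : ∑ j : Fin 3, ((t j : T) : L) * ρ ^ (j : ℕ) = 0 := by
      rw [← ht0]
      exact Finset.sum_congr rfl fun j _ => rfl
    rw [h6, mul_zero]

end Pool.Agent.Helper97.HR
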