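import Mathlib
import Pool.Agent.Helper97.HR.Deg

/-! The generic point of an elliptic curve, moved by a constant point, is not divisible by two. -/

set_option autoImplicit false
set_option linter.unusedSectionVars false

namespace Pool.Agent.Helper97.HR

open Polynomial

variable {K : Type} [Field K] [CharZero K] [DecidableEq K] {a b : K}

/-- The numerator of the duplication formula. -/
noncomputable def NN {E : Type} [CommRing E] (a b : E) : E[X] :=
  X ^ 4 - C (2 * a) * X ^ 2 - C (8 * b) * X + C (a ^ 2)

/-- The right hand side of the equation. -/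
noncomputable def GG {E : Type} [CommRing E] (a b : E) : E[X] :=
  X ^ 3 + C a * X + C b

theorem coprime_NG {E : Type} [Field E] {a b : E} (hd : dsc a b ≠ 0) :
    IsCoprime (GG a b) (NN a b) := by
  refine ⟨-(C (dsc a b)⁻¹ * (3 * X ^ 3 - C (5 * a) * X - C (27 * b))),
    C (dsc a b)⁻¹ * (3 * X ^ 2 + C (4 * a)), ?_⟩
  have h1 : (3 * X ^ 2 + C (4 * a)) * NN a b -
      (3 * X ^ 3 - C (5 * a) * X - C (27 * b)) * GG a b = C (dsc a b) := by
    unfold NN GG dsc
    simp only [map_mul, map_add, map_pow]
    have e2 : (C 2 : E[X]) = 2 := rfl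
    have e4 : (C 4 : E[X]) = 4 := rfl
    have e5 : (C 5 : E[X]) = 5 := rfl
    have e8 : (C 8 : E[X]) = 8 := rfl
    have e27 : (C 27 : E[X]) = 27 := rfl
    rw [e2, e4, e5, e8, e27]
    ring
  have h2 : C (dsc a b)⁻¹ * C (dsc a b) = (1 : E[X]) := by
    rw [← C_mul, inv_mul_cancel₀ hd, C_1]
  rw [← h2, ← h1]
  ring

theorem natDegree_GG {E : Type} [Field E] {a b : E} : (GG a b).natDegree = 3 := by
  unfold GG
  compute_degree!

theorem natDegree_GG4 {E : Type} [Field E] [CharZero E] {a b : E} :
    (C 4 * GG a b).natDegree = 3 := by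
  rw [natDegree_C_mul (by norm_num), natDegree_GG]

theorem alg_aeval {E L : Type} [Field E] [Field L] [Algebra E L] {z : L} (hz : IsAlgebraic E z)
    (p : E[X]) : IsAlgebraic E (aeval z p) :=
  IsIntegral.isAlgebraic (adjoin_le_integralClosure hz.isIntegral
    (Polynomial.aeval_mem_adjoin_singleton E z))

/-- **The generic point is not divisible by two modulo constants.** -/
theorem not_half (E : Subfield K) (hd : dsc a b ≠ 0) (ha : a ∈ E) (hb : b ∈ E) {x y : K}
    (h : y ^ 2 = x ^ 3 + a * x + b) (hx : Transcendental E x)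
    (hgen : IntermediateField.adjoin E {x, y} = ⊤) (C : (cv a b).Point) (hC : HC E C)
    (R : (cv a b).Point) : R + R ≠ pt hd x y h + C := by
  intro hR
  have hxE : x ∉ E := by
    intro hxE
    exact hx (isAlgebraic_algebraMap (⟨x, hxE⟩ : E))
  rcases pt_cases hd (pt hd x y h + C) with h0 | ⟨u, w, hQ, h0⟩
  · have h1 : pt hd x y h = -C := eq_neg_of_add_eq_zero_left h0
    have h2 : HC E (pt hd x y h) := by
      rw [h1]
      exact HC.neg hd hC
    rw [HC.pt] at h2
    exact hxE h2.1
  · rw [h0] at hR
    have htop : IntermediateField.adjoin E {u, w} = ⊤ := by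
      rw [eq_top_iff, ← hgen, IntermediateField.adjoin_le_iff]
      have hE : E ≤ (IntermediateField.adjoin E {u, w}).toSubfield := fun z hz =>
        (IntermediateField.adjoin E {u, w}).algebraMap_mem ⟨z, hz⟩
      have h1 : HC (IntermediateField.adjoin E {u, w}).toSubfield (pt hd u w hQ) := by
        rw [HC.pt]
        exact ⟨IntermediateField.subset_adjoin _ _ (by simp),
          IntermediateField.subset_adjoin _ _ (by simp)⟩
      have h2 : HC (IntermediateField.adjoin E {u, w}).toSubfield (pt hd x y h) := by
        have h3 : pt hd x y h = pt hd u w hQ - C := by rw [← h0, add_sub_cancel_right]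
        rw [h3]
        exact HC.sub hd (hE ha) h1 (HC.mono hE hC)
      rw [HC.pt] at h2
      rintro z (rfl | rfl)
      · exact h2.1
      · exact h2.2
    -- the polynomials over `E`
    let aE : E := ⟨a, ha⟩
    let bE : E := ⟨b, hb⟩
    have hdE : dsc aE bE ≠ 0 := by
      intro h1
      apply hd
      have h2 := dsc_map (algebraMap E K) aE bE
      rw [h1, map_zero] at h2
      exact h2
    have hG : ∀ z : K, aeval z (GG aE bE) = z ^ 3 + a * z + b := by
      intro z
      unfold GG
      simp only [map_add, map_mul, map_pow, aeval_X, aeval_C]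
      rfl
    have hN : ∀ z : K, aeval z (NN aE bE) = z ^ 4 - 2 * a * z ^ 2 - 8 * b * z + a ^ 2 := by
      intro z
      unfold NN
      simp only [map_add, map_sub, map_mul, map_pow, aeval_X, aeval_C]
      have e2 : algebraMap E K 2 = 2 := map_ofNat _ _
      have e8 : algebraMap E K 8 = 8 := map_ofNat _ _
      rw [e2, e8]
      rfl
    have hu : Transcendental E u := by
      intro hu
      have hw : IsAlgebraic E w := by
        have h1 : IsAlgebraic E (w ^ 2) := by
          rw [hQ, ← hG]
          exact alg_aeval hu _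
        exact h1.of_pow (by norm_num)
      have h2 : Algebra.IsAlgebraic E (IntermediateField.adjoin E {u, w}) := by
        apply IntermediateField.isAlgebraic_adjoin
        rintro z (rfl | rfl)
        · exact hu.isIntegral
        · exact hw.isIntegral
      have h3 := h2.isAlgebraic ⟨x, by rw [htop]; trivial⟩
      exact hx (h3.algHom (IntermediateField.adjoin E {u, w}).val)
    obtain ⟨r, s, hrs, hs, hRr, hr⟩ := half_root hR
    have hGr : r ^ 3 + a * r + b ≠ 0 := by rw [← hrs]; exact pow_ne_zero _ hs
    have hrt : Transcendental E r := by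
      intro hra
      apply hu
      have h1 : u = aeval r (NN aE bE) / (4 * aeval r (GG aE bE)) := by
        rw [hN, hG, eq_div_iff (mul_ne_zero (by norm_num) hGr)]
        linear_combination -hr
      rw [h1]
      have h4 : IsAlgebraic E (4 : K) := by
        have : (4 : K) = algebraMap E K 4 := (map_ofNat _ _).symm
        rw [this]
        exact isAlgebraic_algebraMap _
      rw [div_eq_mul_inv]
      exact (alg_aeval hra _).mul (h4.mul (alg_aeval hra _)).inv
    obtain ⟨c, ⟨j, hj⟩, hc⟩ := quad htop (GG aE bE) (by rw [hQ, hG]) r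
    refine hj (indep3 hrt (N := NN aE bE) (D := Polynomial.C 4 * GG aE bE) (by rw [natDegree_GG4])
      ?_ ?_ ((Finset.univ.sup fun j => (c j).natDegree) + 1) c (fun j => ?_) hc j)
    · exact (isCoprime_mul_unit_left_left (isUnit_C.2 (isUnit_iff_ne_zero.2 (by norm_num))) _ _).2
        (coprime_NG hdE)
    · rw [map_mul, aeval_C, hN, hG]
      have e4 : algebraMap E K 4 = 4 := map_ofNat _ _
      rw [e4]
      linear_combination -hr
    · refine lt_of_le_of_lt Polynomial.degree_le_natDegree ?_
      rw [Nat.cast_lt]
      exact Nat.lt_succ_of_le (Finset.le_sup (f := fun j => (c j).natDegree) (Finset.mem_univ j))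

end Pool.Agent.Helper97.HR
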