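import Mathlib
import Pool.Agent.Helper97.HR.Gen

/-! Specialisation of points under the Hilbert property. -/

set_option autoImplicit false
set_option linter.unusedSectionVars false

namespace Pool.Agent.Helper97.HR

open Polynomial

/-- The Hilbert property of the function field `K` over `k`, in birationally invariant form:
for all finitely many polynomials over `K` without root in `K` and all finite sets `S` in `K`
there is a `k`-rational place, finite on `S` and on the coefficients, at which none of the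
specialised polynomials has a root in `k`. -/
def HPF (k K : Type) [Field k] [Field K] [Algebra k K] : Prop :=
  ∀ (q : ℕ) (P : Fin q → K[X]), (∀ (j : Fin q) (x : K), (P j).eval x ≠ 0) → ∀ S : Finset K,
    ∃ (B : Subalgebra k K) (φ : B →ₐ[k] k) (P' : Fin q → B[X]),
      (S : Set K) ⊆ B ∧ (∀ j, (P' j).map (algebraMap B K) = P j) ∧
      ∀ (j : Fin q) (x : k), ((P' j).map (φ : B →+* k)).eval x ≠ 0

section

variable {k K : Type} [Field k] [Field K] [Algebra k K]

/-- All roots in `k` of the specialised polynomials come from roots in `K`. -/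
def RootsLift (B : Subalgebra k K) (φ : B →ₐ[k] k) (p : K[X]) : Prop :=
  ∀ P : B[X], P.map (algebraMap B K) = p → ∀ z : k, (P.map (φ : B →+* k)).eval z = 0 →
    ∃ r : B, p.eval (r : K) = 0 ∧ φ r = z

theorem roots_lift (h : HPF k K) (T : Finset K[X]) (hT : ∀ p ∈ T, p ≠ 0) (S : Finset K) :
    ∃ (B : Subalgebra k K) (φ : B →ₐ[k] k), (S : Set K) ⊆ B ∧ ∀ p ∈ T, RootsLift B φ p := by
  classical
  have hfac : ∀ p : K[X], ∃ q : K[X], (p.roots.map fun a => X - C a).prod * q = p ∧
      q.roots = 0 := fun p => by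
    obtain ⟨q, h1, _, h3⟩ := Polynomial.exists_prod_multiset_X_sub_C_mul p
    exact ⟨q, h1, h3⟩
  choose Q hQ1 hQ2 using hfac
  let e := T.equivFin
  have hno : ∀ (j : Fin T.card) (x : K), (Q ((e.symm j : T) : K[X])).eval x ≠ 0 := by
    intro j x hx
    have h1 : ((e.symm j : T) : K[X]) ≠ 0 := hT _ (e.symm j).2
    have h2 : Q ((e.symm j : T) : K[X]) ≠ 0 := by
      intro h3
      apply h1
      rw [← hQ1 ((e.symm j : T) : K[X]), h3, mul_zero]
    have h4 : x ∈ (Q ((e.symm j : T) : K[X])).roots := (mem_roots h2).2 hx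
    rw [hQ2] at h4
    exact Multiset.notMem_zero _ h4
  obtain ⟨B, φ, P', hS, hP', hr⟩ := h T.card (fun j => Q ((e.symm j : T) : K[X])) hno
    (S ∪ T.biUnion fun p => p.roots.toFinset)
  refine ⟨B, φ, fun x hx => hS (by
    rw [Finset.coe_union]
    exact Or.inl hx), fun p hp P hP z hz => ?_⟩
  have hroot : ∀ r ∈ p.roots, r ∈ B := by
    intro r hr
    apply hS
    rw [Finset.coe_union]
    refine Or.inr ?_
    rw [Finset.mem_coe, Finset.mem_biUnion]
    exact ⟨p, hp, Multiset.mem_toFinset.2 hr⟩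
  let j : Fin T.card := e ⟨p, hp⟩
  have hj : ((e.symm j : T) : K[X]) = p := by
    simp [j]
  have hPj : (P' j).map (algebraMap B K) = Q p := by
    rw [hP' j, hj]
  let M : Multiset B := p.roots.attach.map fun r => ⟨r.1, hroot r.1 r.2⟩
  have hM : M.map (fun r : B => (r : K)) = p.roots := by
    rw [Multiset.map_map]
    exact Multiset.attach_map_val _
  have hprod : (M.map fun r : B => (X - C r : B[X])).prod * P' j = P := by
    apply Polynomial.map_injective (algebraMap B K) (FaithfulSMul.algebraMap_injective B K)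
    rw [Polynomial.map_mul, hPj, hP, Polynomial.map_multiset_prod, Multiset.map_map]
    conv_rhs => rw [← hQ1 p]
    congr 2
    conv_rhs => rw [← hM, Multiset.map_map]
    refine Multiset.map_congr rfl fun r _ => ?_
    simp only [Function.comp_apply, Polynomial.map_sub, Polynomial.map_X, Polynomial.map_C]
    rfl
  rw [← hprod, Polynomial.map_mul, Polynomial.eval_mul] at hz
  have h2 := (mul_eq_zero.1 hz).resolve_right (hr j z)
  rw [Polynomial.map_multiset_prod, Polynomial.eval_multiset_prod, Multiset.prod_eq_zero_iff,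
    Multiset.map_map, Multiset.map_map, Multiset.mem_map] at h2
  obtain ⟨r, hrM, hr0⟩ := h2
  simp only [Function.comp_apply, Polynomial.map_sub, Polynomial.map_X, Polynomial.map_C,
    Polynomial.eval_sub, Polynomial.eval_X, Polynomial.eval_C] at hr0
  refine ⟨r, ?_, (sub_eq_zero.1 hr0).symm⟩
  have h3 : (r : K) ∈ p.roots := by
    rw [← hM]
    exact Multiset.mem_map_of_mem _ hrM
  exact Polynomial.isRoot_of_mem_roots h3

end

section curve

variable {k K : Type} [Field k] [Field K] [Algebra k K] [CharZero K] [CharZero k]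
  [DecidableEq K] [DecidableEq k] {a b : K}

/-- Addition is compatible with specialisation. -/
theorem spec_add {B : Subalgebra k K} (φ : B →ₐ[k] k) {a₀ b₀ : B} (hd : dsc (a₀ : K) b₀ ≠ 0)
    (hd' : dsc (φ a₀) (φ b₀) ≠ 0) {x y x' y' x'' y'' i : B} {h : (y : K) ^ 2 = x ^ 3 + a₀ * x + b₀}
    {h' : (y' : K) ^ 2 = x' ^ 3 + a₀ * x' + b₀} {h'' : (y'' : K) ^ 2 = x'' ^ 3 + a₀ * x'' + b₀}
    (hi : ((x : K) - x') * i = 1) (hsum : pt hd (x : K) y h + pt hd (x' : K) y' h' =
      pt hd (x'' : K) y'' h'') {g : (φ y) ^ 2 = (φ x) ^ 3 + φ a₀ * φ x + φ b₀}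
    {g' : (φ y') ^ 2 = (φ x') ^ 3 + φ a₀ * φ x' + φ b₀}
    {g'' : (φ y'') ^ 2 = (φ x'') ^ 3 + φ a₀ * φ x'' + φ b₀} :
    pt hd' (φ x) (φ y) g + pt hd' (φ x') (φ y') g' = pt hd' (φ x'') (φ y'') g'' := by
  have hx : (x : K) - x' ≠ 0 := fun h0 => by
    rw [h0, zero_mul] at hi
    exact zero_ne_one hi
  have hxx : (x : K) ≠ x' := sub_ne_zero.1 hx
  have hiB : (x - x') * i = 1 := Subtype.ext hi
  have hiφ : (φ x - φ x') * φ i = 1 := by rw [← map_sub, ← map_mul, hiB, map_one]
  have hφx : φ x - φ x' ≠ 0 := fun h0 => by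
    rw [h0, zero_mul] at hiφ
    exact zero_ne_one hiφ
  have hφxx : φ x ≠ φ x' := sub_ne_zero.1 hφx
  obtain ⟨e1, e2⟩ := add_ne (hd := hd) (h := h) (h' := h') hxx
  obtain ⟨f1, f2⟩ := add_ne (hd := hd') (h := g) (h' := g') hφxx
  rw [e2, pt_inj] at hsum
  rw [f2, pt_inj]
  have hs : ((y : K) - y') / (x - x') = ((y - y') * i : B) := by
    rw [div_eq_iff hx]
    push_cast
    linear_combination -((y : K) - y') * hi
  have hs' : (φ y - φ y') / (φ x - φ x') = φ ((y - y') * i) := by
    rw [div_eq_iff hφx, map_mul, map_sub]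
    linear_combination -(φ y - φ y') * hiφ
  rw [hs] at hsum
  rw [hs']
  set s : B := (y - y') * i
  have h1 : s ^ 2 - x - x' = x'' := Subtype.ext (by push_cast; exact hsum.1)
  have h2 : -(s * (s ^ 2 - x - x' - x) + y) = y'' := Subtype.ext (by push_cast; exact hsum.2)
  constructor
  · rw [← h1]
    simp only [map_sub, map_pow]
  · rw [← h2]
    simp only [map_neg, map_add, map_mul, map_sub, map_pow]

end curve

end Pool.Agent.Helper97.HR
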