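import Mathlib
import Pool.Agent.Helper97.HR.Nag
import Pool.Agent.Helper97.HR.Adj
import Pool.Agent.Helper97.HR.Spz

/-! The Hilbert property of a scheme implies that of its function field. -/

set_option autoImplicit false

open AlgebraicGeometry CategoryTheory Polynomial

namespace Pool.Agent.Helper97.HR

/-- The embedding of `k` into the function field of an integral `k`-scheme. -/
noncomputable def toFF (k : Type) [Field k] (X : Scheme.{0}) [IsIntegral X]
    (f : X ⟶ Spec (CommRingCat.of k)) : k →+* X.functionField :=
  ((X.presheaf.germ ⊤ (genericPoint X) trivial).hom.comp f.appTop.hom).comp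
    (Scheme.ΓSpecIso (CommRingCat.of k)).inv.hom

/-- The Hilbert property of the `k`-scheme `X` (structure morphism `f`): for every finite family of
covers `π i : Y i ⟶ X` (finite surjective, `Y i` integral) of degree `> 1` (the extension of
function fields is not trivial) the `k`-points of `X` which are not images of `k`-points of the
`Y i` are dense in `X`. -/
def HilbertProperty (k : Type) [Field k] (X : Scheme.{0}) (f : X ⟶ Spec (CommRingCat.of k)) :
    Prop :=
  ∀ (q : ℕ) (Y : Fin q → Scheme.{0}) (π : ∀ i, Y i ⟶ X) (_ : ∀ i, IsIntegral (Y i)),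
    (∀ i, IsFinite (π i)) → (∀ i, Surjective (π i)) →
    (∀ i, ¬ Function.Surjective ((π i).stalkMap (genericPoint (Y i))).hom) →
    Dense {x : X | ∃ s : Spec (CommRingCat.of k) ⟶ X, s ≫ f = 𝟙 _ ∧ x ∈ Set.range s.base ∧
      ∀ i (t : Spec (CommRingCat.of k) ⟶ Y i), t ≫ π i ≠ s}

/-- the stalk at the generic point as a ring of fractions -/
theorem stalk_frac (X : Scheme.{0}) [IsIntegral X] (U : X.Opens) (hU : IsAffineOpen U) (x : X)
    (hx : x = genericPoint X) (hxU : x ∈ U) :
    (∀ a : Γ(X, U), a ≠ 0 → IsUnit (X.presheaf.germ U x hxU a)) ∧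
      ∀ r : X.presheaf.stalk x, ∃ a d : Γ(X, U), d ≠ 0 ∧
        r * X.presheaf.germ U x hxU d = X.presheaf.germ U x hxU a := by
  subst hx
  have : Nonempty U := ⟨⟨_, hxU⟩⟩
  have := functionField_isFractionRing_of_isAffineOpen X U hU
  constructor
  · intro a ha
    have h1 : algebraMap Γ(X, U) X.functionField a ≠ 0 := by
      rwa [Ne, map_eq_zero_iff _ (IsFractionRing.injective Γ(X, U) X.functionField)]
    exact isUnit_iff_ne_zero.2 h1
  · intro r
    obtain ⟨a, d, hd, h1⟩ := IsFractionRing.div_surjective (A := Γ(X, U)) (K := X.functionField) r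
    refine ⟨a, d, nonZeroDivisors.ne_zero hd, ?_⟩
    have h2 : algebraMap Γ(X, U) X.functionField d ≠ 0 := by
      rw [Ne, map_eq_zero_iff _ (IsFractionRing.injective Γ(X, U) X.functionField)]
      exact nonZeroDivisors.ne_zero hd
    rw [← h1]
    exact div_mul_cancel₀ _ h2

/-- a dominant morphism maps the generic point to the generic point -/
theorem generic_map {X Y : Scheme.{0}} [IsIntegral X] [IsIntegral Y] (π : Y ⟶ X) [IsDominant π] :
    π (genericPoint Y) = genericPoint X := by
  apply ((genericPoint_spec X).eq _).symm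
  have h1 := (genericPoint_spec Y).image π.continuous
  rw [Set.image_univ, π.denseRange.closure_range] at h1
  exact h1

section cover

variable {k : Type} [Field k] [CharZero k] {X : Scheme.{0}} [IsIntegral X]
  (f : X ⟶ Spec (CommRingCat.of k)) [LocallyOfFiniteType f] (U : X.Opens) (hU : IsAffineOpen U)
  [hne : Nonempty U] (G : Γ(X, U)[X])

/-- The morphism from the affine cover to `X`. -/
noncomputable def hh : Spec (CommRingCat.of (AdjoinRoot G)) ⟶ X :=
  Spec.map (CommRingCat.ofHom (AdjoinRoot.of G)) ≫ hU.fromSpec

theorem hh_dom (hG : G.Monic)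
    (hirr : Irreducible (G.map (algebraMap Γ(X, U) X.functionField))) :
    IsDominant (hh U hU G) := by
  have hfr := functionField_isFractionRing_of_isAffineOpen X U hU
  have hA : IsDomain Γ(X, U) := IsIntegral.component_integral _
  have hψ : Function.Injective (algebraMap Γ(X, U) X.functionField) :=
    IsFractionRing.injective Γ(X, U) X.functionField
  have hinj : Function.Injective (AdjoinRoot.of G) := by
    obtain ⟨ρ, _, h2, _⟩ := adj_inj (algebraMap Γ(X, U) X.functionField) hψ hG hirr
    have : Fact (Irreducible (G.map (algebraMap Γ(X, U) X.functionField))) := ⟨hirr⟩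
    intro a b hab
    have h3 := congrArg ρ hab
    rw [h2, h2] at h3
    exact hψ ((AdjoinRoot.of (G.map (algebraMap Γ(X, U) X.functionField))).injective h3)
  have h1 : IsDominant (Spec.map (CommRingCat.ofHom (AdjoinRoot.of G))) := by
    constructor
    have h3 : DenseRange (PrimeSpectrum.comap (AdjoinRoot.of G)) := by
      rw [PrimeSpectrum.denseRange_comap_iff_ker_le_nilRadical,
        (RingHom.injective_iff_ker_eq_bot _).1 hinj]
      exact bot_le
    exact h3
  have h2 : IsDominant hU.fromSpec := by
    constructor
    rw [DenseRange, hU.range_fromSpec]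
    exact U.2.dense (by obtain ⟨x⟩ := hne; exact ⟨x.1, x.2⟩)
  unfold hh
  infer_instance

end cover

end Pool.Agent.Helper97.HR
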