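import Mathlib
import Pool.Agent.Helper97.HR.Sch

/-! Finiteness of the normalisation of a scheme in a finite extension. -/

set_option autoImplicit false

open AlgebraicGeometry CategoryTheory Polynomial

namespace Pool.Agent.Helper97.HR

section gm

variable {X Z : Scheme.{0}} [IsIntegral X] [IsIntegral Z] (h : Z ⟶ X) [IsDominant h]

theorem gen_mem (V : X.Opens) [hV : Nonempty V] : h (genericPoint Z) ∈ V := by
  rw [generic_map h]
  exact ((genericPoint_spec X).mem_open_set_iff V.isOpen).mpr (by simpa using hV)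

/-- pullback of sections to the function field upstairs -/
noncomputable def gm (V : X.Opens) [Nonempty V] : Γ(X, V) →+* Z.functionField :=
  (Z.presheaf.germ (h ⁻¹ᵁ V) (genericPoint Z) (gen_mem h V)).hom.comp (h.app V).hom

theorem gm_eq (V : X.Opens) [Nonempty V] (a : Γ(X, V)) :
    gm h V a = (h.stalkMap (genericPoint Z)).hom
      (X.presheaf.germ V (h (genericPoint Z)) (gen_mem h V) a) :=
  (Scheme.Hom.germ_stalkMap_apply h V (genericPoint Z) (gen_mem h V) a).symm

theorem gm_inj (V : X.Opens) (hV : IsAffineOpen V) [Nonempty V] : Function.Injective (gm h V) := by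
  rw [injective_iff_map_eq_zero]
  intro a ha
  by_contra hne
  have h1 := ((stalk_frac X V hV _ (generic_map h) (gen_mem h V)).1 a hne).map
    (h.stalkMap (genericPoint Z)).hom
  rw [← gm_eq, ha] at h1
  exact not_isUnit_zero h1

theorem gm_frac (U V : X.Opens) (hV : IsAffineOpen V) [Nonempty U] [Nonempty V] (a : Γ(X, U)) :
    ∃ r d : Γ(X, V), gm h V d ≠ 0 ∧ gm h U a * gm h V d = gm h V r := by
  obtain ⟨h1, h2⟩ := stalk_frac X V hV _ (generic_map h) (gen_mem h V)
  obtain ⟨r, d, hd, h3⟩ := h2 (X.presheaf.germ U (h (genericPoint Z)) (gen_mem h U) a)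
  refine ⟨r, d, ?_, ?_⟩
  · rwa [Ne, map_eq_zero_iff _ (gm_inj h V hV)]
  · rw [gm_eq, gm_eq, gm_eq, ← map_mul, h3]

end gm

section fin

variable {k : Type} [Field k] [CharZero k] {X : Scheme.{0}} [IsIntegral X]
  (f : X ⟶ Spec (CommRingCat.of k)) [LocallyOfFiniteType f]

include f

theorem fin_section {Z : Scheme.{0}} [IsIntegral Z] (h : Z ⟶ X) [IsDominant h]
    (U V : X.Opens) (hV : IsAffineOpen V) [Nonempty U] [Nonempty V]
    (G : Γ(X, U)[X]) (hG : G.Monic) (θ : Z.functionField) (hθ : G.eval₂ (gm h U) θ = 0)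
    (hgen : Subfield.closure (Set.range (gm h U) ∪ {θ}) = ⊤) :
    letI := (h.app V).hom.toAlgebra
    Module.Finite Γ(X, V) (integralClosure Γ(X, V) Γ(Z, h ⁻¹ᵁ V)) := by
  let A1 : Algebra Γ(X, V) Γ(Z, h ⁻¹ᵁ V) := (h.app V).hom.toAlgebra
  let A2 : Algebra Γ(X, V) Z.functionField := (gm h V).toAlgebra
  have htop : V ≤ f ⁻¹ᵁ ⊤ := le_top
  let ι0 : k →+* Γ(X, V) := (f.appLE ⊤ V htop).hom.comp
    (Scheme.ΓSpecIso (CommRingCat.of k)).inv.hom
  let A3 : Algebra k Γ(X, V) := ι0.toAlgebra
  have hft : ι0.FiniteType := by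
    have h1 : (f.appLE ⊤ V htop).hom.FiniteType :=
      f.finiteType_appLE (isAffineOpen_top _) hV htop
    refine h1.comp (RingHom.FiniteType.of_surjective _ ?_)
    exact (ConcreteCategory.bijective_of_isIso (Scheme.ΓSpecIso (CommRingCat.of k)).inv).2
  have hft' : Algebra.FiniteType k Γ(X, V) := hft
  have hdom : IsDomain Γ(X, V) := IsIntegral.component_integral _
  have hclo : Subfield.closure (Set.range (algebraMap Γ(X, V) Z.functionField) ∪ {θ}) = ⊤ := by
    rw [eq_top_iff, ← hgen, Subfield.closure_le]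
    rintro x (⟨a, rfl⟩ | hx)
    · obtain ⟨r, d, hd, h1⟩ := gm_frac h U V hV a
      have h2 : gm h U a = gm h V r / gm h V d := by
        rw [← h1, mul_div_cancel_right₀ _ hd]
      rw [h2]
      exact div_mem (Subfield.subset_closure (Or.inl ⟨r, rfl⟩))
        (Subfield.subset_closure (Or.inl ⟨d, rfl⟩))
    · exact Subfield.subset_closure (Or.inr hx)
  have halg : IsAlgebraic Γ(X, V) θ := by
    let 𝒜 := Subalgebra.algebraicClosure Γ(X, V) Z.functionField
    have h1 : ∀ a : Γ(X, U), gm h U a ∈ 𝒜 := by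
      intro a
      obtain ⟨r, d, hd, h1⟩ := gm_frac h U V hV a
      change IsAlgebraic Γ(X, V) (gm h U a)
      refine ⟨C d * Polynomial.X - C r, ?_, ?_⟩
      · intro h0
        have h2 : (C d * Polynomial.X - C r : Γ(X, V)[X]).coeff 1 = 0 := by rw [h0, coeff_zero]
        rw [coeff_sub, coeff_C_mul, coeff_X_one, coeff_C_ne_zero one_ne_zero, mul_one,
          sub_zero] at h2
        rw [h2, map_zero] at hd
        exact hd rfl
      · rw [map_sub, map_mul, aeval_C, aeval_C, aeval_X]
        change gm h V d * gm h U a - gm h V r = 0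
        rw [← h1]
        ring
    let g1 : Γ(X, U) →+* 𝒜 := (gm h U).codRestrict 𝒜 h1
    have h2 : IsIntegral 𝒜 θ := by
      refine ⟨G.map g1, hG.map g1, ?_⟩
      rw [eval₂_map]
      exact hθ
    have h3 : IsAlgebraic 𝒜 θ := h2.isAlgebraic
    exact h3.restrictScalars Γ(X, V)
  have hN := nagata k Γ(X, V) Z.functionField (gm_inj h V hV) {θ} (Set.finite_singleton _)
    (by rintro x rfl; exact halg) hclo
  let g2 : Γ(Z, h ⁻¹ᵁ V) →ₐ[Γ(X, V)] Z.functionField :=
    { (Z.presheaf.germ (h ⁻¹ᵁ V) (genericPoint Z) (gen_mem h V)).hom with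
      commutes' := fun a => rfl }
  have hg2 : Function.Injective g2 := germ_injective_of_isIntegral _ _ _
  let g3 : integralClosure Γ(X, V) Γ(Z, h ⁻¹ᵁ V) →ₐ[Γ(X, V)]
      integralClosure Γ(X, V) Z.functionField :=
    (g2.comp (integralClosure Γ(X, V) Γ(Z, h ⁻¹ᵁ V)).val).codRestrict
      (integralClosure Γ(X, V) Z.functionField) (fun x => x.2.map g2)
  have hg3 : Function.Injective g3 := by
    intro x y hxy
    have h1 := congrArg Subtype.val hxy
    exact Subtype.ext (hg2 h1)
  have hN2 : IsNoetherian Γ(X, V) (integralClosure Γ(X, V) Γ(Z, h ⁻¹ᵁ V)) :=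
    isNoetherian_of_injective g3.toLinearMap hg3
  infer_instance

theorem fin_normalization {Z : Scheme.{0}} [IsIntegral Z] (h : Z ⟶ X) [IsDominant h]
    [QuasiCompact h] [QuasiSeparated h]
    (U : X.Opens) [Nonempty U]
    (G : Γ(X, U)[X]) (hG : G.Monic) (θ : Z.functionField) (hθ : G.eval₂ (gm h U) θ = 0)
    (hgen : Subfield.closure (Set.range (gm h U) ∪ {θ}) = ⊤) :
    IsFinite h.fromNormalization := by
  refine { finite_app := fun V hV => ?_ }
  rw [h.fromNormalization_app hV, CommRingCat.hom_comp]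
  let A1 : Algebra Γ(X, V) Γ(Z, h ⁻¹ᵁ V) := (h.app V).hom.toAlgebra
  refine RingHom.Finite.comp ?_ ?_
  · exact RingHom.Finite.of_surjective _
      (ConcreteCategory.bijective_of_isIso (h.normalizationObjIso hV).inv).2
  · change Module.Finite Γ(X, V) (integralClosure Γ(X, V) Γ(Z, h ⁻¹ᵁ V))
    rcases isEmpty_or_nonempty V with hV0 | hV0
    · have h1 : Subsingleton Γ(X, V) := by
        have h2 : V = ⊥ := by
          ext x
          simp only [TopologicalSpace.Opens.coe_bot, Set.mem_empty_iff_false, iff_false]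
          exact fun hx => hV0.false ⟨x, hx⟩
        rw [h2]
        infer_instance
      have h2 : Subsingleton (integralClosure Γ(X, V) Γ(Z, h ⁻¹ᵁ V)) :=
        Module.subsingleton Γ(X, V) _
      infer_instance
    · exact fin_section f h U V hV G hG θ hθ hgen

end fin

end Pool.Agent.Helper97.HR
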