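import Mathlib
import Pool.Agent.Helper97.HR.Sch2

/-! The finite cover of a scheme given by a monic irreducible polynomial. -/

set_option autoImplicit false

open AlgebraicGeometry CategoryTheory Polynomial

namespace Pool.Agent.Helper97.HR

section cover

variable {k : Type} [Field k] [CharZero k] {X : Scheme.{0}} [IsIntegral X]
  (f : X ⟶ Spec (CommRingCat.of k)) [LocallyOfFiniteType f] (U : X.Opens) (hU : IsAffineOpen U)
  [hne : Nonempty U] (G : Γ(X, U)[X])

theorem hh_le : ⊤ ≤ (hh U hU G) ⁻¹ᵁ U := by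
  intro p _
  have h1 : Set.range hU.fromSpec = (U : Set X) := hU.range_fromSpec
  have h2 : hU.fromSpec (Spec.map (CommRingCat.ofHom (AdjoinRoot.of G)) p) ∈ (U : Set X) := by
    rw [← h1]
    exact ⟨_, rfl⟩
  change (hh U hU G) p ∈ U
  rw [hh, Scheme.Hom.comp_apply]
  exact h2

theorem hh_appLE : (hh U hU G).appLE U ⊤ (hh_le U hU G) =
    CommRingCat.ofHom (AdjoinRoot.of G) ≫ (Scheme.ΓSpecIso (CommRingCat.of (AdjoinRoot G))).inv := by
  have key1 := IsAffineOpen.SpecMap_appLE_fromSpec (hh U hU G) hU (isAffineOpen_top _)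
    (hh_le U hU G)
  rw [IsAffineOpen.fromSpec_top, Scheme.isoSpec_Spec_inv] at key1
  have key2 : Spec.map ((hh U hU G).appLE U ⊤ (hh_le U hU G)) ≫ hU.fromSpec =
      Spec.map (CommRingCat.ofHom (AdjoinRoot.of G) ≫
        (Scheme.ΓSpecIso (CommRingCat.of (AdjoinRoot G))).inv) ≫ hU.fromSpec := by
    rw [key1, Spec.map_comp, Category.assoc]
    rfl
  exact Spec.map_injective ((cancel_mono _).1 key2)

/-- lifting of rational points -/
theorem lift_point (s : Spec (CommRingCat.of k) ⟶ X) (φ : Γ(X, U) →+* k)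
    (hs : Spec.map (CommRingCat.ofHom φ) ≫ hU.fromSpec = s)
    [QuasiCompact (hh U hU G)] [QuasiSeparated (hh U hU G)]
    (z : k) (hz : (G.map φ).eval z = 0) :
    ∃ t : Spec (CommRingCat.of k) ⟶ (hh U hU G).normalization,
      t ≫ (hh U hU G).fromNormalization = s := by
  have h1 : G.eval₂ φ z = 0 := by rwa [Polynomial.eval_map] at hz
  let ψ : AdjoinRoot G →+* k := AdjoinRoot.lift φ z h1
  have h2 : ψ.comp (AdjoinRoot.of G) = φ := AdjoinRoot.lift_comp_of h1
  refine ⟨Spec.map (CommRingCat.ofHom ψ) ≫ (hh U hU G).toNormalization, ?_⟩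
  rw [Category.assoc, Scheme.Hom.toNormalization_fromNormalization, ← hs, hh, ← Category.assoc,
    ← Spec.map_comp, ← CommRingCat.ofHom_comp, h2]

variable (hG : G.Monic) (hirr : Irreducible (G.map (algebraMap Γ(X, U) X.functionField)))

/-- the sections upstairs in the function field -/
noncomputable def cc [IsIntegral (Spec (CommRingCat.of (AdjoinRoot G)))] :
    AdjoinRoot G →+* (Spec (CommRingCat.of (AdjoinRoot G))).functionField :=
  ((Spec (CommRingCat.of (AdjoinRoot G))).presheaf.germ ⊤
    (genericPoint (Spec (CommRingCat.of (AdjoinRoot G)))) trivial).hom.comp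
    (Scheme.ΓSpecIso (CommRingCat.of (AdjoinRoot G))).inv.hom

theorem gm_cc [IsIntegral (Spec (CommRingCat.of (AdjoinRoot G)))] [IsDominant (hh U hU G)]
    (a : Γ(X, U)) : gm (hh U hU G) U a = cc U G (AdjoinRoot.of G a) := by
  have h1 := congrArg CommRingCat.Hom.hom (hh_appLE U hU G)
  have h2 : ((hh U hU G).appLE U ⊤ (hh_le U hU G)).hom a =
      (Scheme.ΓSpecIso (CommRingCat.of (AdjoinRoot G))).inv.hom (AdjoinRoot.of G a) := by
    rw [h1]
    rfl
  unfold cc gm
  rw [RingHom.comp_apply, RingHom.comp_apply, ← h2]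
  exact ((Spec (CommRingCat.of (AdjoinRoot G))).presheaf.germ_res_apply
    (homOfLE (hh_le U hU G)) (genericPoint (Spec (CommRingCat.of (AdjoinRoot G)))) trivial
    ((hh U hU G).app U a)).symm

theorem cc_gen [IsIntegral (Spec (CommRingCat.of (AdjoinRoot G)))] [IsDominant (hh U hU G)] :
    Subfield.closure (Set.range (gm (hh U hU G) U) ∪ {cc U G (AdjoinRoot.root G)}) = ⊤ := by
  rw [eq_top_iff]
  intro x _
  obtain ⟨_, h2⟩ := stalk_frac (Spec (CommRingCat.of (AdjoinRoot G))) ⊤ (isAffineOpen_top _)
    (genericPoint (Spec (CommRingCat.of (AdjoinRoot G)))) rfl trivial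
  obtain ⟨h1, _⟩ := stalk_frac (Spec (CommRingCat.of (AdjoinRoot G))) ⊤ (isAffineOpen_top _)
    (genericPoint (Spec (CommRingCat.of (AdjoinRoot G)))) rfl trivial
  obtain ⟨a, d, hd, h3⟩ := h2 x
  have hbij := ConcreteCategory.bijective_of_isIso
    (Scheme.ΓSpecIso (CommRingCat.of (AdjoinRoot G))).inv
  obtain ⟨a', rfl⟩ := hbij.2 a
  obtain ⟨d', rfl⟩ := hbij.2 d
  have hd2 := (h1 _ hd).ne_zero
  have hmem : ∀ y : AdjoinRoot G, cc U G y ∈
      Subfield.closure (Set.range (gm (hh U hU G) U) ∪ {cc U G (AdjoinRoot.root G)}) := by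
    intro y
    obtain ⟨p, rfl⟩ := AdjoinRoot.mk_surjective y
    induction p using Polynomial.induction_on' with
    | add p q hp hq =>
      rw [map_add, map_add]
      exact add_mem hp hq
    | monomial n a =>
      rw [← C_mul_X_pow_eq_monomial, map_mul, map_pow, AdjoinRoot.mk_C, AdjoinRoot.mk_X, map_mul,
        map_pow]
      refine mul_mem (Subfield.subset_closure (Or.inl ⟨a, gm_cc U hU G a⟩)) (pow_mem ?_ n)
      exact Subfield.subset_closure (Or.inr rfl)
  have hd3 : cc U G d' ≠ 0 := hd2
  have h3' : x * cc U G d' = cc U G a' := h3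
  have h4 : x = cc U G a' / cc U G d' := (eq_div_iff hd3).2 h3'
  rw [h4]
  exact div_mem (hmem a') (hmem d')

include f hG hirr in
theorem cover (hdeg : 2 ≤ G.natDegree) : ∃ (Y : Scheme.{0}) (π : Y ⟶ X) (_ : IsIntegral Y),
    IsFinite π ∧ Surjective π ∧
    ¬ Function.Surjective (π.stalkMap (genericPoint Y)).hom ∧
    ∀ (s : Spec (CommRingCat.of k) ⟶ X) (φ : Γ(X, U) →+* k),
      Spec.map (CommRingCat.ofHom φ) ≫ hU.fromSpec = s →
      (∃ z : k, (G.map φ).eval z = 0) → ∃ t : Spec (CommRingCat.of k) ⟶ Y, t ≫ π = s := by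
  have hfr := functionField_isFractionRing_of_isAffineOpen X U hU
  have hA : IsDomain Γ(X, U) := IsIntegral.component_integral _
  have hψ : Function.Injective (algebraMap Γ(X, U) X.functionField) :=
    IsFractionRing.injective Γ(X, U) X.functionField
  have hdom : IsDomain (AdjoinRoot G) :=
    adj_domain (algebraMap Γ(X, U) X.functionField) hψ hG hirr
  have hdom' : IsDomain (CommRingCat.of (AdjoinRoot G)) := hdom
  have hZ : IsIntegral (Spec (CommRingCat.of (AdjoinRoot G))) := inferInstance
  have hD : IsDominant (hh U hU G) := hh_dom U hU G hG hirr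
  -- Noetherian
  have hNA : IsNoetherianRing Γ(X, U) := by
    have h1 : IsLocallyNoetherian X := LocallyOfFiniteType.isLocallyNoetherian f
    exact IsLocallyNoetherian.component_noetherian ⟨U, hU⟩
  have hNG : IsNoetherianRing (CommRingCat.of (AdjoinRoot G)) := by
    have h1 : IsNoetherianRing (AdjoinRoot G) := inferInstance
    exact h1
  have hQC : QuasiCompact (hh U hU G) := inferInstance
  have hQS : QuasiSeparated (hh U hU G) := inferInstance
  have hθ : G.eval₂ (gm (hh U hU G) U) (cc U G (AdjoinRoot.root G)) = 0 := by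
    have h1 : gm (hh U hU G) U = (cc U G).comp (AdjoinRoot.of G) := by
      ext a
      exact gm_cc U hU G a
    rw [h1, ← Polynomial.hom_eval₂, AdjoinRoot.eval₂_root, map_zero]
  have hF : IsFinite (hh U hU G).fromNormalization :=
    fin_normalization f (hh U hU G) U G hG (cc U G (AdjoinRoot.root G)) hθ (cc_gen U hU G)
  have hD2 : IsDominant (hh U hU G).fromNormalization := by
    have h1 : IsDominant ((hh U hU G).toNormalization ≫ (hh U hU G).fromNormalization) := by
      rw [Scheme.Hom.toNormalization_fromNormalization]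
      exact hD
    exact IsDominant.of_comp (hh U hU G).toNormalization (hh U hU G).fromNormalization
  have hS : Surjective (hh U hU G).fromNormalization :=
    surjective_of_isDominant_of_isClosed_range _ (Scheme.Hom.isClosedMap _).isClosed_range
  refine ⟨(hh U hU G).normalization, (hh U hU G).fromNormalization, inferInstance, hF, hS, ?_, ?_⟩
  · intro hsurj
    let h := hh U hU G
    let _ : Algebra Γ(X, U) Γ(Spec (CommRingCat.of (AdjoinRoot G)), h ⁻¹ᵁ U) :=
      (h.app U).hom.toAlgebra
    have hU' : h.toNormalization ⁻¹ᵁ (h.fromNormalization ⁻¹ᵁ U) = h ⁻¹ᵁ U := by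
      rw [← Scheme.Hom.comp_preimage, Scheme.Hom.toNormalization_fromNormalization]
    -- the root as a section
    let θ : Γ(Spec (CommRingCat.of (AdjoinRoot G)), h ⁻¹ᵁ U) :=
      ((Spec (CommRingCat.of (AdjoinRoot G))).presheaf.map (homOfLE le_top).op).hom
        ((Scheme.ΓSpecIso (CommRingCat.of (AdjoinRoot G))).inv.hom (AdjoinRoot.root G))
    have hgθ : (Spec (CommRingCat.of (AdjoinRoot G))).presheaf.germ (h ⁻¹ᵁ U)
        (genericPoint (Spec (CommRingCat.of (AdjoinRoot G)))) (gen_mem h U) θ =
        cc U G (AdjoinRoot.root G) :=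
      (Spec (CommRingCat.of (AdjoinRoot G))).presheaf.germ_res_apply (homOfLE le_top) _ _ _
    have hginj : Function.Injective ((Spec (CommRingCat.of (AdjoinRoot G))).presheaf.germ (h ⁻¹ᵁ U)
        (genericPoint (Spec (CommRingCat.of (AdjoinRoot G)))) (gen_mem h U)) :=
      germ_injective_of_isIntegral _ _ _
    have hθint : _root_.IsIntegral Γ(X, U) θ := by
      refine ⟨G, hG, hginj ?_⟩
      rw [map_zero]
      have h1 := Polynomial.hom_eval₂ G (h.app U).hom
        ((Spec (CommRingCat.of (AdjoinRoot G))).presheaf.germ (h ⁻¹ᵁ U)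
        (genericPoint (Spec (CommRingCat.of (AdjoinRoot G)))) (gen_mem h U)).hom θ
      refine h1.trans ?_
      rw [← hθ, ← hgθ]
      rfl
    obtain ⟨θ', hθ'⟩ := (ConcreteCategory.bijective_of_isIso
      (h.normalizationObjIso hU).hom).2 ⟨θ, hθint⟩
    have e1 : h ⁻¹ᵁ U ≤ h.toNormalization ⁻¹ᵁ (h.fromNormalization ⁻¹ᵁ U) := hU'.ge
    have h2 : (h.toNormalization.appLE (h.fromNormalization ⁻¹ᵁ U) (h ⁻¹ᵁ U) e1).hom θ' = θ := by
      rw [← Scheme.Hom.normalizationObjIso_hom_val h hU]
      have h3 := congrArg Subtype.val hθ'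
      exact h3
    obtain ⟨r, hr⟩ := hsurj (h.normalization.presheaf.germ (h.fromNormalization ⁻¹ᵁ U)
      (genericPoint h.normalization) (gen_mem h.fromNormalization U) θ')
    obtain ⟨_, hX2⟩ := stalk_frac X U hU _ (generic_map h.fromNormalization)
      (gen_mem h.fromNormalization U)
    obtain ⟨a, d, hd, h4⟩ := hX2 r
    have h5 : θ' * (h.fromNormalization.app U).hom d = (h.fromNormalization.app U).hom a := by
      have hinj5 : Function.Injective (h.normalization.presheaf.germ (h.fromNormalization ⁻¹ᵁ U)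
          (genericPoint h.normalization) (gen_mem h.fromNormalization U)) :=
        germ_injective_of_isIntegral _ _ _
      apply hinj5
      rw [map_mul, ← hr]
      have h6 := congrArg (h.fromNormalization.stalkMap (genericPoint h.normalization)).hom h4
      rw [map_mul] at h6
      have h7 : ∀ b : Γ(X, U), (h.fromNormalization.stalkMap (genericPoint h.normalization)).hom
          (X.presheaf.germ U _ (gen_mem h.fromNormalization U) b) =
          h.normalization.presheaf.germ (h.fromNormalization ⁻¹ᵁ U)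
          (genericPoint h.normalization) (gen_mem h.fromNormalization U)
          ((h.fromNormalization.app U).hom b) := fun b =>
        Scheme.Hom.germ_stalkMap_apply h.fromNormalization U _ _ b
      rw [h7, h7] at h6
      exact h6
    have h8 := congrArg (h.toNormalization.appLE (h.fromNormalization ⁻¹ᵁ U) (h ⁻¹ᵁ U) e1).hom h5
    have h9 : ∀ b : Γ(X, U), (h.toNormalization.appLE (h.fromNormalization ⁻¹ᵁ U) (h ⁻¹ᵁ U) e1).hom
        ((h.fromNormalization.app U).hom b) = (h.app U).hom b := by
      intro b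
      have h10 : h.fromNormalization.app U ≫
          h.toNormalization.appLE (h.fromNormalization ⁻¹ᵁ U) (h ⁻¹ᵁ U) e1 = h.app U := by
        rw [Scheme.Hom.app_eq_appLE, Scheme.Hom.appLE_comp_appLE, Scheme.Hom.app_eq_appLE]
        simp only [Scheme.Hom.toNormalization_fromNormalization]
      rw [← h10]
      rfl
    rw [map_mul, h2, h9, h9] at h8
    have h11 := congrArg ((Spec (CommRingCat.of (AdjoinRoot G))).presheaf.germ (h ⁻¹ᵁ U)
        (genericPoint (Spec (CommRingCat.of (AdjoinRoot G)))) (gen_mem h U)).hom h8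
    rw [map_mul] at h11
    have h12 : cc U G (AdjoinRoot.root G) * gm h U d = gm h U a := by
      rw [← hgθ]
      exact h11
    rw [gm_cc, gm_cc, ← map_mul] at h12
    have hccinj : Function.Injective (cc U G) := by
      have h13 : Function.Injective ((Spec (CommRingCat.of (AdjoinRoot G))).presheaf.germ ⊤
          (genericPoint (Spec (CommRingCat.of (AdjoinRoot G)))) trivial) :=
        germ_injective_of_isIntegral _ _ _
      exact h13.comp (ConcreteCategory.bijective_of_isIso
        (Scheme.ΓSpecIso (CommRingCat.of (AdjoinRoot G))).inv).1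
    exact adj_not_frac (algebraMap Γ(X, U) X.functionField) hψ hG hirr hdeg a d hd (hccinj h12)
  · rintro s φ hs ⟨z, hz⟩
    exact lift_point U hU G s φ hs z hz

end cover

end Pool.Agent.Helper97.HR
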