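import Mathlib
import Pool.Agent.Helper97.HR.Sch3

/-! From the Hilbert property of a scheme to specialisations of its function field. -/

set_option autoImplicit false

open AlgebraicGeometry CategoryTheory Polynomial

namespace Pool.Agent.Helper97.HR

section core

variable {k : Type} [Field k] {X : Scheme.{0}} [IsIntegral X]
  (f : X ⟶ Spec (CommRingCat.of k)) (U : X.Opens)

/-- the structure map -/
noncomputable def str : k →+* Γ(X, U) := (f.appLE ⊤ U le_top).hom.comp
    (Scheme.ΓSpecIso (CommRingCat.of k)).inv.hom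

theorem toFF_str [hU : Nonempty U] (a : k) :
    toFF k X f a = algebraMap Γ(X, U) X.functionField (str f U a) := by
  have hg := (genericPoint_spec X).mem_open_set_iff U.isOpen
  exact (X.presheaf.germ_res_apply (homOfLE (le_top : U ≤ ⊤)) (genericPoint X)
    (hg.mpr (by simpa using hU))
    (f.appTop.hom ((Scheme.ΓSpecIso (CommRingCat.of k)).inv.hom a))).symm

/-- the evaluation map at a rational point of an affine open set -/
theorem point_hom (hU : IsAffineOpen U) (s : Spec (CommRingCat.of k) ⟶ X) (hs : s ≫ f = 𝟙 _)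
    (x : X) (hx : x ∈ Set.range s.base) (hxU : x ∈ U) :
    ∃ φ : Γ(X, U) →+* k, (∀ a, φ (str f U a) = a) ∧
      Spec.map (CommRingCat.ofHom φ) ≫ hU.fromSpec = s := by
  obtain ⟨p, rfl⟩ := hx
  have hle : ⊤ ≤ s ⁻¹ᵁ U := by
    intro p' _
    have : Subsingleton (Spec (CommRingCat.of k)) :=
      inferInstanceAs (Subsingleton (PrimeSpectrum k))
    have h1 : p' = p := Subsingleton.elim _ _
    rw [h1]
    exact hxU
  have key1 := IsAffineOpen.SpecMap_appLE_fromSpec s hU (isAffineOpen_top _) hle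
  rw [IsAffineOpen.fromSpec_top, Scheme.isoSpec_Spec_inv] at key1
  let φ' : Γ(X, U) ⟶ CommRingCat.of k :=
    s.appLE U ⊤ hle ≫ (Scheme.ΓSpecIso (CommRingCat.of k)).hom
  have key3 : Spec.map φ' ≫ hU.fromSpec = s := by
    rw [Spec.map_comp, Category.assoc, key1, ← Category.assoc, ← Spec.map_comp,
      Iso.inv_hom_id, Spec.map_id, Category.id_comp]
  refine ⟨φ'.hom, fun a => ?_, key3⟩
  have h1 : Spec.map (((Scheme.ΓSpecIso (CommRingCat.of k)).inv ≫ f.appLE ⊤ U le_top) ≫ φ') =
      Spec.map (𝟙 _) := by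
    rw [Spec.map_id, ← hs]
    conv_rhs => rw [← key3]
    have htop : U ≤ f ⁻¹ᵁ ⊤ := le_top
    conv_rhs => rw [Category.assoc, ← IsAffineOpen.SpecMap_appLE_fromSpec f (isAffineOpen_top _) hU
      htop, IsAffineOpen.fromSpec_top, Scheme.isoSpec_Spec_inv, ← Spec.map_comp, ← Spec.map_comp]
  have h2 := Spec.map_injective h1
  have h3 := congrArg (fun g => g.hom a) h2
  exact h3

end core

section hp

variable {k : Type} [Field k] [CharZero k] {X : Scheme.{0}} [IsIntegral X]
  (f : X ⟶ Spec (CommRingCat.of k)) [LocallyOfFiniteType f] (hHP : HilbertProperty k X f)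

include hHP

theorem hp_affine (U : X.Opens) (hU : IsAffineOpen U) [hne : Nonempty U] (q : ℕ)
    (G : Fin q → Γ(X, U)[X]) (hG : ∀ j, (G j).Monic)
    (hirr : ∀ j, Irreducible ((G j).map (algebraMap Γ(X, U) X.functionField)))
    (hdeg : ∀ j, 2 ≤ (G j).natDegree) :
    ∃ φ : Γ(X, U) →+* k, (∀ a, φ (str f U a) = a) ∧
      ∀ (j : Fin q) (z : k), ((G j).map φ).eval z ≠ 0 := by
  choose Y π hY hfin hsurj hns hlift using
    fun j => cover f U hU (G j) (hG j) (hirr j) (hdeg j)
  have hd := hHP q Y π hY hfin hsurj hns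
  obtain ⟨x, ⟨s, hs, hx, hnot⟩, hxU⟩ := hd.exists_mem_open U.isOpen
    (by obtain ⟨x⟩ := hne; exact ⟨x.1, x.2⟩)
  obtain ⟨φ, h1, h2⟩ := point_hom f U hU s hs x hx hxU
  refine ⟨φ, h1, fun j z hz => ?_⟩
  obtain ⟨t, ht⟩ := hlift j s φ h2 ⟨z, hz⟩
  exact hnot j t ht

end hp

section open_set

/-- finitely many rational functions are regular on a common affine open set -/
theorem exists_affine {X : Scheme.{0}} [IsIntegral X] (S : Finset X.functionField) :
    ∃ (U : X.Opens) (_ : IsAffineOpen U) (_ : Nonempty U),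
      ∀ x ∈ S, x ∈ Set.range (algebraMap Γ(X, U) X.functionField) := by
  classical
  have h1 : ∀ x : X.functionField, ∃ V : X.Opens, ∃ hV : genericPoint X ∈ V, ∃ g : Γ(X, V),
      X.presheaf.germ V (genericPoint X) hV g = x := by
    intro x
    obtain ⟨V, hV, g, hg⟩ := X.presheaf.exists_germ_eq x
    exact ⟨V, hV, g, hg⟩
  choose V hV g hg using h1
  have h2 : ∃ W : X.Opens, genericPoint X ∈ W ∧ ∀ x ∈ S, W ≤ V x := by
    refine ⟨S.inf V, ?_, fun x hx => Finset.inf_le hx⟩
    induction S using Finset.induction_on with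
    | empty => trivial
    | insert a S _ ih =>
      rw [Finset.inf_insert]
      exact ⟨hV a, ih⟩
  obtain ⟨W, hW, hle⟩ := h2
  obtain ⟨U, hU, hxU, hUW⟩ := exists_isAffineOpen_mem_and_subset (X := X) (x := genericPoint X)
    (U := W) hW
  refine ⟨U, hU, ⟨⟨_, hxU⟩⟩, fun x hx => ?_⟩
  have hUV : U ≤ V x := fun y hy => hle x hx (hUW hy)
  refine ⟨(X.presheaf.map (homOfLE hUV).op).hom (g x), ?_⟩
  exact (X.presheaf.germ_res_apply (homOfLE hUV) (genericPoint X) hxU (g x)).trans (hg x)

end open_set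

end Pool.Agent.Helper97.HR
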