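import Mathlib
import Pool.Agent.Helper97.HR.Sch4

/-! From the Hilbert property of a scheme to its function field. -/

set_option autoImplicit false

open AlgebraicGeometry CategoryTheory Polynomial

namespace Pool.Agent.Helper97.HR

theorem hpf_core {k K : Type} [Field k] [Field K] [Algebra k K]
    (H : ∀ S : Finset K, ∃ (A : Type) (_ : CommRing A) (_ : Algebra k A) (ψ : A →ₐ[k] K),
      Function.Injective ψ ∧ (∀ x ∈ S, x ∈ Set.range ψ) ∧
      ∀ (q : ℕ) (G : Fin q → A[X]), (∀ j, (G j).Monic) →
        (∀ j, Irreducible ((G j).map (ψ : A →+* K))) → (∀ j, 2 ≤ (G j).natDegree) →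
        ∃ φ : A →ₐ[k] k, ∀ (j : Fin q) (z : k), ((G j).map (φ : A →+* k)).eval z ≠ 0) :
    HPF k K := by
  classical
  intro q P hP S
  have hP0 : ∀ j, P j ≠ 0 := fun j h0 => hP j 0 (by rw [h0, Polynomial.eval_zero])
  let T : Finset K[X] := Finset.univ.biUnion fun j =>
    (UniqueFactorizationMonoid.normalizedFactors (P j)).toFinset
  have hT : ∀ Q ∈ T, Q.Monic ∧ Irreducible Q ∧ 2 ≤ Q.natDegree := by
    intro Q hQ
    obtain ⟨j, -, hj⟩ := Finset.mem_biUnion.1 hQ
    rw [Multiset.mem_toFinset] at hj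
    have h1 : Irreducible Q := UniqueFactorizationMonoid.irreducible_of_normalized_factor Q hj
    have h2 : Q.Monic := by
      have h3 := UniqueFactorizationMonoid.normalize_normalized_factor Q hj
      rw [← h3]
      exact Polynomial.monic_normalize h1.ne_zero
    refine ⟨h2, h1, ?_⟩
    by_contra hlt
    have h4 : 0 < Q.natDegree := h1.natDegree_pos
    have h5 : Q.natDegree = 1 := by omega
    have h6 : Q = X + C (Q.coeff 0) := by
      have := h2.eq_X_add_C h5
      exact this
    obtain ⟨R, hR⟩ := UniqueFactorizationMonoid.dvd_of_mem_normalizedFactors hj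
    apply hP j (-(Q.coeff 0))
    rw [hR, Polynomial.eval_mul, h6]
    simp
  let S' : Finset K := S ∪ (T.biUnion fun Q => Q.coeffs) ∪
    (Finset.univ.image fun j => (P j).leadingCoeff) ∪
    (Finset.univ.image fun j => (P j).leadingCoeff⁻¹)
  obtain ⟨A, _, _, ψ, hψ, hS', hA⟩ := H S'
  have hlift : ∀ Q : K[X], ∃ G : A[X], Q ∈ T → G.map (ψ : A →+* K) = Q ∧
      G.natDegree = Q.natDegree ∧ G.Monic := by
    intro Q
    by_cases hQ : Q ∈ T
    · have h1 : Q ∈ Polynomial.lifts (ψ : A →+* K) := by
        rw [Polynomial.lifts_iff_coeff_lifts]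
        intro n
        by_cases h2 : Q.coeff n = 0
        · rw [h2]
          exact ⟨0, map_zero _⟩
        · apply hS'
          refine Finset.mem_union_left _ (Finset.mem_union_left _ (Finset.mem_union_right _ ?_))
          exact Finset.mem_biUnion.2 ⟨Q, hQ, Polynomial.coeff_mem_coeffs h2⟩
      obtain ⟨G, h3, h4, h5⟩ := Polynomial.lifts_and_natDegree_eq_and_monic h1 (hT Q hQ).1
      exact ⟨G, fun _ => ⟨h3, h4, h5⟩⟩
    · exact ⟨0, fun h => absurd h hQ⟩
  choose G hG using hlift
  have hlc : ∀ j, ∃ a b : A, ψ a = (P j).leadingCoeff ∧ a * b = 1 := by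
    intro j
    obtain ⟨a, ha⟩ := hS' (P j).leadingCoeff (Finset.mem_union_left _ (Finset.mem_union_right _
      (Finset.mem_image.2 ⟨j, Finset.mem_univ _, rfl⟩)))
    obtain ⟨b, hb⟩ := hS' (P j).leadingCoeff⁻¹ (Finset.mem_union_right _
      (Finset.mem_image.2 ⟨j, Finset.mem_univ _, rfl⟩))
    refine ⟨a, b, ha, hψ ?_⟩
    rw [map_mul, ha, hb, map_one, mul_inv_cancel₀]
    rw [Ne, Polynomial.leadingCoeff_eq_zero]
    exact hP0 j
  choose a b ha hab using hlc
  obtain ⟨φ, hφ⟩ := hA T.card (fun i => G ((T.equivFin.symm i : T) : K[X]))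
    (fun i => (hG _ (T.equivFin.symm i).2).2.2)
    (fun i => by
      rw [(hG _ (T.equivFin.symm i).2).1]
      exact (hT _ (T.equivFin.symm i).2).2.1)
    (fun i => by
      rw [(hG _ (T.equivFin.symm i).2).2.1]
      exact (hT _ (T.equivFin.symm i).2).2.2)
  have hφ' : ∀ Q ∈ T, ∀ z : k, ((G Q).map (φ : A →+* k)).eval z ≠ 0 := by
    intro Q hQ z
    have h1 := hφ (T.equivFin ⟨Q, hQ⟩) z
    rw [Equiv.symm_apply_apply] at h1
    exact h1
  let PA : Fin q → A[X] := fun j => C (a j) *
    ((UniqueFactorizationMonoid.normalizedFactors (P j)).map G).prod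
  have hmem : ∀ j, ∀ Q ∈ UniqueFactorizationMonoid.normalizedFactors (P j), Q ∈ T := fun j Q hQ =>
    Finset.mem_biUnion.2 ⟨j, Finset.mem_univ _, Multiset.mem_toFinset.2 hQ⟩
  have hPA : ∀ j, (PA j).map (ψ : A →+* K) = P j := by
    intro j
    rw [Polynomial.map_mul, Polynomial.map_C, Polynomial.map_multiset_prod, Multiset.map_map]
    have h1 : (UniqueFactorizationMonoid.normalizedFactors (P j)).map
        (Polynomial.map (ψ : A →+* K) ∘ G) =
        (UniqueFactorizationMonoid.normalizedFactors (P j)).map id :=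
      Multiset.map_congr rfl fun Q hQ => (hG Q (hmem j Q hQ)).1
    rw [h1, Multiset.map_id]
    have h2 : (ψ : A →+* K) (a j) = (P j).leadingCoeff := ha j
    rw [h2]
    exact Polynomial.leadingCoeff_mul_prod_normalizedFactors (P j)
  let eq := AlgEquiv.ofInjective ψ hψ
  let φB : ψ.range →ₐ[k] k := φ.comp eq.symm.toAlgHom
  have hφB : ∀ x : A, φB (eq x) = φ x := fun x => by
    change φ (eq.symm (eq x)) = φ x
    rw [AlgEquiv.symm_apply_apply]
  refine ⟨ψ.range, φB, fun j => (PA j).map (eq : A →+* ψ.range), ?_, fun j => ?_, fun j x => ?_⟩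
  · intro x hx
    obtain ⟨y, hy⟩ := hS' x (Finset.mem_union_left _ (Finset.mem_union_left _
      (Finset.mem_union_left _ hx)))
    exact ⟨y, hy⟩
  · rw [Polynomial.map_map]
    exact hPA j
  · have h1 : (φB : ψ.range →+* k).comp (eq : A →+* ψ.range) = (φ : A →+* k) := by
      ext y
      exact hφB y
    rw [Polynomial.map_map, h1]
    simp only [PA]
    rw [Polynomial.map_mul, Polynomial.map_C, Polynomial.map_multiset_prod, Multiset.map_map,
      Polynomial.eval_mul, Polynomial.eval_C, Polynomial.eval_multiset_prod, Multiset.map_map]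
    refine mul_ne_zero ?_ ?_
    · intro h0
      have h2 := congrArg φ (hab j)
      rw [map_mul, map_one] at h2
      have h3 : φ (a j) = 0 := h0
      rw [h3, zero_mul] at h2
      exact zero_ne_one h2
    · apply Multiset.prod_ne_zero
      intro h0
      obtain ⟨Q, hQ, h2⟩ := Multiset.mem_map.1 h0
      exact hφ' Q (hmem j Q hQ) x h2

/-- The Hilbert property of a scheme gives that of its function field. -/
theorem hpf_of_hp {k : Type} [Field k] [CharZero k] {X : Scheme.{0}} [IsIntegral X]
    (f : X ⟶ Spec (CommRingCat.of k)) [LocallyOfFiniteType f] (hHP : HilbertProperty k X f)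
    {K : Type} [Field K] [Algebra k K] (e : X.functionField ≃+* K)
    (he : ∀ a, e (toFF k X f a) = algebraMap k K a) : HPF k K := by
  classical
  refine hpf_core fun S => ?_
  obtain ⟨U, hU, hne, hS⟩ := exists_affine (S.image e.symm)
  have hfr := functionField_isFractionRing_of_isAffineOpen X U hU
  have hinj : Function.Injective (algebraMap Γ(X, U) X.functionField) :=
    IsFractionRing.injective Γ(X, U) X.functionField
  let ψ0 : Γ(X, U) →+* K := (e : X.functionField →+* K).comp
    (algebraMap Γ(X, U) X.functionField)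
  let A0 : Algebra k Γ(X, U) := (str f U).toAlgebra
  have hψ0 : ∀ a : k, ψ0 (str f U a) = algebraMap k K a := by
    intro a
    rw [← he a, toFF_str f U a]
    rfl
  let ψ : Γ(X, U) →ₐ[k] K := { ψ0 with commutes' := hψ0 }
  refine ⟨Γ(X, U), inferInstance, A0, ψ, e.injective.comp hinj, fun x hx => ?_, ?_⟩
  · obtain ⟨y, hy⟩ := hS (e.symm x) (Finset.mem_image_of_mem _ hx)
    refine ⟨y, ?_⟩
    change e (algebraMap Γ(X, U) X.functionField y) = x
    rw [hy, RingEquiv.apply_symm_apply]
  · intro q G hG hirr hdeg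
    obtain ⟨φ, h1, h2⟩ := hp_affine f hHP U hU q G hG (fun j => by
      have h3 : (G j).map (ψ : Γ(X, U) →+* K) =
          ((G j).map (algebraMap Γ(X, U) X.functionField)).map (e : X.functionField →+* K) := by
        rw [Polynomial.map_map]
        rfl
      have h4 := hirr j
      rw [h3] at h4
      exact (MulEquiv.irreducible_iff (Polynomial.mapEquiv e)).1 h4) hdeg
    let φ' : Γ(X, U) →ₐ[k] k := { φ with commutes' := h1 }
    exact ⟨φ', h2⟩

end Pool.Agent.Helper97.HR
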