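import Mathlib
import Pool.Agent.Helper97.HR.Gen

/-! Constants of the function field of an elliptic curve. -/

set_option autoImplicit false
set_option linter.unusedSectionVars false

namespace Pool.Agent.Helper97.HR

open Polynomial

/-- The elements of `E(u, w)`, `w² ∈ E(u)`. -/
theorem span2 {E L : Type} [Field E] [Field L] [Algebra E L] {u w : L} (g : E[X])
    (hg : w ^ 2 = aeval u g) {ρ : L} (hρ : ρ ∈ IntermediateField.adjoin E {u, w}) :
    ∃ p₀ p₁ q : E[X], aeval u q ≠ 0 ∧ aeval u q * ρ = aeval u p₀ + aeval u p₁ * w := by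
  classical
  let T := IntermediateField.adjoin E {u}
  have hwT : w ^ 2 ∈ T := by
    rw [hg]
    exact IntermediateField.algebra_adjoin_le_adjoin _ _ (Polynomial.aeval_mem_adjoin_singleton _ _)
  let gT : T[X] := X ^ 2 - C ⟨w ^ 2, hwT⟩
  have hgT : gT.Monic := monic_X_pow_sub_C _ (by norm_num)
  have hgw : aeval w gT = 0 := by
    simp [gT]
  have hint : IsIntegral T w := ⟨gT, hgT, hgw⟩
  have h1 : ρ ∈ (IntermediateField.adjoin T {w}).toSubalgebra := by
    have h1 := IntermediateField.adjoin_adjoin_left E {u} {w}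
    rw [Set.singleton_union] at h1
    rw [← h1] at hρ
    exact hρ
  rw [IntermediateField.adjoin_simple_toSubalgebra_of_isAlgebraic hint.isAlgebraic,
    Algebra.adjoin_singleton_eq_range_aeval] at h1
  obtain ⟨f, hf⟩ := h1
  have hf' : aeval w f = ρ := hf
  have h2 : aeval w (f %ₘ gT) = ρ := by
    rw [← hf', Polynomial.aeval_modByMonic_eq_self_of_root hgw]
  have h3 : (f %ₘ gT).natDegree ≤ 1 := by
    have h4 := Polynomial.natDegree_modByMonic_lt f hgT (by
      intro h
      have h5 := congrArg Polynomial.natDegree h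
      rw [natDegree_X_pow_sub_C, natDegree_one] at h5
      exact absurd h5 (by norm_num))
    rw [natDegree_X_pow_sub_C] at h4
    omega
  have h4 := Polynomial.eq_X_add_C_of_natDegree_le_one h3
  set t₁ : T := (f %ₘ gT).coeff 1
  set t₀ : T := (f %ₘ gT).coeff 0
  have h5 : ρ = (t₁ : L) * w + t₀ := by
    rw [← h2, h4, map_add, map_mul, aeval_C, aeval_X, aeval_C]
    rfl
  have hrep : ∀ t : T, ∃ r s : E[X], aeval u s ≠ 0 ∧ (t : L) * aeval u s = aeval u r := by
    intro t
    obtain ⟨r, s, hrs⟩ := (IntermediateField.mem_adjoin_simple_iff E (t : L)).1 t.2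
    by_cases hs : aeval u s = 0
    · refine ⟨0, 1, by simp, ?_⟩
      rw [hrs, hs]
      simp
    · exact ⟨r, s, hs, by rw [hrs, div_mul_cancel₀ _ hs]⟩
  obtain ⟨r₀, s₀, e0, e0'⟩ := hrep t₀
  obtain ⟨r₁, s₁, e1, e1'⟩ := hrep t₁
  refine ⟨r₀ * s₁, r₁ * s₀, s₀ * s₁, ?_, ?_⟩
  · rw [map_mul]
    exact mul_ne_zero e0 e1
  · rw [h5, map_mul, map_mul, map_mul, ← e0', ← e1']
    ring

/-- `E` is algebraically closed in `E(u, w)`, `w² = g(u)`, if `g` has odd degree. -/
theorem const_of_alg {E L : Type} [Field E] [Field L] [Algebra E L] {u w : L} (g : E[X])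
    (hg : w ^ 2 = aeval u g) (hodd : Odd g.natDegree) (hu : Transcendental E u) {z : L}
    (hz : IsAlgebraic E z) (hz' : z ∈ IntermediateField.adjoin E {u, w}) :
    z ∈ Set.range (algebraMap E L) := by
  obtain ⟨p₀, p₁, q, hq, h1⟩ := span2 g hg hz'
  let Z := IntermediateField.adjoin E {z}
  have hZ : Algebra.IsAlgebraic E Z :=
    IntermediateField.isAlgebraic_adjoin_simple hz.isIntegral
  have huZ : Transcendental Z u := hu.extendScalars Z
  let ζ : Z := ⟨z, IntermediateField.mem_adjoin_simple_self E z⟩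
  let m : E[X] →+* Z[X] := mapRingHom (algebraMap E Z)
  have hm : ∀ f : E[X], aeval u (m f) = aeval u f := by
    intro f
    exact aeval_map_algebraMap _ _ _
  have hmd : ∀ f : E[X], (m f).natDegree = f.natDegree := fun f => natDegree_map _
  have hm0 : ∀ f : E[X], m f = 0 → f = 0 := fun f hf =>
    (Polynomial.map_eq_zero _).1 hf
  have h2 : (C ζ * m q - m p₀) ^ 2 = m p₁ ^ 2 * m g := by
    apply transcendental_iff_injective.1 huZ
    rw [map_pow, map_sub, map_mul, map_mul, map_pow, aeval_C, hm, hm, hm, hm, ← hg]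
    have h3 : algebraMap Z L ζ = z := rfl
    rw [h3, mul_comm z, h1]
    ring
  have hg0 : g ≠ 0 := by
    rintro rfl
    simp at hodd
  have h3 : p₁ = 0 := by
    by_contra hp
    have h4 := congrArg natDegree h2
    rw [natDegree_pow, natDegree_mul (pow_ne_zero _ fun h => hp (hm0 _ h)) fun h => hg0 (hm0 _ h),
      natDegree_pow, hmd, hmd] at h4
    obtain ⟨k, hk⟩ := hodd
    omega
  rw [h3, map_zero, zero_pow two_ne_zero, zero_mul, sq_eq_zero_iff, sub_eq_zero] at h2
  have hq0 : q ≠ 0 := by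
    rintro rfl
    exact hq (map_zero _)
  have h4 := congrArg (fun f => coeff f q.natDegree) h2
  simp only [coeff_C_mul] at h4
  have h5 : (m q).coeff q.natDegree = algebraMap E Z q.leadingCoeff := coeff_map _ _
  have h6 : (m p₀).coeff q.natDegree = algebraMap E Z (p₀.coeff q.natDegree) := coeff_map _ _
  rw [h5, h6] at h4
  refine ⟨p₀.coeff q.natDegree / q.leadingCoeff, ?_⟩
  have h7 := congrArg (algebraMap Z L) h4
  rw [map_mul, ← IsScalarTower.algebraMap_apply, ← IsScalarTower.algebraMap_apply] at h7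
  rw [map_div₀, ← h7]
  have h8 : algebraMap E L q.leadingCoeff ≠ 0 := by
    rw [Ne, map_eq_zero_iff _ (algebraMap E L).injective]
    exact leadingCoeff_ne_zero.2 hq0
  rw [mul_div_assoc, div_self h8, mul_one]
  rfl

section half

variable {K : Type} [Field K] [CharZero K] [DecidableEq K] {a b : K}

/-- A half of a point with coordinates in `E` has algebraic coordinates. -/
theorem alg_of_double (E : Subfield K) (hd : dsc a b ≠ 0) (ha : a ∈ E) (hb : b ∈ E)
    {R : (cv a b).Point} (hR : HC E (R + R)) {x y : K} {h : y ^ 2 = x ^ 3 + a * x + b}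
    (hRx : R = pt hd x y h) : IsAlgebraic E x ∧ IsAlgebraic E y := by
  have hx : IsAlgebraic E x := by
    rcases pt_cases hd (R + R) with h0 | ⟨u, w, hQ, h0⟩
    · have hy : y = 0 := by
        by_contra hy
        obtain ⟨h3, h4⟩ := add_self (hd := hd) (h := h) hy
        rw [hRx, h4] at h0
        exact pt_ne h0
      refine ⟨GG (⟨a, ha⟩ : E) (⟨b, hb⟩ : E), fun h1 => ?_, ?_⟩
      · have h2 := natDegree_GG (a := (⟨a, ha⟩ : E)) (b := (⟨b, hb⟩ : E))
        rw [h1, natDegree_zero] at h2
        omega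
      · unfold GG
        simp only [map_add, map_mul, map_pow, aeval_X, aeval_C]
        change x ^ 3 + a * x + b = 0
        rw [← h, hy]
        ring
    · rw [h0, HC.pt] at hR
      obtain ⟨r, s, hrs, hs, hRr, hr⟩ := half_root h0
      have hrx : r = x := by
        rw [hRr, pt_inj] at hRx
        exact hRx.1
      rw [hrx] at hr
      let aE : E := ⟨a, ha⟩
      let bE : E := ⟨b, hb⟩
      let uE : E := ⟨u, hR.1⟩
      refine ⟨NN aE bE - C (4 * uE) * GG aE bE, fun h1 => ?_, ?_⟩
      · have h2 : (NN aE bE - C (4 * uE) * GG aE bE).natDegree = 4 := by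
          unfold NN GG
          compute_degree!
        rw [h1, natDegree_zero] at h2
        omega
      · unfold NN GG
        simp only [map_add, map_sub, map_mul, map_pow, aeval_X, aeval_C]
        have e2 : algebraMap E K 2 = 2 := map_ofNat _ _
        have e8 : algebraMap E K 8 = 8 := map_ofNat _ _
        have e4 : algebraMap E K 4 = 4 := map_ofNat _ _
        rw [e2, e8, e4]
        change x ^ 4 - 2 * a * x ^ 2 - 8 * b * x + a ^ 2 - 4 * u * (x ^ 3 + a * x + b) = 0
        linear_combination hr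
  refine ⟨hx, ?_⟩
  have h1 : IsAlgebraic E (y ^ 2) := by
    have h2 : y ^ 2 = aeval x (GG (⟨a, ha⟩ : E) (⟨b, hb⟩ : E)) := by
      unfold GG
      simp only [map_add, map_mul, map_pow, aeval_X, aeval_C]
      exact h
    rw [h2]
    exact alg_aeval hx _
  exact h1.of_pow (by norm_num)

/-- Halves of constant points are constant. -/
theorem HC.half {E : Subfield K} {hd : dsc a b ≠ 0} (ha : a ∈ E) (hb : b ∈ E)
    {x y : K} (h : y ^ 2 = x ^ 3 + a * x + b) (hx : Transcendental E x)
    {R : (cv a b).Point} (hR : HC (IntermediateField.adjoin E {x, y}).toSubfield R)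
    (hRR : HC E (R + R)) : HC E R := by
  rcases pt_cases hd R with h0 | ⟨r, s, hrs, h0⟩
  · rw [h0]
    exact HC.zero
  obtain ⟨hr, hs⟩ := alg_of_double E hd ha hb hRR h0
  rw [h0, HC.pt] at hR ⊢
  have hg : y ^ 2 = aeval x (GG (⟨a, ha⟩ : E) (⟨b, hb⟩ : E)) := by
    unfold GG
    simp only [map_add, map_mul, map_pow, aeval_X, aeval_C]
    exact h
  have hodd : Odd (GG (⟨a, ha⟩ : E) (⟨b, hb⟩ : E)).natDegree := by
    rw [natDegree_GG]
    decide
  obtain ⟨r', hr'⟩ := const_of_alg _ hg hodd hx hr hR.1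
  obtain ⟨s', hs'⟩ := const_of_alg _ hg hodd hx hs hR.2
  rw [← hr', ← hs']
  exact ⟨r'.2, s'.2⟩

end half

end Pool.Agent.Helper97.HR
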