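import Mathlib
import Pool.Agent.Helper97.HR.Const

/-! The generic points of a power of an elliptic curve are independent modulo two. -/

set_option autoImplicit false
set_option linter.unusedSectionVars false

namespace Pool.Agent.Helper97.HR

open Polynomial

theorem adj_toSubfield {K : Type} [Field K] (E : Subfield K) (S : Set K) :
    (IntermediateField.adjoin E S).toSubfield = Subfield.closure ((E : Set K) ∪ S) := by
  have h1 : (IntermediateField.adjoin E S).toSubfield =
      Subfield.closure (Set.range (algebraMap E K) ∪ S) := rfl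
  have h2 : Set.range (algebraMap E K) = (E : Set K) := Subtype.range_coe
  rw [h1, h2]

theorem trans_subfield {K A : Type} [Field K] [Field A] [Algebra A K] (E : Subfield K)
    (hE : ∀ z ∈ E, z ∈ Set.range (algebraMap A K)) {x : K} (hx : Transcendental A x) :
    Transcendental E x := by
  rintro ⟨p, hp, h0⟩
  have h1 : p.map (algebraMap E K) ∈ Polynomial.lifts (algebraMap A K) := by
    rw [Polynomial.lifts_iff_coeff_lifts]
    intro n
    rw [coeff_map]
    exact hE _ (p.coeff n).2
  obtain ⟨q, hq⟩ := (Polynomial.mem_lifts _).1 h1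
  refine hx ⟨q, ?_, ?_⟩
  · rintro rfl
    rw [Polynomial.map_zero] at hq
    exact hp ((Polynomial.map_eq_zero _).1 hq.symm)
  · rw [← Polynomial.eval_map_algebraMap, hq, Polynomial.eval_map_algebraMap, h0]

section

variable {K : Type} [Field K] (F : Subfield K) {ι : Type} (x y : ι → K)

/-- The field generated by the coordinates with indices in `s`. -/
def EE (s : Set ι) : Subfield K := Subfield.closure ((F : Set K) ∪ (x '' s ∪ y '' s))

theorem F_le (s : Set ι) : F ≤ EE F x y s := fun _ hz =>
  Subfield.subset_closure (Or.inl hz)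

theorem x_mem {s : Set ι} {i : ι} (hi : i ∈ s) : x i ∈ EE F x y s :=
  Subfield.subset_closure (Or.inr (Or.inl ⟨i, hi, rfl⟩))

theorem y_mem {s : Set ι} {i : ι} (hi : i ∈ s) : y i ∈ EE F x y s :=
  Subfield.subset_closure (Or.inr (Or.inr ⟨i, hi, rfl⟩))

theorem EE_empty : EE F x y ∅ = F := by
  unfold EE
  rw [Set.image_empty, Set.image_empty, Set.union_empty, Set.union_empty]
  exact Subfield.closure_eq F

theorem EE_insert (s : Set ι) (i : ι) : EE F x y (insert i s) =
    (IntermediateField.adjoin (EE F x y s) {x i, y i}).toSubfield := by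
  rw [adj_toSubfield]
  apply le_antisymm
  · unfold EE
    rw [Subfield.closure_le]
    rintro z (hz | ⟨j, hj, rfl⟩ | ⟨j, hj, rfl⟩)
    · exact Subfield.subset_closure (Or.inl (Subfield.subset_closure (Or.inl hz)))
    · rcases hj with rfl | hj
      · exact Subfield.subset_closure (Or.inr (by simp))
      · exact Subfield.subset_closure (Or.inl (x_mem F x y hj))
    · rcases hj with rfl | hj
      · exact Subfield.subset_closure (Or.inr (by simp))
      · exact Subfield.subset_closure (Or.inl (y_mem F x y hj))
  · rw [Subfield.closure_le]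
    rintro z (hz | rfl | rfl)
    · have h1 : EE F x y s ≤ EE F x y (insert i s) := by
        unfold EE
        refine Subfield.closure_mono (Set.union_subset_union_right _ ?_)
        exact Set.union_subset_union (Set.image_mono (Set.subset_insert i s))
          (Set.image_mono (Set.subset_insert i s))
      exact h1 hz
    · exact x_mem F x y (Set.mem_insert i s)
    · exact y_mem F x y (Set.mem_insert i s)

variable {F x y} [CharZero K] {a b : K}

theorem trans_EE (hx : AlgebraicIndependent F x) (ha : a ∈ F) (hb : b ∈ F)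
    (hy : ∀ i, y i ^ 2 = x i ^ 3 + a * x i + b) {s : Set ι} {i : ι} (hi : i ∉ s) :
    Transcendental (EE F x y s) (x i) := by
  let A := IntermediateField.adjoin F (x '' s)
  have h1 : Transcendental A (x i) := by
    rw [IntermediateField.transcendental_adjoin_iff]
    exact hx.transcendental_adjoin hi
  let B := IntermediateField.adjoin A (y '' s)
  have h2 : Algebra.IsAlgebraic A B := by
    apply IntermediateField.isAlgebraic_adjoin
    rintro z ⟨j, hj, rfl⟩
    have h3 : IsAlgebraic A (y j ^ 2) := by
      have h4 : y j ^ 2 ∈ A := by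
        rw [hy]
        have hxA : x j ∈ A := IntermediateField.subset_adjoin _ _ ⟨j, hj, rfl⟩
        have haA : a ∈ A := A.algebraMap_mem ⟨a, ha⟩
        have hbA : b ∈ A := A.algebraMap_mem ⟨b, hb⟩
        exact add_mem (add_mem (pow_mem hxA 3) (mul_mem haA hxA)) hbA
      exact isAlgebraic_algebraMap (⟨y j ^ 2, h4⟩ : A)
    exact (h3.of_pow (by norm_num)).isIntegral
  have h3 : Transcendental B (x i) := h1.extendScalars B
  refine trans_subfield _ (fun z hz => ?_) h3
  have h4 : EE F x y s ≤ B.toSubfield := by
    unfold EE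
    rw [Subfield.closure_le]
    rintro w (hw | ⟨j, hj, rfl⟩ | ⟨j, hj, rfl⟩)
    · have h5 : w ∈ A := A.algebraMap_mem ⟨w, hw⟩
      exact B.algebraMap_mem ⟨w, h5⟩
    · have h5 : x j ∈ A := IntermediateField.subset_adjoin _ _ ⟨j, hj, rfl⟩
      exact B.algebraMap_mem ⟨x j, h5⟩
    · exact IntermediateField.subset_adjoin _ _ ⟨j, hj, rfl⟩
  exact ⟨⟨z, h4 hz⟩, rfl⟩

variable [DecidableEq K]

/-- A half of a constant point is constant. -/
theorem half_const (hd : dsc a b ≠ 0) (hx : AlgebraicIndependent F x) (ha : a ∈ F) (hb : b ∈ F)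
    (hy : ∀ i, y i ^ 2 = x i ^ 3 + a * x i + b) (s : Finset ι) (R : (cv a b).Point)
    (hR : HC (EE F x y (s : Set ι)) R) (hRR : HC F (R + R)) : HC F R := by
  classical
  induction s using Finset.induction_on with
  | empty =>
    rw [Finset.coe_empty, EE_empty] at hR
    exact hR
  | insert i s hi ih =>
    apply ih
    rw [Finset.coe_insert, EE_insert] at hR
    exact HC.half (hd := hd) (F_le F x y _ ha) (F_le F x y _ hb) (hy i)
      (trans_EE hx ha hb hy (by exact_mod_cast hi)) hR (HC.mono (F_le F x y _) hRR)

/-- **Independence modulo two** of the generic points and of constant points. -/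
theorem indep2 [Finite ι] (hd : dsc a b ≠ 0) (hx : AlgebraicIndependent F x) (ha : a ∈ F)
    (hb : b ∈ F) (hy : ∀ i, y i ^ 2 = x i ^ 3 + a * x i + b) (htop : EE F x y Set.univ = ⊤)
    {κ : Type} (S : κ → (cv a b).Point) (hS : ∀ j, HC F (S j))
    (hS2 : ∀ (μ : Finset κ), μ.Nonempty → ∀ R, HC F R → ∑ j ∈ μ, S j ≠ R + R)
    (G : ι ⊕ κ → (cv a b).Point) (hG1 : ∀ i, G (Sum.inl i) = pt hd (x i) (y i) (hy i))
    (hG2 : ∀ j, G (Sum.inr j) = S j) (μ : Finset (ι ⊕ κ)) (hμ : μ.Nonempty)
    (R : (cv a b).Point) : ∑ j ∈ μ, G j ≠ R + R := by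
  classical
  have := Fintype.ofFinite ι
  intro h0
  by_cases hin : ∃ i : ι, Sum.inl i ∈ μ
  · obtain ⟨i, hi⟩ := hin
    let E := EE F x y {i}ᶜ
    have h1 : HC E (∑ j ∈ μ.erase (Sum.inl i), G j) := by
      refine HC.sum hd (F_le F x y _ ha) _ fun j hj => ?_
      rcases j with j | j
      · have hji : j ∈ ({i}ᶜ : Set ι) := by
          intro h
          rw [Set.mem_singleton_iff] at h
          rw [h] at hj
          exact Finset.notMem_erase _ _ hj
        rw [hG1, HC.pt]
        exact ⟨x_mem F x y hji, y_mem F x y hji⟩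
      · rw [hG2]
        exact HC.mono (F_le F x y _) (hS j)
    have htop' : IntermediateField.adjoin E {x i, y i} = ⊤ := by
      have h2 := EE_insert F x y {i}ᶜ i
      have h3 : insert i ({i}ᶜ : Set ι) = Set.univ := by
        ext j
        simp [em]
      rw [h3, htop] at h2
      rw [eq_top_iff]
      intro z _
      have h4 : z ∈ (⊤ : Subfield K) := trivial
      rw [h2] at h4
      exact h4
    refine not_half E hd (F_le F x y _ ha) (F_le F x y _ hb) (hy i)
      (trans_EE hx ha hb hy (by simp)) htop' _ h1 R ?_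
    rw [← h0, ← hG1, Finset.add_sum_erase μ G hi]
  · push Not at hin
    let μ' : Finset κ := μ.preimage Sum.inr Sum.inr_injective.injOn
    have h1 : ∑ j ∈ μ, G j = ∑ j ∈ μ', S j := by
      symm
      refine Finset.sum_bij (fun j _ => Sum.inr j) (fun j hj => ?_) (fun _ _ _ _ h => Sum.inr.inj h)
        (fun j hj => ?_) fun j _ => (hG2 j).symm
      · exact Finset.mem_preimage.1 hj
      · rcases j with j | j
        · exact absurd hj (hin j)
        · exact ⟨j, Finset.mem_preimage.2 hj, rfl⟩
    have hμ' : μ'.Nonempty := by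
      obtain ⟨j, hj⟩ := hμ
      rcases j with j | j
      · exact absurd hj (hin j)
      · exact ⟨j, Finset.mem_preimage.2 hj⟩
    rw [h1] at h0
    refine hS2 μ' hμ' R ?_ h0
    refine half_const hd hx ha hb hy Finset.univ R ?_ ?_
    · rw [Finset.coe_univ, htop]
      intro _ _ _ _
      exact ⟨trivial, trivial⟩
    · rw [← h0]
      exact HC.sum hd ha _ fun j _ => hS j

end

end Pool.Agent.Helper97.HR
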