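import Mathlib
import Pool.Agent.Helper97.HR.Indep

/-! Density of rational places. -/

set_option autoImplicit false
set_option linter.unusedSectionVars false

namespace Pool.Agent.Helper97.HR

open Polynomial

section

variable {K : Type} [Field K]

/-- Places of `E'` with values in `E`, finite on given elements and trivial on `E`. -/
def DP (E E' : Subfield K) : Prop :=
  ∀ S : Finset K, (S : Set K) ⊆ E' → ∃ (B : Subring K) (φ : B →+* E), (E : Set K) ⊆ B ∧
    (S : Set K) ⊆ B ∧ (B : Set K) ⊆ E' ∧ ∀ (e : K) (he : e ∈ E) (hB : e ∈ B), φ ⟨e, hB⟩ = ⟨e, he⟩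

theorem DP.refl (E : Subfield K) : DP E E := by
  intro S hS
  refine ⟨E.toSubring, RingHom.id E, fun _ h => h, hS, fun _ h => h, fun e he hB => rfl⟩

theorem DP.trans {E E' E'' : Subfield K} (h1 : DP E E') (h2 : DP E' E'') : DP E E'' := by
  classical
  intro S hS
  obtain ⟨B₂, φ₂, hE₂, hS₂, hB₂, hφ₂⟩ := h2 S hS
  let S' : Finset K := S.attach.image fun s => ((φ₂ ⟨s.1, hS₂ s.2⟩ : E') : K)
  have hS' : (S' : Set K) ⊆ E' := by
    intro z hz
    obtain ⟨s, _, rfl⟩ := Finset.mem_image.1 hz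
    exact (φ₂ ⟨s.1, hS₂ s.2⟩).2
  obtain ⟨B₁, φ₁, hE₁, hS₁, hB₁, hφ₁⟩ := h1 S' hS'
  have hEE' : (E : Set K) ⊆ E' := fun z hz => hB₁ (hE₁ hz)
  let B : Subring K :=
    { carrier := {z | ∃ h : z ∈ B₂, ((φ₂ ⟨z, h⟩ : E') : K) ∈ B₁}
      mul_mem' := by
        rintro z w ⟨h1, h2⟩ ⟨h3, h4⟩
        refine ⟨mul_mem h1 h3, ?_⟩
        have : φ₂ ⟨z * w, mul_mem h1 h3⟩ = φ₂ ⟨z, h1⟩ * φ₂ ⟨w, h3⟩ := by
          rw [← map_mul]
          rfl
        rw [this]
        exact mul_mem h2 h4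
      one_mem' := by
        refine ⟨one_mem _, ?_⟩
        have : φ₂ ⟨1, one_mem _⟩ = 1 := map_one φ₂
        rw [this]
        exact one_mem _
      add_mem' := by
        rintro z w ⟨h1, h2⟩ ⟨h3, h4⟩
        refine ⟨add_mem h1 h3, ?_⟩
        have : φ₂ ⟨z + w, add_mem h1 h3⟩ = φ₂ ⟨z, h1⟩ + φ₂ ⟨w, h3⟩ := by
          rw [← map_add]
          rfl
        rw [this]
        exact add_mem h2 h4
      zero_mem' := by
        refine ⟨zero_mem _, ?_⟩
        have : φ₂ ⟨0, zero_mem _⟩ = 0 := map_zero φ₂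
        rw [this]
        exact zero_mem _
      neg_mem' := by
        rintro z ⟨h1, h2⟩
        refine ⟨neg_mem h1, ?_⟩
        have : φ₂ ⟨-z, neg_mem h1⟩ = -φ₂ ⟨z, h1⟩ := by
          rw [← map_neg]
          rfl
        rw [this]
        exact neg_mem h2 }
  have hBB₂ : B ≤ B₂ := fun z hz => hz.1
  let ψ : B →+* B₁ := (E'.subtype.comp (φ₂.comp (Subring.inclusion hBB₂))).codRestrict B₁
    fun z => z.2.2
  refine ⟨B, φ₁.comp ψ, fun z hz => ?_, fun z hz => ?_, fun z hz => hB₂ hz.1,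
    fun e he hB => ?_⟩
  · refine ⟨hE₂ (hEE' hz), ?_⟩
    rw [hφ₂ z (hEE' hz)]
    exact hE₁ hz
  · exact ⟨hS₂ hz, hS₁ (Finset.mem_image.2 ⟨⟨z, hz⟩, Finset.mem_attach _ _, rfl⟩)⟩
  · have h3 : ψ ⟨e, hB⟩ = ⟨e, hE₁ he⟩ := by
      apply Subtype.ext
      change ((φ₂ ⟨e, hB.1⟩ : E') : K) = e
      rw [hφ₂ e (hEE' he)]
    rw [RingHom.comp_apply, h3]
    exact hφ₁ e he _

/-- Places from points of a ring with given field of fractions. -/
theorem dp_of_ring {E E' : Subfield K} {R : Type} [CommRing R] (i : R →+* K)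
    (hi : Function.Injective i) (j : E →+* R) (hj : ∀ e : E, i (j e) = e)
    (hR : ∀ r, i r ∈ E') (hfrac : ∀ z ∈ E', ∃ a d : R, d ≠ 0 ∧ z * i d = i a)
    (hφ : ∀ r : R, r ≠ 0 → ∃ φ : R →+* E, φ r ≠ 0 ∧ ∀ e, φ (j e) = e) : DP E E' := by
  classical
  intro S hS
  have hdom : IsDomain R := hi.isDomain i
  choose! a d hd had using hfrac
  have hr : (∏ z ∈ S, d z) ≠ 0 := Finset.prod_ne_zero_iff.2 fun z hz => hd z (hS hz)
  obtain ⟨φ, hφ1, hφ2⟩ := hφ _ hr
  let M : Submonoid R :=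
    { carrier := {r | φ r ≠ 0}
      mul_mem' := by
        intro r s h1 h2
        change φ (r * s) ≠ 0
        rw [map_mul]
        exact mul_ne_zero h1 h2
      one_mem' := by
        change φ 1 ≠ 0
        rw [map_one]
        exact one_ne_zero }
  have hM : M ≤ nonZeroDivisors R := by
    intro r hr
    rw [mem_nonZeroDivisors_iff_ne_zero]
    rintro rfl
    exact hr (map_zero φ)
  have hu1 : ∀ r : M, IsUnit (i r) := by
    intro r
    rw [isUnit_iff_ne_zero, Ne, map_eq_zero_iff i hi]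
    rintro h0
    exact r.2 (by rw [h0, map_zero])
  have hu2 : ∀ r : M, IsUnit (φ r) := fun r => isUnit_iff_ne_zero.2 r.2
  let i' : Localization M →+* K := IsLocalization.lift hu1
  let φ' : Localization M →+* E := IsLocalization.lift hu2
  have hi' : Function.Injective i' := by
    rw [IsLocalization.lift_injective_iff]
    intro x y
    constructor
    · intro h
      rw [IsLocalization.injective (Localization M) hM h]
    · intro h
      rw [hi h]
  let e := RingEquiv.ofBijective i'.rangeRestrict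
    ⟨fun x y h => hi' (congrArg Subtype.val h), i'.rangeRestrict_surjective⟩
  have he : ∀ x, ((e x : i'.range) : K) = i' x := fun x => rfl
  refine ⟨i'.range, φ'.comp e.symm.toRingHom, fun z hz => ?_, fun z hz => ?_, ?_, ?_⟩
  · refine ⟨algebraMap R _ (j ⟨z, hz⟩), ?_⟩
    change i' _ = _
    rw [IsLocalization.lift_eq, hj]
  · have hd0 : φ (d z) ≠ 0 := by
      rw [map_prod] at hφ1
      exact Finset.prod_ne_zero_iff.1 hφ1 z hz
    refine ⟨IsLocalization.mk' _ (a z) (⟨d z, hd0⟩ : M), ?_⟩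
    change i' _ = _
    rw [IsLocalization.lift_mk'_spec, ← had z (hS hz), mul_comm]
  · rintro z ⟨w, rfl⟩
    obtain ⟨r, s, rfl⟩ := IsLocalization.exists_mk'_eq M w
    have h1 : i' (IsLocalization.mk' (Localization M) r s) = i r / i s := by
      have hs : i s ≠ 0 := (hu1 s).ne_zero
      rw [eq_div_iff hs, mul_comm]
      exact ((IsLocalization.lift_mk'_spec (g := i) (hg := hu1) r _ s).1 rfl).symm
    change i' _ ∈ (E' : Set K)
    rw [h1]
    exact div_mem (hR r) (hR s)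
  · intro z hz hB
    have h1 : e (algebraMap R _ (j ⟨z, hz⟩)) = ⟨z, hB⟩ := by
      apply Subtype.ext
      rw [he, IsLocalization.lift_eq, hj]
    have h2 : e.symm ⟨z, hB⟩ = algebraMap R _ (j ⟨z, hz⟩) := by
      rw [← h1, RingEquiv.symm_apply_apply]
    change φ' (e.symm ⟨z, hB⟩) = _
    rw [h2, IsLocalization.lift_eq, hφ2]

end

end Pool.Agent.Helper97.HR
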