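import Mathlib
import Pool.Agent.Helper97.HR.Dp

/-! Density of rational places: the line and elliptic curves of positive rank. -/

set_option autoImplicit false
set_option linter.unusedSectionVars false

namespace Pool.Agent.Helper97.HR

open Polynomial

section

variable {K : Type} [Field K]

theorem dp_line (E : Subfield K) [Infinite E] {t : K} (ht : Transcendental E t) :
    DP E (IntermediateField.adjoin E {t}).toSubfield := by
  have hinj : Function.Injective (aeval t : E[X] →ₐ[E] K) := transcendental_iff_injective.1 ht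
  refine dp_of_ring (R := E[X]) (aeval t : E[X] →ₐ[E] K).toRingHom hinj C (fun e => ?_)
    (fun r => ?_) (fun z hz => ?_) (fun r hr => ?_)
  · exact aeval_C t e
  · exact IntermediateField.algebra_adjoin_le_adjoin _ _ (Polynomial.aeval_mem_adjoin_singleton _ _)
  · obtain ⟨r, s, hrs⟩ := (IntermediateField.mem_adjoin_simple_iff E z).1 hz
    by_cases hs : aeval t s = 0
    · refine ⟨0, 1, one_ne_zero, ?_⟩
      rw [hrs, hs]
      simp
    · refine ⟨r, s, ?_, ?_⟩
      · rintro rfl
        exact hs (map_zero _)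
      · rw [hrs]
        exact div_mul_cancel₀ _ hs
  · obtain ⟨c, hc⟩ : ∃ c : E, r.eval c ≠ 0 := by
      by_contra hcon
      push Not at hcon
      exact hr (Polynomial.funext fun c => by rw [hcon c, Polynomial.eval_zero])
    exact ⟨Polynomial.evalRingHom c, hc, fun e => eval_C⟩

/-- A cubic times a square is not a square. -/
theorem sq_cubic {E : Type} [Field E] {g p q : E[X]} (hg : g.natDegree = 3)
    (h : p ^ 2 = q ^ 2 * g) : p = 0 ∧ q = 0 := by
  have hg0 : g ≠ 0 := by
    rintro rfl
    rw [natDegree_zero] at hg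
    omega
  by_cases hq : q = 0
  · refine ⟨?_, hq⟩
    rw [hq] at h
    simpa using h
  · exfalso
    have h1 := congrArg natDegree h
    rw [natDegree_mul (pow_ne_zero _ hq) hg0, natDegree_pow, natDegree_pow, hg] at h1
    omega

theorem root_rep {E : Type} [Field E] (g : E[X]) (z : AdjoinRoot (X ^ 2 - C g : E[X][X])) :
    ∃ p q : E[X], z = AdjoinRoot.of _ p + AdjoinRoot.of _ q * AdjoinRoot.root _ := by
  obtain ⟨P, rfl⟩ := AdjoinRoot.mk_surjective z
  have hmon : (X ^ 2 - C g : E[X][X]).Monic := monic_X_pow_sub_C _ (by norm_num)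
  have h1 : AdjoinRoot.mk (X ^ 2 - C g : E[X][X]) P =
      AdjoinRoot.mk _ (P %ₘ (X ^ 2 - C g : E[X][X])) := by
    conv_lhs => rw [← Polynomial.modByMonic_add_div P (X ^ 2 - C g : E[X][X])]
    rw [map_add, map_mul, AdjoinRoot.mk_self, zero_mul, add_zero]
  have h2 : (P %ₘ (X ^ 2 - C g : E[X][X])).natDegree ≤ 1 := by
    have h3 := Polynomial.natDegree_modByMonic_lt P hmon (by
      intro h
      have := congrArg natDegree h
      rw [natDegree_X_pow_sub_C, natDegree_one] at this
      omega)
    rw [natDegree_X_pow_sub_C] at h3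
    omega
  obtain ⟨q, p, h3⟩ := Polynomial.exists_eq_X_add_C_of_natDegree_le_one h2
  refine ⟨p, q, ?_⟩
  rw [h1, h3, map_add, map_mul, AdjoinRoot.mk_C, AdjoinRoot.mk_C, AdjoinRoot.mk_X]
  ring

end

section

variable {K : Type} [Field K] [CharZero K] [DecidableEq K] {a b : K}

theorem HC.nsmul {E : Subfield K} (hd : dsc a b ≠ 0) (ha : a ∈ E) {P : (cv a b).Point}
    (hP : HC E P) (m : ℕ) : HC E (m • P) := by
  induction m with
  | zero => rw [zero_smul]; exact HC.zero
  | succ m ih => rw [succ_nsmul]; exact HC.add hd ha ih hP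

/-- infinitely many first coordinates -/
theorem inf_points (E : Subfield K) (hd : dsc a b ≠ 0) (ha : a ∈ E) (Q : (cv a b).Point)
    (hQ : HC E Q) (hQ0 : ∀ m : ℕ, 0 < m → m • Q ≠ 0) :
    ∃ X' Y' : ℕ → E, Function.Injective X' ∧
      ∀ m, (Y' m : K) ^ 2 = (X' m : K) ^ 3 + a * X' m + b := by
  have h1 : ∀ m : ℕ, ∃ (x y : K) (h : y ^ 2 = x ^ 3 + a * x + b), (m + 1) • Q = pt hd x y h ∧
      x ∈ E ∧ y ∈ E := by
    intro m
    rcases pt_cases hd ((m + 1) • Q) with h0 | ⟨x, y, h, h0⟩
    · exact absurd h0 (hQ0 _ (Nat.succ_pos m))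
    · refine ⟨x, y, h, h0, ?_⟩
      have h2 := HC.nsmul hd ha hQ (m + 1)
      rw [h0, HC.pt] at h2
      exact h2
  choose X' Y' hXY hQm hX hY using h1
  refine ⟨fun m => ⟨X' m, hX m⟩, fun m => ⟨Y' m, hY m⟩, ?_, hXY⟩
  have key : ∀ m n : ℕ, m < n → X' m ≠ X' n := by
    intro m n hmn hx
    have h2 : (m + 1) • Q = (n + 1) • Q ∨ (m + 1) • Q = -((n + 1) • Q) := by
      rw [hQm m, hQm n]
      have e' : Y' m ^ 2 = X' n ^ 3 + a * X' n + b := by rw [← hx]; exact hXY m
      have h6 : pt hd (X' m) (Y' m) (hXY m) = pt hd (X' n) (Y' m) e' := pt_congr hx rfl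
      rw [h6]
      exact eq_or_neg
    rcases h2 with h2 | h2
    · apply hQ0 (n - m) (by omega)
      have h3 : (n + 1) • Q = (n - m) • Q + (m + 1) • Q := by
        rw [← add_smul]
        congr 1
        omega
      rw [h3] at h2
      exact add_eq_right.1 h2.symm
    · apply hQ0 ((m + 1) + (n + 1)) (by omega)
      rw [add_smul, h2, neg_add_cancel]
  intro m n hmn
  have hmn' : X' m = X' n := congrArg Subtype.val hmn
  rcases lt_trichotomy m n with h | h | h
  · exact absurd hmn' (key m n h)
  · exact h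
  · exact absurd hmn'.symm (key n m h)

theorem dp_curve (E : Subfield K) (hd : dsc a b ≠ 0) (ha : a ∈ E) (hb : b ∈ E)
    (Q : (cv a b).Point) (hQ : HC E Q) (hQ0 : ∀ m : ℕ, 0 < m → m • Q ≠ 0) {x y : K}
    (h : y ^ 2 = x ^ 3 + a * x + b) (hx : Transcendental E x) :
    DP E (IntermediateField.adjoin E {x, y}).toSubfield := by
  obtain ⟨X', Y', hXi, hXY⟩ := inf_points E hd ha Q hQ hQ0
  let aE : E := ⟨a, ha⟩
  let bE : E := ⟨b, hb⟩
  let g : E[X] := GG aE bE
  have hg3 : g.natDegree = 3 := natDegree_GG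
  have hgx : aeval x g = y ^ 2 := by
    rw [h]
    change aeval x (GG aE bE) = _
    unfold GG
    simp only [map_add, map_mul, map_pow, aeval_X, aeval_C]
    rfl
  have hgm : ∀ m, g.eval (X' m) = Y' m ^ 2 := by
    intro m
    apply Subtype.ext
    have h1 := hXY m
    change (((GG aE bE).eval (X' m) : E) : K) = _
    unfold GG
    simp only [eval_add, eval_mul, eval_pow, eval_X, eval_C]
    push_cast
    exact h1.symm
  let Gp : E[X][X] := X ^ 2 - C g
  have hi0 : Gp.eval₂ (aeval x : E[X] →ₐ[E] K).toRingHom y = 0 := by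
    simp only [Gp, eval₂_sub, eval₂_X_pow, eval₂_C]
    change y ^ 2 - aeval x g = 0
    rw [hgx, sub_self]
  let i : AdjoinRoot Gp →+* K := AdjoinRoot.lift (aeval x : E[X] →ₐ[E] K).toRingHom y hi0
  have hi1 : ∀ p q : E[X], i (AdjoinRoot.of _ p + AdjoinRoot.of _ q * AdjoinRoot.root _) =
      aeval x p + aeval x q * y := by
    intro p q
    rw [map_add, map_mul, AdjoinRoot.lift_of, AdjoinRoot.lift_of, AdjoinRoot.lift_root]
    rfl
  have hxinj : ∀ p : E[X], aeval x p = 0 → p = 0 := fun p hp => transcendental_iff.1 hx p hp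
  have hi : Function.Injective i := by
    rw [injective_iff_map_eq_zero]
    intro z hz
    obtain ⟨p, q, rfl⟩ := root_rep g z
    rw [hi1] at hz
    have h1 : p ^ 2 = q ^ 2 * g := by
      rw [← sub_eq_zero]
      apply hxinj
      rw [map_sub, map_mul, map_pow, map_pow, hgx]
      linear_combination (aeval x p - aeval x q * y) * hz
    obtain ⟨h2, h3⟩ := sq_cubic hg3 h1
    rw [h2, h3]
    simp
  have hxm : x ∈ IntermediateField.adjoin E {x, y} :=
    IntermediateField.subset_adjoin _ _ (by simp)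
  have hym : y ∈ IntermediateField.adjoin E {x, y} :=
    IntermediateField.subset_adjoin _ _ (by simp)
  have hpm : ∀ p : E[X], aeval x p ∈ IntermediateField.adjoin E {x, y} := by
    intro p
    exact IntermediateField.algebra_adjoin_le_adjoin _ _
      (Algebra.adjoin_mono (by simp) (Polynomial.aeval_mem_adjoin_singleton E x))
  refine dp_of_ring (R := AdjoinRoot Gp) i hi ((AdjoinRoot.of Gp).comp C) (fun e => ?_)
    (fun r => ?_) (fun z hz => ?_) (fun r hr => ?_)
  · rw [RingHom.comp_apply, AdjoinRoot.lift_of]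
    exact aeval_C x e
  · obtain ⟨p, q, rfl⟩ := root_rep g r
    rw [hi1]
    exact add_mem (hpm p) (mul_mem (hpm q) hym)
  · obtain ⟨r, hr, s, hs, hrs⟩ := (IntermediateField.mem_adjoin_iff_div).1 hz
    have hrange : ∀ w ∈ Algebra.adjoin E ({x, y} : Set K), ∃ w' : AdjoinRoot Gp, i w' = w := by
      intro w hw
      induction hw using Algebra.adjoin_induction with
      | mem w hw =>
        rcases hw with rfl | rfl
        · refine ⟨AdjoinRoot.of _ X, ?_⟩
          rw [AdjoinRoot.lift_of]
          exact aeval_X _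
        · exact ⟨AdjoinRoot.root _, AdjoinRoot.lift_root _⟩
      | algebraMap r =>
        refine ⟨AdjoinRoot.of _ (C r), ?_⟩
        rw [AdjoinRoot.lift_of]
        exact aeval_C _ _
      | add u v _ _ hu hv =>
        obtain ⟨u', rfl⟩ := hu
        obtain ⟨v', rfl⟩ := hv
        exact ⟨u' + v', map_add _ _ _⟩
      | mul u v _ _ hu hv =>
        obtain ⟨u', rfl⟩ := hu
        obtain ⟨v', rfl⟩ := hv
        exact ⟨u' * v', map_mul _ _ _⟩
    obtain ⟨r', hr'⟩ := hrange r hr
    obtain ⟨s', hs'⟩ := hrange s hs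
    by_cases hs0 : s = 0
    · refine ⟨0, 1, ?_, ?_⟩
      · intro h1
        have h2 := congrArg i h1
        rw [map_one, map_zero] at h2
        exact one_ne_zero h2
      · rw [hrs, hs0]
        simp
    · refine ⟨r', s', ?_, ?_⟩
      · rintro rfl
        exact hs0 (by rw [← hs', map_zero])
      · rw [hrs, hs', hr', div_mul_cancel₀ _ hs0]
  · obtain ⟨p, q, rfl⟩ := root_rep g r
    have hev : ∀ m : ℕ, Gp.eval₂ (Polynomial.evalRingHom (X' m)) (Y' m) = 0 := by
      intro m
      simp only [Gp, eval₂_sub, eval₂_X_pow, eval₂_C, coe_evalRingHom]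
      rw [hgm, sub_self]
    by_contra hcon
    push Not at hcon
    have h1 : ∀ m : ℕ, (p ^ 2 - q ^ 2 * g).eval (X' m) = 0 := by
      intro m
      by_contra h2
      refine absurd (hcon (AdjoinRoot.lift (Polynomial.evalRingHom (X' m)) (Y' m) (hev m)) ?_) ?_
      · intro h3
        rw [map_add, map_mul, AdjoinRoot.lift_of, AdjoinRoot.lift_of, AdjoinRoot.lift_root,
          coe_evalRingHom] at h3
        apply h2
        rw [eval_sub, eval_mul, eval_pow, eval_pow, hgm]
        linear_combination (eval (X' m) p - eval (X' m) q * Y' m) * h3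
      · push Not
        intro e
        rw [RingHom.comp_apply, AdjoinRoot.lift_of, coe_evalRingHom, eval_C]
    have h2 : p ^ 2 - q ^ 2 * g = 0 := by
      apply Polynomial.eq_zero_of_infinite_isRoot
      refine Set.infinite_of_injective_forall_mem hXi fun m => ?_
      exact h1 m
    obtain ⟨h3, h4⟩ := sq_cubic hg3 (sub_eq_zero.1 h2)
    apply hr
    rw [h3, h4]
    simp

end

end Pool.Agent.Helper97.HR
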