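import Mathlib
import Pool.Agent.Helper97.HR.Dp2
import Pool.Agent.Helper97.HR.Core

/-! Density of the rational points of fibre powers. -/

set_option autoImplicit false
set_option linter.unusedSectionVars false

open AlgebraicGeometry CategoryTheory Polynomial

namespace Pool.Agent.Helper97.HR

section

variable {K : Type} [Field K] [CharZero K] [DecidableEq K] {a b : K} {F : Subfield K}
  {ι : Type} {x y : ι → K}

theorem dp_power (hd : dsc a b ≠ 0) (hx : AlgebraicIndependent F x) (ha : a ∈ F) (hb : b ∈ F)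
    (hy : ∀ i, y i ^ 2 = x i ^ 3 + a * x i + b)
    (Q : (cv a b).Point) (hQ : HC F Q) (hQ0 : ∀ m : ℕ, 0 < m → m • Q ≠ 0) (s : Finset ι) :
    DP F (EE F x y (s : Set ι)) := by
  classical
  induction s using Finset.induction_on with
  | empty =>
    rw [Finset.coe_empty, EE_empty]
    exact DP.refl F
  | insert i s hi ih =>
    refine ih.trans ?_
    rw [Finset.coe_insert, EE_insert]
    exact dp_curve (EE F x y s) hd (F_le F x y _ ha) (F_le F x y _ hb) Q
      (HC.mono (F_le F x y _) hQ) hQ0 (hy i) (trans_EE hx ha hb hy (by exact_mod_cast hi))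

end

/-- Rational places of the function field `K` over `k`, finite on given elements. -/
def DPF (k K : Type) [Field k] [Field K] [Algebra k K] : Prop :=
  ∀ S : Finset K, ∃ (B : Subalgebra k K) (_ : B →ₐ[k] k), (S : Set K) ⊆ B

theorem dpf_of_dp {k K : Type} [Field k] [Field K] [Algebra k K]
    (h : DP (algebraMap k K).fieldRange ⊤) : DPF k K := by
  intro S
  obtain ⟨B, φ, h1, h2, _, h4⟩ := h S (fun _ _ => trivial)
  have hBk : ∀ c : k, algebraMap k K c ∈ B := fun c => h1 ⟨c, rfl⟩
  let B' : Subalgebra k K := { B with algebraMap_mem' := hBk }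
  let e : k ≃+* (algebraMap k K).fieldRange :=
    RingEquiv.ofBijective (algebraMap k K).rangeRestrictField
      ⟨(algebraMap k K).rangeRestrictField.injective, fun z => by
        obtain ⟨w, hw⟩ := z.2
        exact ⟨w, Subtype.ext hw⟩⟩
  let φ' : B' →+* k := (e.symm : (algebraMap k K).fieldRange →+* k).comp φ
  refine ⟨B', { φ' with commutes' := fun c => ?_ }, h2⟩
  change e.symm (φ ⟨algebraMap k K c, hBk c⟩) = c
  rw [h4 _ ⟨c, rfl⟩]
  exact e.symm_apply_apply c

/-- Density of the rational points. -/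
def DensePoints (k : Type) [Field k] (X : Scheme.{0}) (f : X ⟶ Spec (CommRingCat.of k)) : Prop :=
  Dense {x : X | ∃ s : Spec (CommRingCat.of k) ⟶ X, s ≫ f = 𝟙 _ ∧ x ∈ Set.range s.base}

theorem dense_of_dpf {k : Type} [Field k] {X : Scheme.{0}} [IsIntegral X]
    (f : X ⟶ Spec (CommRingCat.of k)) [LocallyOfFiniteType f]
    {K : Type} [Field K] [Algebra k K] (e : X.functionField ≃+* K)
    (he : ∀ a, e (toFF k X f a) = algebraMap k K a) (h : DPF k K) : DensePoints k X f := by
  unfold DensePoints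
  rw [dense_iff_inter_open]
  rintro W hW ⟨w, hw⟩
  obtain ⟨U, hU, hwU, hUW⟩ := exists_isAffineOpen_mem_and_subset (X := X) (x := w)
    (U := ⟨W, hW⟩) hw
  have hneU : Nonempty U := ⟨⟨w, hwU⟩⟩
  have htop : U ≤ f ⁻¹ᵁ ⊤ := le_top
  let A0 : Algebra k Γ(X, U) := (str f U).toAlgebra
  have hft : (str f U).FiniteType := by
    have h1 : (f.appLE ⊤ U htop).hom.FiniteType :=
      f.finiteType_appLE (isAffineOpen_top _) hU htop
    refine h1.comp (RingHom.FiniteType.of_surjective _ ?_)
    exact (ConcreteCategory.bijective_of_isIso (Scheme.ΓSpecIso (CommRingCat.of k)).inv).2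
  have hft' : Algebra.FiniteType k Γ(X, U) := hft
  let ψ0 : Γ(X, U) →+* K := (e : X.functionField →+* K).comp
    (algebraMap Γ(X, U) X.functionField)
  have hψ0 : ∀ a : k, ψ0 (str f U a) = algebraMap k K a := by
    intro a
    rw [← he a, toFF_str f U a]
    rfl
  let ψ : Γ(X, U) →ₐ[k] K := { ψ0 with commutes' := hψ0 }
  classical
  obtain ⟨S, hS⟩ := hft'.out
  obtain ⟨B, φ, hB⟩ := h (S.image ψ)
  have hψB : ∀ z, ψ z ∈ B := by
    intro z
    have hz : z ∈ Algebra.adjoin k (S : Set Γ(X, U)) := by rw [hS]; trivial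
    induction hz using Algebra.adjoin_induction with
    | mem z hz => exact hB (Finset.mem_image_of_mem _ hz)
    | algebraMap r =>
      rw [AlgHom.commutes]
      exact B.algebraMap_mem r
    | add u v _ _ hu hv => rw [map_add]; exact add_mem hu hv
    | mul u v _ _ hu hv => rw [map_mul]; exact mul_mem hu hv
  let x : Γ(X, U) →ₐ[k] k := φ.comp (ψ.codRestrict B hψB)
  let xc : Γ(X, U) ⟶ CommRingCat.of k := CommRingCat.ofHom (x : Γ(X, U) →+* k)
  obtain ⟨p⟩ : Nonempty (Spec (CommRingCat.of k)) := inferInstance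
  have hs : (Spec.map xc ≫ hU.fromSpec) p ∈ U := by
    have h1 : Set.range hU.fromSpec = (U : Set X) := hU.range_fromSpec
    have h2 : hU.fromSpec (Spec.map xc p) ∈ (U : Set X) := by
      rw [← h1]
      exact ⟨_, rfl⟩
    rwa [Scheme.Hom.comp_apply]
  refine ⟨(Spec.map xc ≫ hU.fromSpec) p, hUW hs, Spec.map xc ≫ hU.fromSpec, ?_, ⟨p, rfl⟩⟩
  rw [Category.assoc, ← IsAffineOpen.SpecMap_appLE_fromSpec f (isAffineOpen_top _) hU htop,
    IsAffineOpen.fromSpec_top, Scheme.isoSpec_Spec_inv, ← Spec.map_comp, ← Spec.map_comp]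
  have h1 : ((Scheme.ΓSpecIso (CommRingCat.of k)).inv ≫ f.appLE ⊤ U htop) ≫ xc = 𝟙 _ := by
    ext a
    exact x.commutes a
  rw [h1, Spec.map_id]

end Pool.Agent.Helper97.HR
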