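import Mathlib
import Pool.Agent.Helper97.HR.Spz

/-! Specialisation of points which are independent modulo two. -/

set_option autoImplicit false
set_option linter.unusedSectionVars false

namespace Pool.Agent.Helper97.HR

open Polynomial

variable {k K : Type} [Field k] [Field K] [Algebra k K] [CharZero K] [CharZero k]
  [DecidableEq K] [DecidableEq k] {a b : K}

/-- No sum over a nonempty subset is divisible by two. -/
def Ind2 {A ι : Type} [AddCommGroup A] (G : ι → A) : Prop :=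
  ∀ μ : Finset ι, μ.Nonempty → ∀ R : A, ∑ i ∈ μ, G i ≠ R + R

theorem spec_curve (h : HPF k K) (hd : dsc a b ≠ 0) {ι : Type} [Finite ι]
    (G : ι → (cv a b).Point) (hG : Ind2 G) (T : Finset K[X]) (hT : ∀ p ∈ T, p ≠ 0)
    (S : Finset K) :
    ∃ (B : Subalgebra k K) (φ : B →ₐ[k] k) (a₀ b₀ : B), (S : Set K) ⊆ B ∧ (a₀ : K) = a ∧
      (b₀ : K) = b ∧ (∀ p ∈ T, RootsLift B φ p) ∧ dsc (φ a₀) (φ b₀) ≠ 0 ∧
      ∃ G' : ι → (cv (φ a₀) (φ b₀)).Point, Ind2 G' := by
  classical
  have := Fintype.ofFinite ι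
  -- the coordinates of the sums
  have hne : ∀ μ : Finset ι, μ.Nonempty → ∑ i ∈ μ, G i ≠ 0 := fun μ hμ h0 =>
    hG μ hμ 0 (by rw [h0, add_zero])
  have hco : ∀ μ : Finset ι, ∃ (x y : K), μ.Nonempty → ∃ e : y ^ 2 = x ^ 3 + a * x + b,
      ∑ i ∈ μ, G i = pt hd x y e := by
    intro μ
    by_cases hμ : μ.Nonempty
    · rcases pt_cases hd (∑ i ∈ μ, G i) with h0 | ⟨x, y, e, h0⟩
      · exact absurd h0 (hne μ hμ)
      · exact ⟨x, y, fun _ => ⟨e, h0⟩⟩
    · exact ⟨0, 0, fun h => absurd h hμ⟩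
  choose X' Y' hXY using hco
  -- the polynomials
  let hp : Finset ι → K[X] := fun μ => NN a b - C (4 * X' μ) * GG a b
  let T' : Finset K[X] := T ∪ (Finset.univ.image hp) ∪ Finset.univ.biUnion fun μ : Finset ι =>
    (hp μ).roots.toFinset.image fun r => X ^ 2 - C (r ^ 3 + a * r + b)
  have hT' : ∀ p ∈ T', p ≠ 0 := by
    intro p hp'
    simp only [T', Finset.mem_union, Finset.mem_image, Finset.mem_univ, true_and,
      Finset.mem_biUnion] at hp'
    rcases hp' with (h1 | ⟨μ, rfl⟩) | ⟨μ, r, _, rfl⟩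
    · exact hT p h1
    · intro h1
      have h2 : (NN a b - C (4 * X' μ) * GG a b).natDegree = 4 := by
        unfold NN GG
        compute_degree!
      change NN a b - C (4 * X' μ) * GG a b = 0 at h1
      rw [h1, natDegree_zero] at h2
      omega
    · exact X_pow_sub_C_ne_zero (by norm_num) _
  let S' : Finset K := S ∪ {a, b, (dsc a b)⁻¹} ∪ (Finset.univ.image X') ∪ (Finset.univ.image Y') ∪
    (Finset.univ.image fun q : ι × Finset ι => (X' {q.1} - X' q.2)⁻¹)
  obtain ⟨B, φ, hS, hR⟩ := roots_lift h T' hT' S'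
  have hmem : ∀ z ∈ S', z ∈ B := fun z hz => hS hz
  have haB : a ∈ B := hmem a (by simp [S'])
  have hbB : b ∈ B := hmem b (by simp [S'])
  have hdB : (dsc a b)⁻¹ ∈ B := hmem _ (by simp [S'])
  have hXB : ∀ μ, X' μ ∈ B := fun μ => hmem _ (by simp [S'])
  have hYB : ∀ μ, Y' μ ∈ B := fun μ => hmem _ (by simp [S'])
  have hIB : ∀ (i : ι) μ, (X' {i} - X' μ)⁻¹ ∈ B := fun i μ => hmem _ (by
    simp only [S', Finset.mem_union, Finset.mem_image, Finset.mem_univ, true_and]
    exact Or.inr ⟨(i, μ), rfl⟩)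
  let a₀ : B := ⟨a, haB⟩
  let b₀ : B := ⟨b, hbB⟩
  let x₀ : Finset ι → B := fun μ => ⟨X' μ, hXB μ⟩
  let y₀ : Finset ι → B := fun μ => ⟨Y' μ, hYB μ⟩
  have hd' : dsc (φ a₀) (φ b₀) ≠ 0 := by
    have h1 : dsc a₀ b₀ * ⟨(dsc a b)⁻¹, hdB⟩ = 1 := by
      apply Subtype.ext
      have h2 : ((dsc a₀ b₀ : B) : K) = dsc a b := (dsc_map (algebraMap B K) a₀ b₀).symm
      push_cast
      rw [h2]
      exact mul_inv_cancel₀ hd
    intro h2
    have h3 := congrArg φ h1
    have h4 : φ (dsc a₀ b₀) = dsc (φ a₀) (φ b₀) := (dsc_map (φ : B →+* k) a₀ b₀).symm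
    rw [map_mul, map_one, h4, h2, zero_mul] at h3
    exact zero_ne_one h3
  have hE : ∀ μ : Finset ι, μ.Nonempty → (y₀ μ) ^ 2 = (x₀ μ) ^ 3 + a₀ * x₀ μ + b₀ := by
    intro μ hμ
    obtain ⟨e, _⟩ := hXY μ hμ
    apply Subtype.ext
    push_cast
    exact e
  have hEφ : ∀ μ : Finset ι, μ.Nonempty →
      (φ (y₀ μ)) ^ 2 = (φ (x₀ μ)) ^ 3 + φ a₀ * φ (x₀ μ) + φ b₀ := by
    intro μ hμ
    have h1 := congrArg φ (hE μ hμ)
    simpa only [map_pow, map_add, map_mul] using h1
  let G' : ι → (cv (φ a₀) (φ b₀)).Point := fun i =>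
    pt hd' (φ (x₀ {i})) (φ (y₀ {i})) (hEφ {i} (Finset.singleton_nonempty i))
  -- the sums specialise
  have hsum : ∀ (μ : Finset ι) (hμ : μ.Nonempty), ∑ i ∈ μ, G' i =
      pt hd' (φ (x₀ μ)) (φ (y₀ μ)) (hEφ μ hμ) := by
    intro μ
    induction μ using Finset.induction_on with
    | empty => intro hμ; exact absurd hμ Finset.not_nonempty_empty
    | insert i μ hi ih =>
      intro hμ
      rcases Finset.eq_empty_or_nonempty μ with h0 | h0
      · subst h0
        rw [Finset.sum_insert hi, Finset.sum_empty, add_zero]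
        exact pt_congr (by rw [insert_empty_eq]) (by rw [insert_empty_eq])
      · rw [Finset.sum_insert hi, ih h0]
        obtain ⟨e1, f1⟩ := hXY {i} (Finset.singleton_nonempty i)
        obtain ⟨e2, f2⟩ := hXY μ h0
        obtain ⟨e3, f3⟩ := hXY (insert i μ) hμ
        rw [Finset.sum_singleton] at f1
        have hsumK : pt hd (X' {i}) (Y' {i}) e1 + pt hd (X' μ) (Y' μ) e2 =
            pt hd (X' (insert i μ)) (Y' (insert i μ)) e3 := by
          rw [← f1, ← f2, ← f3, Finset.sum_insert hi]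
        have hx : X' {i} - X' μ ≠ 0 := by
          intro hx0
          have hx1 : X' {i} = X' μ := sub_eq_zero.1 hx0
          have h5 : G i = ∑ j ∈ μ, G j ∨ G i = -∑ j ∈ μ, G j := by
            rw [f1, f2]
            have e1' : Y' {i} ^ 2 = X' μ ^ 3 + a * X' μ + b := by rw [← hx1]; exact e1
            have h6 : pt hd (X' {i}) (Y' {i}) e1 = pt hd (X' μ) (Y' {i}) e1' :=
              pt_congr hx1 rfl
            rw [h6]
            exact eq_or_neg
          rcases h5 with h5 | h5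
          · exact hG (insert i μ) hμ (G i) (by rw [Finset.sum_insert hi, ← h5])
          · exact hne (insert i μ) hμ (by rw [Finset.sum_insert hi, h5, neg_add_cancel])
        exact spec_add φ (a₀ := a₀) (b₀ := b₀) hd hd' (x := x₀ {i}) (y := y₀ {i}) (x' := x₀ μ)
          (y' := y₀ μ) (x'' := x₀ (insert i μ)) (y'' := y₀ (insert i μ))
          (i := ⟨(X' {i} - X' μ)⁻¹, hIB i μ⟩) (h := e1) (h' := e2) (h'' := e3)
          (mul_inv_cancel₀ hx) hsumK
  refine ⟨B, φ, a₀, b₀, fun z hz => hmem z (by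
    simp only [S', Finset.mem_union]
    exact Or.inl (Or.inl (Or.inl (Or.inl hz)))), rfl, rfl, fun p hp' => hR p (by
    simp only [T', Finset.mem_union]
    exact Or.inl (Or.inl hp')), hd', G', ?_⟩
  intro μ hμ R' hR'
  rw [hsum μ hμ] at hR'
  obtain ⟨r', s', hrs', hs', hRr', hr'⟩ := half_root hR'.symm
  -- the root
  let P : B[X] := NN a₀ b₀ - C (4 * x₀ μ) * GG a₀ b₀
  have hP : P.map (algebraMap B K) = hp μ := by
    change (NN a₀ b₀ - C (4 * x₀ μ) * GG a₀ b₀).map _ = NN a b - C (4 * X' μ) * GG a b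
    unfold NN GG
    simp only [Polynomial.map_sub, Polynomial.map_add, Polynomial.map_mul, Polynomial.map_pow,
      Polynomial.map_X, Polynomial.map_C, map_mul, map_pow]
    have e2 : algebraMap B K 2 = 2 := map_ofNat _ _
    have e4 : algebraMap B K 4 = 4 := map_ofNat _ _
    have e8 : algebraMap B K 8 = 8 := map_ofNat _ _
    rw [e2, e4, e8]
    rfl
  have hPz : (P.map (φ : B →+* k)).eval r' = 0 := by
    change ((NN a₀ b₀ - C (4 * x₀ μ) * GG a₀ b₀).map (φ : B →+* k)).eval r' = 0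
    unfold NN GG
    simp only [Polynomial.map_sub, Polynomial.map_add, Polynomial.map_mul, Polynomial.map_pow,
      Polynomial.map_X, Polynomial.map_C, map_mul, map_pow, Polynomial.eval_sub,
      Polynomial.eval_add, Polynomial.eval_mul, Polynomial.eval_pow, Polynomial.eval_X,
      Polynomial.eval_C]
    have e2 : (φ : B →+* k) 2 = 2 := map_ofNat _ _
    have e4 : (φ : B →+* k) 4 = 4 := map_ofNat _ _
    have e8 : (φ : B →+* k) 8 = 8 := map_ofNat _ _
    rw [e2, e4, e8]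
    change r' ^ 4 - 2 * φ a₀ * r' ^ 2 - 8 * φ b₀ * r' + φ a₀ ^ 2 -
      4 * φ (x₀ μ) * (r' ^ 3 + φ a₀ * r' + φ b₀) = 0
    linear_combination hr'
  obtain ⟨r, hr0, hrr⟩ := hR (hp μ) (by
    simp only [T', Finset.mem_union, Finset.mem_image, Finset.mem_univ, true_and]
    exact Or.inl (Or.inr ⟨μ, rfl⟩)) P hP r' hPz
  have hpμ : hp μ ≠ 0 := hT' _ (by
    simp only [T', Finset.mem_union, Finset.mem_image, Finset.mem_univ, true_and]
    exact Or.inl (Or.inr ⟨μ, rfl⟩))
  -- the second coordinate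
  let P₂ : B[X] := X ^ 2 - C (r ^ 3 + a₀ * r + b₀)
  have hP₂ : P₂.map (algebraMap B K) = X ^ 2 - C ((r : K) ^ 3 + a * r + b) := by
    change (X ^ 2 - C (r ^ 3 + a₀ * r + b₀) : B[X]).map _ = _
    simp only [Polynomial.map_sub, Polynomial.map_pow, Polynomial.map_X, Polynomial.map_C]
    rfl
  have hPz₂ : (P₂.map (φ : B →+* k)).eval s' = 0 := by
    change ((X ^ 2 - C (r ^ 3 + a₀ * r + b₀) : B[X]).map (φ : B →+* k)).eval s' = 0
    simp only [Polynomial.map_sub, Polynomial.map_pow, Polynomial.map_X, Polynomial.map_C,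
      Polynomial.eval_sub, Polynomial.eval_pow, Polynomial.eval_X, Polynomial.eval_C]
    change s' ^ 2 - φ (r ^ 3 + a₀ * r + b₀) = 0
    rw [map_add, map_add, map_mul, map_pow, hrr, hrs']
    ring
  obtain ⟨s, hs0, _⟩ := hR (X ^ 2 - C ((r : K) ^ 3 + a * r + b)) (by
    simp only [T', Finset.mem_union, Finset.mem_image, Finset.mem_univ, true_and,
      Finset.mem_biUnion]
    exact Or.inr ⟨μ, (r : K), Multiset.mem_toFinset.2 ((mem_roots hpμ).2 hr0), rfl⟩) P₂ hP₂ s' hPz₂
  have hs1 : (s : K) ^ 2 = (r : K) ^ 3 + a * r + b := by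
    simpa [sub_eq_zero] using hs0
  have hr1 : (r : K) ^ 4 - 2 * a * (r : K) ^ 2 - 8 * b * r + a ^ 2 -
      X' μ * (4 * ((r : K) ^ 3 + a * r + b)) = 0 := by
    have h1 : (NN a b - C (4 * X' μ) * GG a b).eval (r : K) = 0 := hr0
    unfold NN GG at h1
    simp only [Polynomial.eval_sub, Polynomial.eval_add, Polynomial.eval_mul, Polynomial.eval_pow,
      Polynomial.eval_X, Polynomial.eval_C] at h1
    linear_combination h1
  obtain ⟨e, f⟩ := hXY μ hμ
  rcases root_half (hd := hd) (h := e) hs1 hr1 with h1 | h1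
  · exact hG μ hμ _ (f.trans h1.symm)
  · refine hG μ hμ (-pt hd (r : K) s hs1) ?_
    rw [f, ← neg_add, h1, neg_neg]

end Pool.Agent.Helper97.HR
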