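import Mathlib
import Pool.Agent.Helper97.HR.SpC

/-! From independence modulo two to independence over the integers. -/

set_option autoImplicit false
set_option linter.unusedSectionVars false

namespace Pool.Agent.Helper97.HR

open DirectSum

theorem card_quot_two {T : Type} [AddCommGroup T] [Finite T] :
    Nat.card (T ⧸ (zsmulAddGroupHom (α := T) 2).range) = Nat.card (zsmulAddGroupHom (α := T) 2).ker := by
  set f := zsmulAddGroupHom (α := T) 2
  have h1 := AddSubgroup.card_eq_card_quotient_mul_card_addSubgroup f.range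
  have h2 := AddSubgroup.card_eq_card_quotient_mul_card_addSubgroup f.ker
  have h3 : Nat.card (T ⧸ f.ker) = Nat.card f.range :=
    Nat.card_congr (QuotientAddGroup.quotientKerEquivRange f).toEquiv
  rw [h3, h1, mul_comm] at h2
  have h4 : 0 < Nat.card f.range := Nat.card_pos
  exact Nat.eq_of_mul_eq_mul_left h4 h2

theorem ind2_rank {A ι : Type} [AddCommGroup A] [Fintype ι] (G : ι → A) (hG : Ind2 G) (τ : ℕ)
    (hf : {T : A | T + T = 0}.Finite) (hτ : {T : A | T + T = 0}.ncard ≤ 2 ^ τ) (m : ℕ)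
    (hm : m + τ ≤ Fintype.card ι) : ∃ P : Fin m → A, LinearIndependent ℤ P := by
  classical
  let M := Submodule.span ℤ (Set.range G)
  have hMG : ∀ i, G i ∈ M := fun i => Submodule.subset_span ⟨i, rfl⟩
  have hfin : Module.Finite ℤ M := Module.Finite.span_of_finite ℤ (Set.finite_range G)
  have hfg : AddGroup.FG M := Module.Finite.iff_addGroup_fg.1 hfin
  obtain ⟨n, κ, _, p, hp, e, ⟨E⟩⟩ := AddCommGroup.equiv_free_prod_directSum_zmod M
  let T := ⨁ i, ZMod (p i ^ e i)
  have hT : Finite T := by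
    have h1 : ∀ i, NeZero (p i ^ e i) := fun i => ⟨pow_ne_zero _ (hp i).ne_zero⟩
    have h2 : Finite (∀ i, ZMod (p i ^ e i)) := inferInstance
    exact Finite.of_equiv _ (DirectSum.addEquivProd (fun i => ZMod (p i ^ e i))).symm.toEquiv
  let f2 := zsmulAddGroupHom (α := T) 2
  have hf2 : ∀ t : T, f2 t = (2 : ℤ) • t := fun t => rfl
  let s : Finset ι → M := fun μ => ∑ i ∈ μ, ⟨G i, hMG i⟩
  have hs : ∀ μ, ((s μ : M) : A) = ∑ i ∈ μ, G i := fun μ => by
    simp only [s]
    rw [AddSubmonoidClass.coe_finsetSum]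
  let F : Finset ι → (Fin n → ZMod 2) × (T ⧸ f2.range) := fun μ =>
    (fun j => (((E (s μ)).1 j : ℤ) : ZMod 2), QuotientAddGroup.mk (E (s μ)).2)
  have hF : Function.Injective F := by
    intro μ ν hμν
    have h1 : ∀ j, (2 : ℤ) ∣ (E (s μ)).1 j - (E (s ν)).1 j := by
      intro j
      have h2 := congrFun (congrArg Prod.fst hμν) j
      have h3 : (((E (s μ)).1 j : ℤ) : ZMod 2) = (((E (s ν)).1 j : ℤ) : ZMod 2) := h2
      have h4 := (ZMod.intCast_eq_intCast_iff_dvd_sub _ _ 2).1 h3.symm
      exact_mod_cast h4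
    have h2 : (E (s μ)).2 - (E (s ν)).2 ∈ f2.range := by
      have h3 := congrArg Prod.snd hμν
      have h4 := (QuotientAddGroup.eq (s := f2.range)).1 h3.symm
      rwa [neg_add_eq_sub] at h4
    choose z hz using h1
    obtain ⟨t, ht⟩ := h2
    have h3 : E (s μ) - E (s ν) = (2 : ℤ) • (Finsupp.equivFunOnFinite.symm z, t) := by
      apply Prod.ext
      · ext j
        rw [Prod.fst_sub, Finsupp.sub_apply, hz j]
        simp
      · rw [Prod.snd_sub, ← ht, hf2]
        rfl
    obtain ⟨w, hw⟩ := E.surjective (Finsupp.equivFunOnFinite.symm z, t)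
    have h4 : s μ - s ν = (2 : ℤ) • w := by
      apply E.injective
      rw [map_sub, map_zsmul, hw, h3]
    have h5 : ∑ i ∈ μ, G i - ∑ i ∈ ν, G i = (w : A) + w := by
      rw [← hs, ← hs, ← AddSubgroupClass.coe_sub, h4, two_smul]
      rfl
    by_contra hne
    have h6 : (symmDiff μ ν).Nonempty := Finset.symmDiff_nonempty.2 hne
    refine hG _ h6 ((w : A) + ∑ i ∈ ν \ μ, G i) ?_
    have h7 : ∑ i ∈ symmDiff μ ν, G i = ∑ i ∈ μ \ ν, G i + ∑ i ∈ ν \ μ, G i := by
      have h8 : symmDiff μ ν = (μ \ ν) ∪ (ν \ μ) := rfl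
      rw [h8, Finset.sum_union]
      exact disjoint_sdiff_sdiff
    have h8 := Finset.sum_sdiff_sub_sum_sdiff (s₁ := ν) (s₂ := μ) (f := G)
    rw [h7]
    rw [h5] at h8
    have h9 : ∑ i ∈ μ \ ν, G i = (w : A) + w + ∑ i ∈ ν \ μ, G i := by
      rw [← h8]
      abel
    rw [h9]
    abel
  -- cardinalities
  have hc1 : 2 ^ Fintype.card ι ≤ 2 ^ n * 2 ^ τ := by
    have h1 := Nat.card_le_card_of_injective F hF
    rw [Nat.card_eq_fintype_card, Fintype.card_finset, Nat.card_prod, Nat.card_fun,
      Nat.card_eq_fintype_card, ZMod.card, Nat.card_eq_fintype_card, Fintype.card_fin,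
      card_quot_two] at h1
    refine h1.trans (Nat.mul_le_mul_left _ ?_)
    refine le_trans ?_ hτ
    rw [← Nat.card_coe_set_eq]
    have : Finite {T : A | T + T = 0} := hf
    refine Nat.card_le_card_of_injective (fun t : f2.ker => (⟨((E.symm (0, (t : T)) : M) : A), ?_⟩ :
      {T : A | T + T = 0})) ?_
    · have h3 : E.symm (0, (t : T)) + E.symm (0, (t : T)) = 0 := by
        have h4 : (t : T) + t = 0 := by
          have h5 : f2 t = 0 := t.2
          rw [hf2, two_smul] at h5
          exact h5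
        rw [← map_add, Prod.mk_add_mk, h4, add_zero]
        exact map_zero _
      exact congrArg Subtype.val h3
    · intro t t' h
      have h3 := congrArg Subtype.val h
      have h4 := E.symm.injective (Subtype.ext h3)
      exact Subtype.ext (congrArg Prod.snd h4)
  have hmn : m ≤ n := by
    rw [← pow_add] at hc1
    have := (Nat.pow_le_pow_iff_right (by norm_num)).1 hc1
    omega
  -- the family
  let g : (Fin n →₀ ℤ) →ₗ[ℤ] A := M.subtype ∘ₗ (E.symm.toAddMonoidHom.toIntLinearMap ∘ₗ
    LinearMap.inl ℤ (Fin n →₀ ℤ) T)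
  have hg : LinearMap.ker g = ⊥ := by
    rw [LinearMap.ker_eq_bot]
    intro z z' h
    have h1 : E.symm (z, 0) = E.symm (z', 0) := Subtype.ext h
    exact congrArg Prod.fst (E.symm.injective h1)
  refine ⟨fun j => g (Finsupp.single (Fin.castLE hmn j) 1), ?_⟩
  have h1 : LinearIndependent ℤ (fun j : Fin n => (Finsupp.single j 1 : Fin n →₀ ℤ)) := by
    have := (Finsupp.basisSingleOne (R := ℤ) (ι := Fin n)).linearIndependent
    rwa [Finsupp.coe_basisSingleOne] at this
  exact (h1.map' g hg).comp _ (Fin.castLE_injective hmn)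

end Pool.Agent.Helper97.HR
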