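import Mathlib
import Pool.Agent.Helper97.HR.Dp3
import Pool.Agent.Helper97.HR.SpC
import Pool.Agent.Helper97.HR.Rank

/-! Ranks of the fibres. -/

set_option autoImplicit false
set_option linter.unusedSectionVars false

open Polynomial

namespace Pool.Agent.Helper97.HR

theorem alg_mono {K : Type} [Field K] {F E : Subfield K} (h : F ≤ E) {z : K}
    (hz : IsAlgebraic F z) : IsAlgebraic E z := by
  obtain ⟨p, hp, h0⟩ := hz
  refine ⟨p.map (Subfield.inclusion h), ?_, ?_⟩
  · rwa [Ne, Polynomial.map_eq_zero]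
  · rw [aeval_def, eval₂_map]
    exact h0

section

variable {K : Type} [Field K] [CharZero K] [DecidableEq K] {a b : K} {F : Subfield K}
  {ι : Type} {x y : ι → K}

theorem alg_mem (hx : AlgebraicIndependent F x) (ha : a ∈ F) (hb : b ∈ F)
    (hy : ∀ i, y i ^ 2 = x i ^ 3 + a * x i + b) (s : Finset ι) (z : K)
    (hz : z ∈ EE F x y (s : Set ι)) (halg : IsAlgebraic F z) : z ∈ F := by
  classical
  induction s using Finset.induction_on with
  | empty =>
    rw [Finset.coe_empty, EE_empty] at hz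
    exact hz
  | insert i s hi ih =>
    apply ih
    rw [Finset.coe_insert, EE_insert] at hz
    have hg : y i ^ 2 = aeval (x i) (GG (⟨a, F_le F x y s ha⟩ : EE F x y s)
        (⟨b, F_le F x y s hb⟩ : EE F x y s)) := by
      unfold GG
      simp only [map_add, map_mul, map_pow, aeval_X, aeval_C]
      exact hy i
    have hodd : Odd (GG (⟨a, F_le F x y s ha⟩ : EE F x y s)
        (⟨b, F_le F x y s hb⟩ : EE F x y s)).natDegree := by
      rw [natDegree_GG]
      decide
    obtain ⟨w, hw⟩ := const_of_alg _ hg hodd (trans_EE hx ha hb hy (by exact_mod_cast hi))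
      (alg_mono (F_le F x y s) halg) hz
    rw [← hw]
    exact w.2

theorem tors_iff (hd : dsc a b ≠ 0) (T : (cv a b).Point) : T + T = 0 ↔
    T = 0 ∨ ∃ (r : K) (h : (0 : K) ^ 2 = r ^ 3 + a * r + b), T = pt hd r 0 h := by
  constructor
  · intro h0
    rcases pt_cases hd T with h1 | ⟨r, s, h, h1⟩
    · exact Or.inl h1
    · right
      have hs : s = 0 := by
        by_contra hs
        obtain ⟨h3, h4⟩ := add_self (hd := hd) (h := h) hs
        rw [h1, h4] at h0
        exact pt_ne h0
      subst hs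
      exact ⟨r, h, h1⟩
  · rintro (rfl | ⟨r, h, rfl⟩)
    · rw [add_zero]
    · exact add_self_zero rfl

theorem tors_finite (hd : dsc a b ≠ 0) : {T : (cv a b).Point | T + T = 0}.Finite := by
  have h1 : {T : (cv a b).Point | T + T = 0} ⊆ insert 0 ((fun r : K =>
      if h : (0 : K) ^ 2 = r ^ 3 + a * r + b then pt hd r 0 h else 0) ''
        ((GG a b).roots.toFinset : Set K)) := by
    intro T hT
    rcases (tors_iff hd T).1 hT with h0 | ⟨r, h, h0⟩
    · exact Or.inl h0
    · right
      refine ⟨r, ?_, ?_⟩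
      · rw [Finset.mem_coe, Multiset.mem_toFinset, mem_roots (by
          intro h1
          have h2 := natDegree_GG (a := a) (b := b)
          rw [h1, natDegree_zero] at h2
          omega)]
        change (GG a b).eval r = 0
        unfold GG
        simp only [eval_add, eval_mul, eval_pow, eval_X, eval_C]
        rw [← h]
        ring
      · change (if h : (0 : K) ^ 2 = r ^ 3 + a * r + b then pt hd r 0 h else 0) = T
        rw [dif_pos h, h0]
  exact Set.Finite.subset (Set.Finite.insert _ (Set.Finite.image _ (Finset.finite_toSet _))) h1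

end

section main

variable {k K : Type} [Field k] [CharZero k] [DecidableEq k] [Field K] [CharZero K]
  [DecidableEq K] [Algebra k K] {t : K} {A B : k[X]} {n : ℕ} {x y : Fin n → K}

/-- The rank part over the function field. -/
theorem rank_of_hpf (h : HPF k K) (F : Subfield K) (hF : F = (IntermediateField.adjoin k {t}).toSubfield)
    (hd : dsc (aeval t A) (aeval t B) ≠ 0) (hx : AlgebraicIndependent F x)
    (hy : ∀ i, y i ^ 2 = x i ^ 3 + aeval t A * x i + aeval t B)
    (htop : EE F x y Set.univ = ⊤) {s : ℕ} (S : Fin s → (cv (aeval t A) (aeval t B)).Point)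
    (hS : ∀ j, HC F (S j))
    (hS2 : ∀ (μ : Finset (Fin s)), μ.Nonempty → ∀ R, HC F R → ∑ j ∈ μ, S j ≠ R + R)
    (τ : ℕ) (hτ : {P : (cv (aeval t A) (aeval t B)).Point | HC F P ∧ P + P = 0}.ncard ≤ 2 ^ τ)
    (q : ℕ) (H : Fin q → k[X][X])
    (hH : ∀ j, ∀ r ∈ F, (H j).eval₂ (aeval t : k[X] →ₐ[k] K).toRingHom r ≠ 0)
    (m : ℕ) (hm : m + τ ≤ n + s) :
    ∃ t₀ : k, dsc (A.eval t₀) (B.eval t₀) ≠ 0 ∧
      (∀ j, ∀ c : k, ((H j).map (evalRingHom t₀)).eval c ≠ 0) ∧
      ∃ P : Fin m → (cv (A.eval t₀) (B.eval t₀)).Point, LinearIndependent ℤ P := by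
  classical
  have hkF : ∀ p : k[X], aeval t p ∈ F := by
    intro p
    rw [hF]
    exact IntermediateField.algebra_adjoin_le_adjoin _ _ (Polynomial.aeval_mem_adjoin_singleton _ _)
  have ha : aeval t A ∈ F := hkF A
  have hb : aeval t B ∈ F := hkF B
  -- the family
  let G : Fin n ⊕ Fin s → (cv (aeval t A) (aeval t B)).Point :=
    Sum.elim (fun i => pt hd (x i) (y i) (hy i)) S
  have hG : Ind2 G := indep2 hd hx ha hb hy htop S hS hS2 G (fun i => rfl) (fun j => rfl)
  let HK : Fin q → K[X] := fun j => (H j).map (aeval t : k[X] →ₐ[k] K).toRingHom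
  have hHK : ∀ j, ∀ r ∈ F, (HK j).eval r ≠ 0 := by
    intro j r hr h0
    exact hH j r hr (by rwa [Polynomial.eval_map] at h0)
  have hHK0 : ∀ j, HK j ≠ 0 := fun j h0 => hHK j 0 F.zero_mem (by rw [h0, Polynomial.eval_zero])
  have hHKK : ∀ j, ∀ r : K, (HK j).eval r ≠ 0 := by
    intro j r h0
    refine hHK j r ?_ h0
    refine alg_mem hx ha hb hy Finset.univ r ?_ ?_
    · rw [Finset.coe_univ, htop]
      trivial
    · have hl : HK j ∈ Polynomial.lifts (algebraMap F K) := by
        rw [Polynomial.lifts_iff_coeff_lifts]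
        intro i
        change ((H j).map (aeval t : k[X] →ₐ[k] K).toRingHom).coeff i ∈ _
        rw [coeff_map]
        exact ⟨⟨_, hkF _⟩, rfl⟩
      obtain ⟨p, hp⟩ := (Polynomial.mem_lifts _).1 hl
      refine ⟨p, ?_, ?_⟩
      · rintro rfl
        rw [Polynomial.map_zero] at hp
        exact hHK0 j hp.symm
      · rw [← Polynomial.eval_map_algebraMap, hp]
        exact h0
  let T : Finset K[X] := {GG (aeval t A) (aeval t B)} ∪ Finset.univ.image HK
  have hGG0 : GG (aeval t A) (aeval t B) ≠ 0 := by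
    intro h1
    have h2 := natDegree_GG (a := aeval t A) (b := aeval t B)
    rw [h1, natDegree_zero] at h2
    omega
  have hT : ∀ p ∈ T, p ≠ 0 := by
    intro p hp
    rcases Finset.mem_union.1 hp with h1 | h1
    · rw [Finset.mem_singleton.1 h1]
      exact hGG0
    · obtain ⟨j, _, rfl⟩ := Finset.mem_image.1 h1
      exact hHK0 j
  obtain ⟨B', φ, a₀, b₀, htB, ha₀, hb₀, hRL, hd', G', hG'⟩ := spec_curve h hd G hG T hT {t}
  have ht : t ∈ B' := htB (by simp)
  let t₀ : k := φ ⟨t, ht⟩
  have hAe : ∀ p : k[X], φ (aeval (⟨t, ht⟩ : B') p) = p.eval t₀ := by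
    intro p
    rw [← Polynomial.aeval_algHom_apply]
    exact (Polynomial.coe_aeval_eq_eval t₀ ▸ rfl)
  have hae : ∀ p : k[X], ((aeval (⟨t, ht⟩ : B') p : B') : K) = aeval t p := by
    intro p
    exact (Polynomial.aeval_algHom_apply B'.val (⟨t, ht⟩ : B') p).symm
  have ha₀' : a₀ = aeval (⟨t, ht⟩ : B') A := Subtype.ext (by rw [ha₀, hae])
  have hb₀' : b₀ = aeval (⟨t, ht⟩ : B') B := Subtype.ext (by rw [hb₀, hae])
  have hφa : φ a₀ = A.eval t₀ := by rw [ha₀', hAe]
  have hφb : φ b₀ = B.eval t₀ := by rw [hb₀', hAe]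
  refine ⟨t₀, by rw [← hφa, ← hφb]; exact hd', fun j c hc => ?_, ?_⟩
  · let P : B'[X] := (H j).map (aeval (⟨t, ht⟩ : B') : k[X] →ₐ[k] B').toRingHom
    have hP : P.map (algebraMap B' K) = HK j := by
      change ((H j).map _).map _ = (H j).map _
      rw [Polynomial.map_map]
      congr 1
      ext p
      · exact hae (C p)
      · exact hae X
    obtain ⟨r, hr, _⟩ := hRL (HK j) (Finset.mem_union_right _ (Finset.mem_image_of_mem _
      (Finset.mem_univ j))) P hP c (by
        rw [← hc]
        change (((H j).map _).map _).eval c = _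
        rw [Polynomial.map_map]
        congr 2
        ext p
        · exact hAe (C p)
        · exact hAe X)
    exact hHKK j r hr
  · rw [← hφa, ← hφb]
    refine ind2_rank G' hG' τ (tors_finite hd') (le_trans ?_ hτ) m (by simpa using hm)
    -- the torsion
    have hrel : ∀ T' : (cv (φ a₀) (φ b₀)).Point, T' + T' = 0 →
        ∃ P : (cv (aeval t A) (aeval t B)).Point, (HC F P ∧ P + P = 0) ∧
          ((T' = 0 ∧ P = 0) ∨ ∃ (r : B') (h1 : (0 : k) ^ 2 = φ r ^ 3 + φ a₀ * φ r + φ b₀)
            (h2 : (0 : K) ^ 2 = (r : K) ^ 3 + aeval t A * r + aeval t B),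
            T' = pt hd' (φ r) 0 h1 ∧ P = pt hd r 0 h2) := by
      intro T' hT'
      rcases (tors_iff hd' T').1 hT' with h0 | ⟨r', h1, h0⟩
      · exact ⟨0, ⟨HC.zero, by rw [add_zero]⟩, Or.inl ⟨h0, rfl⟩⟩
      · let P : B'[X] := GG a₀ b₀
        have hP : P.map (algebraMap B' K) = GG (aeval t A) (aeval t B) := by
          rw [← ha₀, ← hb₀]
          change (GG a₀ b₀).map _ = _
          unfold GG
          simp only [Polynomial.map_add, Polynomial.map_mul, Polynomial.map_pow,
            Polynomial.map_X, Polynomial.map_C]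
          rfl
        obtain ⟨r, hr, hφr⟩ := hRL (GG (aeval t A) (aeval t B)) (Finset.mem_union_left _
          (Finset.mem_singleton_self _)) P hP r' (by
            change ((GG a₀ b₀).map _).eval r' = 0
            unfold GG
            simp only [Polynomial.map_add, Polynomial.map_mul, Polynomial.map_pow,
              Polynomial.map_X, Polynomial.map_C, eval_add, eval_mul, eval_pow, eval_X, eval_C]
            change r' ^ 3 + φ a₀ * r' + φ b₀ = 0
            rw [← h1]
            ring)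
        have h2 : (0 : K) ^ 2 = (r : K) ^ 3 + aeval t A * r + aeval t B := by
          unfold GG at hr
          simp only [eval_add, eval_mul, eval_pow, eval_X, eval_C] at hr
          rw [hr]
          ring
        refine ⟨pt hd r 0 h2, ⟨?_, add_self_zero rfl⟩, Or.inr ⟨r, by rw [hφr]; exact h1, h2, ?_, rfl⟩⟩
        · refine half_const hd hx ha hb hy Finset.univ _ ?_ ?_
          · rw [Finset.coe_univ, htop]
            intro _ _ _ _
            exact ⟨trivial, trivial⟩
          · rw [add_self_zero rfl]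
            exact HC.zero
        · rw [h0]
          exact pt_congr hφr.symm rfl
    choose! ψ hψ1 hψ2 using hrel
    refine Set.ncard_le_ncard_of_injOn ψ (fun T' hT' => hψ1 T' hT') ?_
      ((tors_finite hd).subset fun P hP => hP.2)
    intro T₁ hT₁ T₂ hT₂ h12
    rcases hψ2 T₁ hT₁ with ⟨h1, h2⟩ | ⟨r, h1, h2, h3, h4⟩ <;>
    rcases hψ2 T₂ hT₂ with ⟨h1', h2'⟩ | ⟨r', h1', h2', h3', h4'⟩
    · rw [h1, h1']
    · rw [h2, h4'] at h12
      exact absurd h12.symm pt_ne
    · rw [h2', h4] at h12
      exact absurd h12 pt_ne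
    · rw [h4, h4', pt_inj] at h12
      have h5 : r = r' := Subtype.ext h12.1
      subst h5
      rw [h3, h3']

/-- The same with the coefficients named. -/
theorem rank_of_hpf' {a b : K} (haA : a = aeval t A) (hbB : b = aeval t B)
    (h : HPF k K) (F : Subfield K) (hF : F = (IntermediateField.adjoin k {t}).toSubfield)
    (hd : dsc a b ≠ 0) (hx : AlgebraicIndependent F x)
    (hy : ∀ i, y i ^ 2 = x i ^ 3 + a * x i + b)
    (htop : EE F x y Set.univ = ⊤) {s : ℕ} (S : Fin s → (cv a b).Point)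
    (hS : ∀ j, HC F (S j))
    (hS2 : ∀ (μ : Finset (Fin s)), μ.Nonempty → ∀ R, HC F R → ∑ j ∈ μ, S j ≠ R + R)
    (τ : ℕ) (hτ : {P : (cv a b).Point | HC F P ∧ P + P = 0}.ncard ≤ 2 ^ τ)
    (q : ℕ) (H : Fin q → k[X][X])
    (hH : ∀ j, ∀ r ∈ F, (H j).eval₂ (aeval t : k[X] →ₐ[k] K).toRingHom r ≠ 0)
    (m : ℕ) (hm : m + τ ≤ n + s) :
    ∃ t₀ : k, dsc (A.eval t₀) (B.eval t₀) ≠ 0 ∧
      (∀ j, ∀ c : k, ((H j).map (evalRingHom t₀)).eval c ≠ 0) ∧
      ∃ P : Fin m → (cv (A.eval t₀) (B.eval t₀)).Point, LinearIndependent ℤ P := by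
  subst haA
  subst hbB
  exact rank_of_hpf h F hF hd hx hy htop S hS hS2 τ hτ q H hH m hm

end main

end Pool.Agent.Helper97.HR
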