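import Mathlib
import Pool.Agent.Helper97.HR.Asm

/-! The quadratic twist of a constant elliptic curve by its own equation. -/

set_option autoImplicit false
set_option linter.unusedSectionVars false

open Polynomial

namespace Pool.Agent.Helper97.HR

variable {K : Type} [Field K] [CharZero K] [DecidableEq K]

theorem no_half (E : Subfield K) {a b : K} (hd : dsc a b ≠ 0) (ha : a ∈ E) (hb : b ∈ E) {u ρ : K}
    (hu : Transcendental E u) (hρ : ρ ∈ IntermediateField.adjoin E {u})
    (hGρ : ρ ^ 3 + a * ρ + b ≠ 0) :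
    ρ ^ 4 - 2 * a * ρ ^ 2 - 8 * b * ρ + a ^ 2 - u * (4 * (ρ ^ 3 + a * ρ + b)) ≠ 0 := by
  intro hr
  let aE : E := ⟨a, ha⟩
  let bE : E := ⟨b, hb⟩
  have hdE : dsc aE bE ≠ 0 := by
    intro h1
    apply hd
    have h2 := dsc_map (algebraMap E K) aE bE
    rw [h1, map_zero] at h2
    exact h2
  have hG : ∀ z : K, aeval z (GG aE bE) = z ^ 3 + a * z + b := by
    intro z
    unfold GG
    simp only [map_add, map_mul, map_pow, aeval_X, aeval_C]
    rfl
  have hN : ∀ z : K, aeval z (NN aE bE) = z ^ 4 - 2 * a * z ^ 2 - 8 * b * z + a ^ 2 := by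
    intro z
    unfold NN
    simp only [map_add, map_sub, map_mul, map_pow, aeval_X, aeval_C]
    have e2 : algebraMap E K 2 = 2 := map_ofNat _ _
    have e8 : algebraMap E K 8 = 8 := map_ofNat _ _
    rw [e2, e8]
    rfl
  have hrt : Transcendental E ρ := by
    intro hra
    apply hu
    have h1 : u = aeval ρ (NN aE bE) / (4 * aeval ρ (GG aE bE)) := by
      rw [hN, hG, eq_div_iff (mul_ne_zero (by norm_num) hGρ)]
      linear_combination -hr
    rw [h1]
    have h4 : IsAlgebraic E (4 : K) := by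
      have : (4 : K) = algebraMap E K 4 := (map_ofNat _ _).symm
      rw [this]
      exact isAlgebraic_algebraMap _
    rw [div_eq_mul_inv]
    exact (alg_aeval hra _).mul (h4.mul (alg_aeval hra _)).inv
  obtain ⟨p, q, hpq⟩ := (IntermediateField.mem_adjoin_simple_iff E ρ).1 hρ
  by_cases hq : aeval u q = 0
  · rw [hq, div_zero] at hpq
    apply hrt
    rw [hpq]
    exact isAlgebraic_zero
  · let c : Fin 3 → E[X] := ![p, -q, 0]
    have hc : ∑ j, aeval u (c j) * ρ ^ (j : ℕ) = 0 := by
      rw [Fin.sum_univ_three]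
      change aeval u p * ρ ^ 0 + aeval u (-q) * ρ ^ 1 + aeval u (0 : E[X]) * ρ ^ 2 = 0
      rw [hpq, map_neg, map_zero]
      field_simp
      ring
    have h1 := indep3 hrt (N := NN aE bE) (D := Polynomial.C 4 * GG aE bE) (by rw [natDegree_GG4])
      ((isCoprime_mul_unit_left_left (isUnit_C.2 (isUnit_iff_ne_zero.2 (by norm_num))) _ _).2
        (coprime_NG hdE)) (by
          rw [map_mul, aeval_C, hN, hG]
          have e4 : algebraMap E K 4 = 4 := map_ofNat _ _
          rw [e4]
          linear_combination -hr) ((Finset.univ.sup fun j => (c j).natDegree) + 1) c (fun j => by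
        refine lt_of_le_of_lt Polynomial.degree_le_natDegree ?_
        rw [Nat.cast_lt]
        exact Nat.lt_succ_of_le (Finset.le_sup (f := fun j => (c j).natDegree)
          (Finset.mem_univ j))) hc 1
    have h2 : -q = 0 := h1
    rw [neg_eq_zero] at h2
    exact hq (by rw [h2, map_zero])

theorem no_sq (E : Subfield K) {a b : K} (ha : a ∈ E) (hb : b ∈ E) {t w c : K}
    (ht : Transcendental E t) (hw : w ∈ IntermediateField.adjoin E {t}) (hc : c ∈ E)
    (hc0 : c ≠ 0) : w ^ 2 ≠ c * (t ^ 3 + a * t + b) := by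
  intro h
  let aE : E := ⟨a, ha⟩
  let bE : E := ⟨b, hb⟩
  have hG : aeval t (C (⟨c, hc⟩ : E) * GG aE bE) = c * (t ^ 3 + a * t + b) := by
    unfold GG
    simp only [map_add, map_mul, map_pow, aeval_X, aeval_C]
    rfl
  have hdeg : (C (⟨c, hc⟩ : E) * GG aE bE).natDegree = 3 := by
    rw [natDegree_C_mul (fun h0 => hc0 (congrArg Subtype.val h0)), natDegree_GG]
  obtain ⟨p, q, hpq⟩ := (IntermediateField.mem_adjoin_simple_iff E w).1 hw
  have hinj : ∀ p : E[X], aeval t p = 0 → p = 0 := fun p hp => transcendental_iff.1 ht p hp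
  by_cases hq : aeval t q = 0
  · rw [hpq, hq, div_zero, ← hG] at h
    have h1 := hinj _ (h.symm.trans (by ring))
    rw [h1, natDegree_zero] at hdeg
    omega
  · have h1 : p ^ 2 = q ^ 2 * (C (⟨c, hc⟩ : E) * GG aE bE) := by
      rw [← sub_eq_zero]
      apply hinj
      rw [map_sub, map_mul, map_pow, map_pow, hG, ← h, hpq]
      field_simp
      ring
    obtain ⟨_, h3⟩ := sq_cubic hdeg h1
    exact hq (by rw [h3, map_zero])

section tw

variable (k₀ : Subfield K) {a b : K} (hd0 : dsc a b ≠ 0) (ha : a ∈ k₀) (hb : b ∈ k₀) {t : K}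
  (ht : Transcendental k₀ t)

/-- the value of the cubic -/
def fv (a b t : K) : K := t ^ 3 + a * t + b

include ha hb ht in
theorem fv_ne : fv a b t ≠ 0 := by
  intro h0
  have h1 := no_sq k₀ ha hb ht (w := 0) (zero_mem _) (c := 1) (one_mem _) one_ne_zero
  apply h1
  have h2 : t ^ 3 + a * t + b = 0 := h0
  rw [h2]
  ring

include hd0 ha hb ht in
theorem dsc_tw : dsc (a * fv a b t ^ 2) (b * fv a b t ^ 3) ≠ 0 := by
  have h1 : dsc (a * fv a b t ^ 2) (b * fv a b t ^ 3) = fv a b t ^ 6 * dsc a b := by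
    unfold dsc
    ring
  rw [h1]
  exact mul_ne_zero (pow_ne_zero _ (fv_ne k₀ ha hb ht)) hd0

theorem s0_eq (a b t : K) : (fv a b t ^ 2) ^ 2 = (t * fv a b t) ^ 3 +
    a * fv a b t ^ 2 * (t * fv a b t) + b * fv a b t ^ 3 := by
  have h : fv a b t ^ 3 * (t ^ 3 + a * t + b) = fv a b t ^ 3 * fv a b t := rfl
  linear_combination -h

/-- scaling of the halving quartic -/
theorem scale_half {a b f r s u : K} (hf : f ≠ 0)
    (hrs : s ^ 2 = r ^ 3 + a * f ^ 2 * r + b * f ^ 3) (hs : s ≠ 0)
    (hr : r ^ 4 - 2 * (a * f ^ 2) * r ^ 2 - 8 * (b * f ^ 3) * r + (a * f ^ 2) ^ 2 -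
      u * (4 * (r ^ 3 + a * f ^ 2 * r + b * f ^ 3)) = 0) :
    (r / f) ^ 3 + a * (r / f) + b ≠ 0 ∧
    (r / f) ^ 4 - 2 * a * (r / f) ^ 2 - 8 * b * (r / f) + a ^ 2 -
      (u / f) * (4 * ((r / f) ^ 3 + a * (r / f) + b)) = 0 := by
  have h1 : (r / f) ^ 3 + a * (r / f) + b = s ^ 2 / f ^ 3 := by
    rw [hrs]
    field_simp
  refine ⟨by rw [h1]; exact div_ne_zero (pow_ne_zero _ hs) (pow_ne_zero _ hf), ?_⟩
  have h2 : (r / f) ^ 4 - 2 * a * (r / f) ^ 2 - 8 * b * (r / f) + a ^ 2 -
      (u / f) * (4 * ((r / f) ^ 3 + a * (r / f) + b)) =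
      (r ^ 4 - 2 * (a * f ^ 2) * r ^ 2 - 8 * (b * f ^ 3) * r + (a * f ^ 2) ^ 2 -
      u * (4 * (r ^ 3 + a * f ^ 2 * r + b * f ^ 3))) / f ^ 4 := by
    field_simp
  rw [h2, hr, zero_div]

/-- enlarging the base by an algebraic element -/
theorem ext_base {e : K} (he : IsAlgebraic k₀ e) (ht : Transcendental k₀ t) :
    ∃ E : Subfield K, k₀ ≤ E ∧ e ∈ E ∧ Transcendental E t ∧
      (∀ F : Subfield K, k₀ ≤ F → e ∈ F → E ≤ F) := by
  let Z := IntermediateField.adjoin k₀ {e}
  have hZ : Algebra.IsAlgebraic k₀ Z :=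
    IntermediateField.isAlgebraic_adjoin_simple he.isIntegral
  have htZ : Transcendental Z t := ht.extendScalars Z
  refine ⟨Z.toSubfield, fun z hz => Z.algebraMap_mem ⟨z, hz⟩,
    IntermediateField.mem_adjoin_simple_self k₀ e, htZ, fun F hF heF => ?_⟩
  rw [adj_toSubfield, Subfield.closure_le]
  rintro z (hz | hz)
  · exact hF hz
  · rw [Set.mem_singleton_iff] at hz
    rw [hz]
    exact heF

theorem adj_mono {k₀ E : Subfield K} (h : k₀ ≤ E) (S : Set K) {z : K}
    (hz : z ∈ IntermediateField.adjoin k₀ S) : z ∈ IntermediateField.adjoin E S := by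
  have h1 : z ∈ (IntermediateField.adjoin k₀ S).toSubfield := hz
  rw [adj_toSubfield] at h1
  have h2 : z ∈ (IntermediateField.adjoin E S).toSubfield := by
    rw [adj_toSubfield]
    exact Subfield.closure_mono (Set.union_subset_union_left _ h) h1
  exact h2

include hd0 ha hb ht in
/-- The section of the twist is not twice a point, even up to two-torsion. -/
theorem tw1 (hd : dsc (a * fv a b t ^ 2) (b * fv a b t ^ 3) ≠ 0)
    (T : (cv (a * fv a b t ^ 2) (b * fv a b t ^ 3)).Point)
    (hT : HC (IntermediateField.adjoin k₀ {t}).toSubfield T) (hTT : T + T = 0)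
    (R : (cv (a * fv a b t ^ 2) (b * fv a b t ^ 3)).Point)
    (hR : HC (IntermediateField.adjoin k₀ {t}).toSubfield R) :
    R + R ≠ pt hd (t * fv a b t) (fv a b t ^ 2) (s0_eq a b t) + T := by
  intro h0
  have hf := fv_ne k₀ ha hb ht
  have htF : t ∈ IntermediateField.adjoin k₀ {t} := IntermediateField.mem_adjoin_simple_self k₀ t
  have haF : a ∈ IntermediateField.adjoin k₀ {t} :=
    (IntermediateField.adjoin k₀ {t}).algebraMap_mem ⟨a, ha⟩
  have hbF : b ∈ IntermediateField.adjoin k₀ {t} :=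
    (IntermediateField.adjoin k₀ {t}).algebraMap_mem ⟨b, hb⟩
  have hfF : fv a b t ∈ IntermediateField.adjoin k₀ {t} :=
    add_mem (add_mem (pow_mem htF 3) (mul_mem haF htF)) hbF
  rcases (tors_iff hd T).1 hTT with hT0 | ⟨w, hw, hTw⟩
  · rw [hT0, add_zero] at h0
    obtain ⟨r, s, hrs, hs, hRr, hr⟩ := half_root h0
    obtain ⟨h1, h2⟩ := scale_half hf hrs hs hr
    rw [hRr, HC.pt] at hR
    rw [mul_div_cancel_right₀ _ hf] at h2
    exact no_half k₀ hd0 ha hb ht (div_mem hR.1 hfF) h1 h2
  · rw [hTw, HC.pt] at hT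
    let e : K := w / fv a b t
    have heF : e ∈ IntermediateField.adjoin k₀ {t} := div_mem hT.1 hfF
    have hwe : w = e * fv a b t := (div_mul_cancel₀ _ hf).symm
    have he0 : e ^ 3 + a * e + b = 0 := by
      have h1 : fv a b t ^ 3 * (e ^ 3 + a * e + b) = 0 := by
        rw [hwe] at hw
        linear_combination -hw
      rcases mul_eq_zero.1 h1 with h2 | h2
      · exact absurd h2 (pow_ne_zero _ hf)
      · exact h2
    have healg : IsAlgebraic k₀ e := by
      refine ⟨GG (⟨a, ha⟩ : k₀) (⟨b, hb⟩ : k₀), fun h1 => ?_, ?_⟩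
      · have h2 := natDegree_GG (a := (⟨a, ha⟩ : k₀)) (b := (⟨b, hb⟩ : k₀))
        rw [h1, natDegree_zero] at h2
        omega
      · unfold GG
        simp only [map_add, map_mul, map_pow, aeval_X, aeval_C]
        exact he0
    obtain ⟨E, hkE, heE, htE, hEmin⟩ := ext_base k₀ healg ht
    have hte : t ≠ e := by
      rintro hte
      exact ht (by rw [hte]; exact healg)
    have hte' : t - e ≠ 0 := sub_ne_zero.2 hte
    have hxx : t * fv a b t ≠ w := by
      rw [hwe]
      intro h1
      exact hte (mul_right_cancel₀ hf h1)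
    obtain ⟨h3, h4⟩ := add_ne (hd := hd) (h := s0_eq a b t) (h' := hw) hxx
    rw [hTw, h4] at h0
    obtain ⟨r, s, hrs, hs, hRr, hr⟩ := half_root h0
    obtain ⟨h1, h2⟩ := scale_half hf hrs hs hr
    rw [hRr, HC.pt] at hR
    let u : K := (e * t + 2 * e ^ 2 + a) / (t - e)
    have hu : (((fv a b t ^ 2 - 0) / (t * fv a b t - w)) ^ 2 - t * fv a b t - w) / fv a b t = u := by
      have hfe : fv a b t = (t - e) * (t ^ 2 + e * t + e ^ 2 + a) := by
        unfold fv
        linear_combination he0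
      have hff : t ^ 2 + e * t + e ^ 2 + a ≠ 0 := by
        intro h5
        exact hf (by rw [hfe, h5, mul_zero])
      have h6 : t * fv a b t - w = (t - e) * fv a b t := by
        rw [hwe]
        ring
      rw [h6, hwe, sub_zero]
      have h7 : fv a b t ^ 2 / ((t - e) * fv a b t) = t ^ 2 + e * t + e ^ 2 + a := by
        rw [div_eq_iff (mul_ne_zero hte' hf)]
        rw [hfe]
        ring
      rw [h7]
      change _ = (e * t + 2 * e ^ 2 + a) / (t - e)
      rw [div_eq_div_iff hf hte', hfe]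
      ring
    rw [hu] at h2
    -- the field generated by `u`
    have hne : 3 * e ^ 2 + a ≠ 0 := by
      intro h5
      apply hd0
      rw [dsc_id a b e, he0, h5]
      have : (3 * e ^ 2 + 4 * a) * (0 ^ 2 - 8 * e * 0) - (3 * e ^ 3 - 5 * a * e - 27 * b) * 0 = 0 := by
        ring
      exact this
    have haE : a ∈ E := hkE ha
    have hut : u * (t - e) = e * t + 2 * e ^ 2 + a := div_mul_cancel₀ _ hte'
    have hue : u - e ≠ 0 := by
      intro h5
      apply hne
      have h6 : u = e := sub_eq_zero.1 h5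
      rw [h6] at hut
      linear_combination -hut
    have htu : t = (e * u + 2 * e ^ 2 + a) / (u - e) := by
      rw [eq_div_iff hue]
      linear_combination hut
    have e2 : (2 : K) ∈ E := ofNat_mem E 2
    have heA : e ∈ IntermediateField.adjoin E {u} :=
      (IntermediateField.adjoin E {u}).algebraMap_mem ⟨e, heE⟩
    have htA : t ∈ IntermediateField.adjoin E {u} := by
      rw [htu]
      have haA : a ∈ IntermediateField.adjoin E {u} :=
        (IntermediateField.adjoin E {u}).algebraMap_mem ⟨a, haE⟩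
      have h2A : (2 : K) ∈ IntermediateField.adjoin E {u} :=
        (IntermediateField.adjoin E {u}).algebraMap_mem ⟨2, e2⟩
      have huA : u ∈ IntermediateField.adjoin E {u} :=
        IntermediateField.mem_adjoin_simple_self E u
      exact div_mem (add_mem (add_mem (mul_mem heA huA) (mul_mem h2A (pow_mem heA 2))) haA)
        (sub_mem huA heA)
    have huT : Transcendental E u := by
      intro hualg
      apply htE
      have h5 : Algebra.IsAlgebraic E (IntermediateField.adjoin E {u}) :=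
        IntermediateField.isAlgebraic_adjoin_simple hualg.isIntegral
      have h6 := h5.isAlgebraic ⟨t, htA⟩
      exact h6.algHom (IntermediateField.adjoin E {u}).val
    have hrA : r / fv a b t ∈ IntermediateField.adjoin E {u} := by
      have h5 : r / fv a b t ∈ IntermediateField.adjoin k₀ {t} := div_mem hR.1 hfF
      have h6 := adj_mono hkE {t} h5
      have h7 : (IntermediateField.adjoin E {t}) ≤ IntermediateField.adjoin E {u} := by
        rw [IntermediateField.adjoin_le_iff]
        rintro z rfl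
        exact htA
      exact h7 h6
    exact no_half E hd0 haE (hkE hb) huT hrA h1 h2

include ha hb ht in
/-- A two-torsion section is not twice a point. -/
theorem tw2 (hd : dsc (a * fv a b t ^ 2) (b * fv a b t ^ 3) ≠ 0)
    (T : (cv (a * fv a b t ^ 2) (b * fv a b t ^ 3)).Point)
    (hT : HC (IntermediateField.adjoin k₀ {t}).toSubfield T) (hTT : T + T = 0) (hT0 : T ≠ 0)
    (R : (cv (a * fv a b t ^ 2) (b * fv a b t ^ 3)).Point)
    (hR : HC (IntermediateField.adjoin k₀ {t}).toSubfield R) : R + R ≠ T := by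
  intro h0
  have hf := fv_ne k₀ ha hb ht
  have htF : t ∈ IntermediateField.adjoin k₀ {t} := IntermediateField.mem_adjoin_simple_self k₀ t
  have haF : a ∈ IntermediateField.adjoin k₀ {t} :=
    (IntermediateField.adjoin k₀ {t}).algebraMap_mem ⟨a, ha⟩
  have hbF : b ∈ IntermediateField.adjoin k₀ {t} :=
    (IntermediateField.adjoin k₀ {t}).algebraMap_mem ⟨b, hb⟩
  have hfF : fv a b t ∈ IntermediateField.adjoin k₀ {t} :=
    add_mem (add_mem (pow_mem htF 3) (mul_mem haF htF)) hbF
  rcases (tors_iff hd T).1 hTT with h1 | ⟨w, hw, hTw⟩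
  · exact hT0 h1
  · rw [hTw] at h0
    let e : K := w / fv a b t
    have hwe : w = e * fv a b t := (div_mul_cancel₀ _ hf).symm
    have he0 : e ^ 3 + a * e + b = 0 := by
      have h1 : fv a b t ^ 3 * (e ^ 3 + a * e + b) = 0 := by
        rw [hwe] at hw
        linear_combination -hw
      rcases mul_eq_zero.1 h1 with h2 | h2
      · exact absurd h2 (pow_ne_zero _ hf)
      · exact h2
    have healg : IsAlgebraic k₀ e := by
      refine ⟨GG (⟨a, ha⟩ : k₀) (⟨b, hb⟩ : k₀), fun h1 => ?_, ?_⟩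
      · have h2 := natDegree_GG (a := (⟨a, ha⟩ : k₀)) (b := (⟨b, hb⟩ : k₀))
        rw [h1, natDegree_zero] at h2
        omega
      · unfold GG
        simp only [map_add, map_mul, map_pow, aeval_X, aeval_C]
        exact he0
    obtain ⟨r, s, hrs, hs, hRr, hr⟩ := half_root h0
    obtain ⟨h1, h2⟩ := scale_half hf hrs hs hr
    rw [hRr, HC.pt] at hR
    let ρ : K := r / fv a b t
    have hue : w / fv a b t = e := rfl
    rw [hue] at h2
    obtain ⟨E, hkE, heE, htE, _⟩ := ext_base k₀ healg ht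
    -- `ρ` is algebraic
    have hρ : IsAlgebraic E ρ := by
      refine ⟨NN (⟨a, hkE ha⟩ : E) (⟨b, hkE hb⟩ : E) - C (4 * (⟨e, heE⟩ : E)) *
        GG (⟨a, hkE ha⟩ : E) (⟨b, hkE hb⟩ : E), fun h3 => ?_, ?_⟩
      · have h4 : (NN (⟨a, hkE ha⟩ : E) (⟨b, hkE hb⟩ : E) - C (4 * (⟨e, heE⟩ : E)) *
            GG (⟨a, hkE ha⟩ : E) (⟨b, hkE hb⟩ : E)).natDegree = 4 := by
          unfold NN GG
          compute_degree!
        rw [h3, natDegree_zero] at h4
        omega
      · unfold NN GG
        simp only [map_add, map_sub, map_mul, map_pow, aeval_X, aeval_C]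
        have e2 : algebraMap E K 2 = 2 := map_ofNat _ _
        have e4 : algebraMap E K 4 = 4 := map_ofNat _ _
        have e8 : algebraMap E K 8 = 8 := map_ofNat _ _
        rw [e2, e4, e8]
        change ρ ^ 4 - 2 * a * ρ ^ 2 - 8 * b * ρ + a ^ 2 - 4 * e * (ρ ^ 3 + a * ρ + b) = 0
        linear_combination h2
    obtain ⟨E', hEE, hρE, htE', _⟩ := ext_base E hρ htE
    have hsA : s / fv a b t ∈ IntermediateField.adjoin E' {t} :=
      adj_mono (hkE.trans hEE) {t} (div_mem hR.2 hfF)
    have hcE : ρ ^ 3 + a * ρ + b ∈ E' :=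
      add_mem (add_mem (pow_mem hρE 3) (mul_mem (hEE (hkE ha)) hρE)) (hEE (hkE hb))
    refine no_sq E' (hEE (hkE ha)) (hEE (hkE hb)) htE' hsA hcE h1 ?_
    have h3 : t ^ 3 + a * t + b = fv a b t := rfl
    rw [h3, div_pow, hrs]
    change _ = ((r / fv a b t) ^ 3 + a * (r / fv a b t) + b) * fv a b t
    field_simp

end tw

end Pool.Agent.Helper97.HR
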