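import Mathlib
import Pool.Agent.Helper97.HR.Tw

/-! Kummer varieties of powers of an elliptic curve. -/

set_option autoImplicit false
set_option linter.unusedSectionVars false

open Polynomial

namespace Pool.Agent.Helper97.HR

/-- a basis of an elementary abelian two-group -/
theorem two_basis (V : Type) [AddCommGroup V] [Finite V] (h2 : ∀ v : V, v + v = 0) :
    ∃ (τ : ℕ) (T : Fin τ → V), Nat.card V = 2 ^ τ ∧
      ∀ μ : Finset (Fin τ), μ.Nonempty → ∑ j ∈ μ, T j ≠ 0 := by
  classical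
  let _ : Module (ZMod 2) V := AddCommGroup.zmodModule (n := 2) (fun v => by
    rw [two_nsmul]
    exact h2 v)
  have hfin : Module.Finite (ZMod 2) V := Module.Finite.of_finite
  let bs := Module.finBasis (ZMod 2) V
  refine ⟨Module.finrank (ZMod 2) V, bs, ?_, fun μ hμ h0 => ?_⟩
  · have := Fintype.ofFinite V
    rw [Nat.card_eq_fintype_card, Module.card_eq_pow_finrank (K := ZMod 2), ZMod.card]
  · obtain ⟨i, hi⟩ := hμ
    have h3 := bs.linearIndependent
    rw [Fintype.linearIndependent_iff] at h3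
    have h4 := h3 (fun j => if j ∈ μ then 1 else 0) (by
      rw [← h0]
      simp only [ite_smul, one_smul, zero_smul]
      rw [Finset.sum_ite_mem, Finset.univ_inter]) i
    rw [if_pos hi] at h4
    exact one_ne_zero h4

theorem scale_indep {F K ι : Type} [Field F] [Field K] [Algebra F K] {x : ι → K}
    (hx : AlgebraicIndependent F x) {c : F} (hc : c ≠ 0) :
    AlgebraicIndependent F fun i => algebraMap F K c * x i := by
  rw [algebraicIndependent_iff_injective_aeval] at hx ⊢
  let σ : F → (MvPolynomial ι F →ₐ[F] MvPolynomial ι F) := fun d =>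
    MvPolynomial.aeval fun i => MvPolynomial.C d * MvPolynomial.X i
  have h1 : (MvPolynomial.aeval fun i => algebraMap F K c * x i : MvPolynomial ι F →ₐ[F] K) =
      (MvPolynomial.aeval x).comp (σ c) := by
    apply MvPolynomial.algHom_ext
    intro i
    simp [σ]
  have h2 : (σ c⁻¹).comp (σ c) = AlgHom.id F _ := by
    apply MvPolynomial.algHom_ext
    intro i
    simp only [σ, AlgHom.comp_apply, MvPolynomial.aeval_X, map_mul, AlgHom.id_apply]
    rw [← MvPolynomial.algebraMap_eq, AlgHom.commutes, MvPolynomial.algebraMap_eq, ← mul_assoc,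
      ← MvPolynomial.C_mul, mul_inv_cancel₀ hc, MvPolynomial.C_1, one_mul]
  have h3 : Function.Injective (σ c) := by
    apply Function.LeftInverse.injective (g := σ c⁻¹)
    intro p
    exact DFunLike.congr_fun h2 p
  rw [h1]
  exact hx.comp h3

theorem indep_succ {k K : Type} [Field k] [Field K] [Algebra k K] {m : ℕ} {x : Fin (m + 1) → K}
    (hx : AlgebraicIndependent k x) :
    Transcendental k (x 0) ∧
      AlgebraicIndependent (IntermediateField.adjoin k {x 0}) (fun i : Fin m => x i.succ) := by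
  refine ⟨hx.transcendental 0, ?_⟩
  rw [IntermediateField.algebraicIndependent_adjoin_iff]
  let e : Fin m ⊕ Unit → Fin (m + 1) := Sum.elim Fin.succ fun _ => 0
  have he : Function.Injective e := by
    rintro (i | i) (j | j) h
    · exact congrArg Sum.inl (Fin.succ_injective _ h)
    · exact absurd h (Fin.succ_ne_zero i)
    · exact absurd h.symm (Fin.succ_ne_zero j)
    · rfl
  have h1 := hx.comp e he
  have h2 : x ∘ e = Sum.elim (fun i : Fin m => x i.succ) (fun _ : Unit => x 0) := by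
    ext (i | i) <;> rfl
  rw [h2, AlgebraicIndependent.sumElim_iff] at h1
  have h3 : Set.range (fun _ : Unit => x 0) = {x 0} := Set.range_const
  rw [h3] at h1
  exact h1.2

section inf

variable {K : Type} [Field K] [CharZero K] [DecidableEq K]
  (k₀ : Subfield K) {a b : K} (hd0 : dsc a b ≠ 0) (ha : a ∈ k₀) (hb : b ∈ k₀) {t : K}
  (ht : Transcendental k₀ t)

include ha hb ht in
theorem twF : fv a b t ∈ IntermediateField.adjoin k₀ {t} ∧
    a * fv a b t ^ 2 ∈ IntermediateField.adjoin k₀ {t} ∧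
    b * fv a b t ^ 3 ∈ IntermediateField.adjoin k₀ {t} ∧
    t * fv a b t ∈ IntermediateField.adjoin k₀ {t} := by
  have htF : t ∈ IntermediateField.adjoin k₀ {t} := IntermediateField.mem_adjoin_simple_self k₀ t
  have haF : a ∈ IntermediateField.adjoin k₀ {t} :=
    (IntermediateField.adjoin k₀ {t}).algebraMap_mem ⟨a, ha⟩
  have hbF : b ∈ IntermediateField.adjoin k₀ {t} :=
    (IntermediateField.adjoin k₀ {t}).algebraMap_mem ⟨b, hb⟩
  have hfF : fv a b t ∈ IntermediateField.adjoin k₀ {t} :=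
    add_mem (add_mem (pow_mem htF 3) (mul_mem haF htF)) hbF
  exact ⟨hfF, mul_mem haF (pow_mem hfF 2), mul_mem hbF (pow_mem hfF 3), mul_mem htF hfF⟩

include hd0 ha hb ht in
theorem s0_inf (hd : dsc (a * fv a b t ^ 2) (b * fv a b t ^ 3) ≠ 0) (m : ℕ) (hm : 0 < m) :
    m • pt hd (t * fv a b t) (fv a b t ^ 2) (s0_eq a b t) ≠ 0 := by
  classical
  set S₀ := pt hd (t * fv a b t) (fv a b t ^ 2) (s0_eq a b t) with hS₀
  obtain ⟨hfF, haF, hbF, htfF⟩ := twF k₀ ha hb ht
  have hSF : HC (IntermediateField.adjoin k₀ {t}).toSubfield S₀ := by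
    rw [hS₀, HC.pt]
    exact ⟨htfF, pow_mem hfF 2⟩
  have hmF : ∀ j : ℕ, HC (IntermediateField.adjoin k₀ {t}).toSubfield (j • S₀) := fun j =>
    HC.nsmul hd haF hSF j
  intro h0
  have hex : ∃ m : ℕ, 0 < m ∧ m • S₀ = 0 := ⟨m, hm, h0⟩
  obtain ⟨hN, hN0⟩ := Nat.find_spec hex
  have hmin : ∀ j : ℕ, 0 < j → j < Nat.find hex → j • S₀ ≠ 0 := fun j hj hlt h1 =>
    Nat.find_min hex hlt ⟨hj, h1⟩
  set N := Nat.find hex with hNdef
  rcases Nat.even_or_odd N with ⟨N', hN'⟩ | ⟨N', hN'⟩
  · have hT0 : N' • S₀ ≠ 0 := hmin N' (by omega) (by omega)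
    have hTT : N' • S₀ + N' • S₀ = 0 := by rw [← add_smul, ← hN', hN0]
    rcases Nat.even_or_odd N' with ⟨N'', hN''⟩ | ⟨N'', hN''⟩
    · refine tw2 k₀ ha hb ht hd (N' • S₀) (hmF _) hTT hT0 (N'' • S₀) (hmF _) ?_
      rw [← add_smul, ← hN'']
    · refine tw1 k₀ hd0 ha hb ht hd (N' • S₀) (hmF _) hTT ((N'' + 1) • S₀) (hmF _) ?_
      rw [← hS₀, ← add_smul]
      have h1 : S₀ + N' • S₀ = (1 + N') • S₀ := by rw [add_smul, one_smul]
      rw [h1]
      congr 1
      omega
  · refine tw1 k₀ hd0 ha hb ht hd 0 HC.zero (by rw [add_zero]) ((N' + 1) • S₀) (hmF _) ?_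
    rw [← hS₀, ← add_smul, add_zero]
    have h1 : (N' + 1 + (N' + 1)) • S₀ = S₀ + N • S₀ := by
      have h2 : S₀ + N • S₀ = (1 + N) • S₀ := by rw [add_smul, one_smul]
      rw [h2]
      congr 1
      omega
    rw [h1, hN0, add_zero]

end inf

end Pool.Agent.Helper97.HR
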