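import Mathlib
import Pool.Agent.Helper97.HR.Kum

/-! Kummer varieties of powers of an elliptic curve: the main statement for function fields. -/

set_option autoImplicit false
set_option linter.unusedSectionVars false

open Polynomial

namespace Pool.Agent.Helper97.HR

section

variable {k K : Type} [Field k] [CharZero k] [DecidableEq k] [Field K] [CharZero K]
  [DecidableEq K] [Algebra k K]

theorem adj_range (t : K) : (IntermediateField.adjoin (algebraMap k K).fieldRange {t}).toSubfield =
    (IntermediateField.adjoin k {t}).toSubfield := by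
  rw [adj_toSubfield]
  rfl

theorem kummer_setup {a b : k} (hd0 : dsc a b ≠ 0) {m : ℕ} {x : Fin (m + 1) → K} {z : Fin m → K}
    (hx : AlgebraicIndependent k x)
    (hz : ∀ i, z i ^ 2 = fv (algebraMap k K a) (algebraMap k K b) (x 0) *
      fv (algebraMap k K a) (algebraMap k K b) (x i.succ))
    (htop : IntermediateField.adjoin k (Set.range x ∪ Set.range z) = ⊤) :
    ∀ F : Subfield K, F = (IntermediateField.adjoin k {x 0}).toSubfield →
    ∀ f : K, f = fv (algebraMap k K a) (algebraMap k K b) (x 0) →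
    AlgebraicIndependent F (fun i : Fin m => f * x i.succ) ∧
    (∀ i : Fin m, (f * z i) ^ 2 = (f * x i.succ) ^ 3 + algebraMap k K a * f ^ 2 * (f * x i.succ) +
      algebraMap k K b * f ^ 3) ∧
    EE F (fun i : Fin m => f * x i.succ) (fun i : Fin m => f * z i) Set.univ = ⊤ := by
  rintro F rfl f rfl
  obtain ⟨ht, hx'⟩ := indep_succ hx
  have ht₀ : Transcendental (algebraMap k K).fieldRange (x 0) :=
    trans_subfield _ (fun z hz => hz) ht
  obtain ⟨hfF, _, _, _⟩ := twF (algebraMap k K).fieldRange (a := algebraMap k K a)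
    (b := algebraMap k K b) ⟨a, rfl⟩ ⟨b, rfl⟩ ht₀
  have hf := fv_ne (algebraMap k K).fieldRange (a := algebraMap k K a)
    (b := algebraMap k K b) ⟨a, rfl⟩ ⟨b, rfl⟩ ht₀
  have hfF' : fv (algebraMap k K a) (algebraMap k K b) (x 0) ∈
      IntermediateField.adjoin k {x 0} := by
    have h1 : fv (algebraMap k K a) (algebraMap k K b) (x 0) ∈
      (IntermediateField.adjoin (algebraMap k K).fieldRange {x 0}).toSubfield := hfF
    rw [adj_range] at h1
    exact h1
  refine ⟨?_, fun i => ?_, ?_⟩
  · exact scale_indep hx' (c := (⟨_, hfF'⟩ : IntermediateField.adjoin k {x 0}))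
      (fun h0 => hf (congrArg Subtype.val h0))
  · have h1 := hz i
    set f := fv (algebraMap k K a) (algebraMap k K b) (x 0) with hfdef
    have h2 : fv (algebraMap k K a) (algebraMap k K b) (x i.succ) = x i.succ ^ 3 +
      algebraMap k K a * x i.succ + algebraMap k K b := rfl
    rw [h2] at h1
    linear_combination f ^ 2 * h1
  · rw [eq_top_iff]
    intro w _
    have hw : w ∈ IntermediateField.adjoin k (Set.range x ∪ Set.range z) := by
      rw [htop]
      trivial
    set f := fv (algebraMap k K a) (algebraMap k K b) (x 0) with hfdef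
    let M := EE (IntermediateField.adjoin k {x 0}).toSubfield (fun i : Fin m => f * x i.succ)
      (fun i : Fin m => f * z i) Set.univ
    have hFM : (IntermediateField.adjoin k {x 0}).toSubfield ≤ M := F_le _ _ _ _
    have hfM : f ∈ M := hFM hfF'
    have hle : (IntermediateField.adjoin k (Set.range x ∪ Set.range z)).toSubfield ≤ M := by
      have h3 : (IntermediateField.adjoin k (Set.range x ∪ Set.range z)).toSubfield =
        Subfield.closure (Set.range (algebraMap k K) ∪ (Set.range x ∪ Set.range z)) := rfl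
      rw [h3, Subfield.closure_le]
      rintro v (⟨c, rfl⟩ | ⟨i, rfl⟩ | ⟨i, rfl⟩)
      · exact hFM ((IntermediateField.adjoin k {x 0}).algebraMap_mem c)
      · refine Fin.cases ?_ (fun j => ?_) i
        · exact hFM (IntermediateField.mem_adjoin_simple_self k (x 0))
        · have h4 : f * x j.succ ∈ M := x_mem _ (fun i : Fin m => f * x i.succ)
            (fun i : Fin m => f * z i) (Set.mem_univ j)
          have h5 : x j.succ = f * x j.succ / f := by
            rw [mul_div_cancel_left₀ _ hf]
          rw [h5]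
          exact div_mem h4 hfM
      · have h4 : f * z i ∈ M := y_mem _ (fun i : Fin m => f * x i.succ)
            (fun i : Fin m => f * z i) (Set.mem_univ i)
        have h5 : z i = f * z i / f := by
          rw [mul_div_cancel_left₀ _ hf]
        rw [h5]
        exact div_mem h4 hfM
    exact hle hw

theorem kummer_dense {a b : k} (hd0 : dsc a b ≠ 0) {m : ℕ} {x : Fin (m + 1) → K} {z : Fin m → K}
    (hx : AlgebraicIndependent k x)
    (hz : ∀ i, z i ^ 2 = fv (algebraMap k K a) (algebraMap k K b) (x 0) *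
      fv (algebraMap k K a) (algebraMap k K b) (x i.succ))
    (htop : IntermediateField.adjoin k (Set.range x ∪ Set.range z) = ⊤) : DPF k K := by
  apply dpf_of_dp
  obtain ⟨h1, h2, h3⟩ := kummer_setup hd0 hx hz htop _ rfl _ rfl
  obtain ⟨ht, _⟩ := indep_succ hx
  have ht₀ : Transcendental (algebraMap k K).fieldRange (x 0) :=
    trans_subfield _ (fun z hz => hz) ht
  have ha : algebraMap k K a ∈ (algebraMap k K).fieldRange := ⟨a, rfl⟩
  have hb : algebraMap k K b ∈ (algebraMap k K).fieldRange := ⟨b, rfl⟩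
  obtain ⟨hfF, haF, hbF, htfF⟩ := twF (algebraMap k K).fieldRange ha hb ht₀
  have hd1 : dsc (algebraMap k K a) (algebraMap k K b) ≠ 0 := by
    rw [dsc_map]
    rwa [Ne, map_eq_zero_iff _ (algebraMap k K).injective]
  have hd := dsc_tw (algebraMap k K).fieldRange hd1 ha hb ht₀
  have hinf : Infinite (algebraMap k K).fieldRange := by
    have : CharZero (algebraMap k K).fieldRange := inferInstance
    infer_instance
  have hline := dp_line (algebraMap k K).fieldRange ht₀
  rw [adj_range] at hline
  have key := dp_power (F := (IntermediateField.adjoin k {x 0}).toSubfield) hd h1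
    (by rw [← adj_range]; exact haF) (by rw [← adj_range]; exact hbF) h2
    (pt hd (x 0 * fv (algebraMap k K a) (algebraMap k K b) (x 0))
      (fv (algebraMap k K a) (algebraMap k K b) (x 0) ^ 2) (s0_eq _ _ _))
    (by
      rw [HC.pt, ← adj_range]
      exact ⟨htfF, pow_mem hfF 2⟩)
    (fun j hj => s0_inf (algebraMap k K).fieldRange hd1 ha hb ht₀ hd j hj) Finset.univ
  rw [Finset.coe_univ, h3] at key
  exact hline.trans key

theorem kummer_rank {a b : k} (hd0 : dsc a b ≠ 0) {m : ℕ} {x : Fin (m + 1) → K} {z : Fin m → K}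
    (hx : AlgebraicIndependent k x)
    (hz : ∀ i, z i ^ 2 = fv (algebraMap k K a) (algebraMap k K b) (x 0) *
      fv (algebraMap k K a) (algebraMap k K b) (x i.succ))
    (htop : IntermediateField.adjoin k (Set.range x ∪ Set.range z) = ⊤) (h : HPF k K)
    (q : ℕ) (H : Fin q → k[X][X])
    (hH : ∀ j, ∀ r ∈ (IntermediateField.adjoin k {x 0}).toSubfield,
      (H j).eval₂ (aeval (x 0) : k[X] →ₐ[k] K).toRingHom r ≠ 0) :
    ∃ t₀ : k, (GG a b).eval t₀ ≠ 0 ∧ (∀ j, ∀ c : k, ((H j).map (evalRingHom t₀)).eval c ≠ 0) ∧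
      ∃ P : Fin (m + 1) → (cv (a * (GG a b).eval t₀ ^ 2) (b * (GG a b).eval t₀ ^ 3)).Point,
        LinearIndependent ℤ P := by
  classical
  obtain ⟨h1, h2, h3⟩ := kummer_setup hd0 hx hz htop _ rfl _ rfl
  obtain ⟨ht, _⟩ := indep_succ hx
  have ht₀ : Transcendental (algebraMap k K).fieldRange (x 0) :=
    trans_subfield _ (fun z hz => hz) ht
  have ha : algebraMap k K a ∈ (algebraMap k K).fieldRange := ⟨a, rfl⟩
  have hb : algebraMap k K b ∈ (algebraMap k K).fieldRange := ⟨b, rfl⟩
  obtain ⟨hfF, haF, hbF, htfF⟩ := twF (algebraMap k K).fieldRange ha hb ht₀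
  have hd1 : dsc (algebraMap k K a) (algebraMap k K b) ≠ 0 := by
    rw [dsc_map]
    rwa [Ne, map_eq_zero_iff _ (algebraMap k K).injective]
  have hd := dsc_tw (algebraMap k K).fieldRange hd1 ha hb ht₀
  have hF0 := adj_range (k := k) (x 0)
  set F : Subfield K := (IntermediateField.adjoin k {x 0}).toSubfield with hF
  set f : K := fv (algebraMap k K a) (algebraMap k K b) (x 0) with hf
  have haF' : algebraMap k K a * f ^ 2 ∈ F := by rw [← hF0]; exact haF
  -- the two-torsion
  let V : AddSubgroup (cv (algebraMap k K a * f ^ 2) (algebraMap k K b * f ^ 3)).Point :=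
    { carrier := {P | HC F P ∧ P + P = 0}
      add_mem' := by
        rintro P Q ⟨hP1, hP2⟩ ⟨hQ1, hQ2⟩
        refine ⟨HC.add hd haF' hP1 hQ1, ?_⟩
        have : P + Q + (P + Q) = (P + P) + (Q + Q) := by abel
        rw [this, hP2, hQ2, add_zero]
      zero_mem' := ⟨HC.zero, add_zero 0⟩
      neg_mem' := by
        rintro P ⟨hP1, hP2⟩
        refine ⟨HC.neg hd hP1, ?_⟩
        rw [← neg_add, hP2, neg_zero] }
  have hVf : Finite V := ((tors_finite hd).subset (t := (V : Set _)) fun P hP => hP.2).to_subtype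
  obtain ⟨τ, T, hcard, hT⟩ := two_basis V (fun v => Subtype.ext v.2.2)
  let S₀ := pt hd (x 0 * f) (f ^ 2) (s0_eq _ _ _)
  let S : Fin (τ + 1) → (cv (algebraMap k K a * f ^ 2) (algebraMap k K b * f ^ 3)).Point :=
    Fin.cons S₀ fun j => (T j : (cv (algebraMap k K a * f ^ 2) (algebraMap k K b * f ^ 3)).Point)
  have hSF : ∀ j, HC F (S j) := by
    intro j
    refine Fin.cases ?_ (fun j => ?_) j
    · change HC F S₀
      rw [HC.pt, ← hF0]
      exact ⟨htfF, pow_mem hfF 2⟩
    · exact (T j).2.1
  have hS2 : ∀ (μ : Finset (Fin (τ + 1))), μ.Nonempty → ∀ R, HC F R → ∑ j ∈ μ, S j ≠ R + R := by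
    intro μ hμ R hR h0
    let μ' : Finset (Fin τ) := Finset.univ.filter fun j => j.succ ∈ μ
    have hsum : ∑ j ∈ μ, S j = (if (0 : Fin (τ + 1)) ∈ μ then S₀ else 0) +
        ((∑ j ∈ μ', T j : V) :
          (cv (algebraMap k K a * f ^ 2) (algebraMap k K b * f ^ 3)).Point) := by
      have h4 : ∑ j ∈ μ, S j = ∑ j, if j ∈ μ then S j else 0 := by
        rw [Finset.sum_ite_mem, Finset.univ_inter]
      rw [h4, Fin.sum_univ_succ]
      congr 1
      rw [AddSubmonoidClass.coe_finsetSum, Finset.sum_filter]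
      rfl
    have hTmem := (∑ j ∈ μ', T j : V).2
    rw [hsum] at h0
    by_cases hμ0 : (0 : Fin (τ + 1)) ∈ μ
    · rw [if_pos hμ0] at h0
      refine tw1 (algebraMap k K).fieldRange hd1 ha hb ht₀ hd _ ?_ hTmem.2 R ?_ h0.symm
      · rw [hF0]
        exact hTmem.1
      · rw [hF0]
        exact hR
    · rw [if_neg hμ0, zero_add] at h0
      have hμ' : μ'.Nonempty := by
        obtain ⟨j, hj⟩ := hμ
        refine Fin.cases (fun hj => absurd hj hμ0) (fun j hj => ?_) j hj
        exact ⟨j, Finset.mem_filter.2 ⟨Finset.mem_univ j, hj⟩⟩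
      refine tw2 (algebraMap k K).fieldRange ha hb ht₀ hd _ ?_ hTmem.2
        (fun h5 => hT μ' hμ' (Subtype.ext h5)) R ?_ h0.symm
      · rw [hF0]
        exact hTmem.1
      · rw [hF0]
        exact hR
  let A : k[X] := C a * GG a b ^ 2
  let B : k[X] := C b * GG a b ^ 3
  have hGf : aeval (x 0) (GG a b) = f := by
    unfold GG
    simp only [map_add, map_mul, map_pow, aeval_X, aeval_C]
    rfl
  have hA : algebraMap k K a * f ^ 2 = aeval (x 0) A := by
    simp only [A, map_mul, map_pow, aeval_C, hGf]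
  have hB : algebraMap k K b * f ^ 3 = aeval (x 0) B := by
    simp only [B, map_mul, map_pow, aeval_C, hGf]
  obtain ⟨t₀, h5, h6, h7⟩ := rank_of_hpf' hA hB h F hF hd h1 h2 h3 S hSF hS2 τ (by
      rw [← hcard]
      change (V : Set (cv (algebraMap k K a * f ^ 2) (algebraMap k K b * f ^ 3)).Point).ncard ≤
        Nat.card (V : Set (cv (algebraMap k K a * f ^ 2) (algebraMap k K b * f ^ 3)).Point)
      rw [Nat.card_coe_set_eq]) q H hH (m + 1) (by omega)
  have eA : A.eval t₀ = a * (GG a b).eval t₀ ^ 2 := by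
    simp only [A, eval_mul, eval_C, eval_pow]
  have eB : B.eval t₀ = b * (GG a b).eval t₀ ^ 3 := by
    simp only [B, eval_mul, eval_C, eval_pow]
  rw [eA, eB] at h5 h7
  refine ⟨t₀, ?_, h6, h7⟩
  intro h8
  apply h5
  rw [h8]
  unfold dsc
  ring

/-- square classes are avoided -/
theorem no_root_sq {a b : k} {t : K} (ht : Transcendental k t) (δ : k) :
    ∀ r ∈ (IntermediateField.adjoin k {t}).toSubfield,
      (C (C δ) * X ^ 2 - C (GG a b) : k[X][X]).eval₂ (aeval t : k[X] →ₐ[k] K).toRingHom r ≠ 0 := by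
  intro r hr h0
  have ht₀ : Transcendental (algebraMap k K).fieldRange t :=
    trans_subfield _ (fun z hz => hz) ht
  have ha : algebraMap k K a ∈ (algebraMap k K).fieldRange := ⟨a, rfl⟩
  have hb : algebraMap k K b ∈ (algebraMap k K).fieldRange := ⟨b, rfl⟩
  have hGf : aeval t (GG a b) = fv (algebraMap k K a) (algebraMap k K b) t := by
    unfold GG
    simp only [map_add, map_mul, map_pow, aeval_X, aeval_C]
    rfl
  have h4 : algebraMap k K δ * r ^ 2 = fv (algebraMap k K a) (algebraMap k K b) t := by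
    rw [← sub_eq_zero, ← h0, eval₂_sub, eval₂_mul, eval₂_C, eval₂_X_pow, eval₂_C]
    change _ = aeval t (C δ) * r ^ 2 - aeval t (GG a b)
    rw [aeval_C, hGf]
  have hf0 := fv_ne (algebraMap k K).fieldRange ha hb ht₀
  have hδ : algebraMap k K δ ≠ 0 := by
    intro h5
    rw [h5, zero_mul] at h4
    exact hf0 h4.symm
  refine no_sq (algebraMap k K).fieldRange ha hb ht₀ (w := r) ?_
    (c := (algebraMap k K δ)⁻¹) (inv_mem ⟨δ, rfl⟩) (inv_ne_zero hδ) ?_
  · have h6 : r ∈ (IntermediateField.adjoin (algebraMap k K).fieldRange {t}).toSubfield := by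
      rw [adj_range]
      exact hr
    exact h6
  · change r ^ 2 = (algebraMap k K δ)⁻¹ * fv (algebraMap k K a) (algebraMap k K b) t
    rw [← h4, inv_mul_cancel_left₀ hδ]

end

end Pool.Agent.Helper97.HR
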