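import Mathlib
import Pool.Agent.Helper97.HR.Kum2

/-! Transport of points along embeddings of fields. -/

set_option autoImplicit false
set_option linter.unusedSectionVars false

open Polynomial

namespace Pool.Agent.Helper97.HR

section

variable {F K : Type} [Field F] [CharZero F] [DecidableEq F] [Field K] [CharZero K]
  [DecidableEq K] (l : F →+* K) {a b : F}

theorem map_eqn {x y : F} (h : y ^ 2 = x ^ 3 + a * x + b) :
    (l y) ^ 2 = (l x) ^ 3 + l a * l x + l b := by
  rw [← map_pow, h]
  simp only [map_add, map_mul, map_pow]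

theorem map_dsc (hd : dsc a b ≠ 0) : dsc (l a) (l b) ≠ 0 := by
  rw [dsc_map]
  rwa [Ne, map_eq_zero_iff _ l.injective]

open Classical in
/-- transport of points -/
noncomputable def mpt (hd : dsc a b ≠ 0) (P : (cv a b).Point) : (cv (l a) (l b)).Point :=
  if h : ∃ (x y : F) (h : y ^ 2 = x ^ 3 + a * x + b), P = pt hd x y h then
    pt (map_dsc l hd) (l h.choose) (l h.choose_spec.choose)
      (map_eqn l h.choose_spec.choose_spec.choose) else 0

theorem mpt_pt (hd : dsc a b ≠ 0) {x y : F} (h : y ^ 2 = x ^ 3 + a * x + b) :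
    mpt l hd (pt hd x y h) = pt (map_dsc l hd) (l x) (l y) (map_eqn l h) := by
  have hex : ∃ (x' y' : F) (h' : y' ^ 2 = x' ^ 3 + a * x' + b), pt hd x y h = pt hd x' y' h' :=
    ⟨x, y, h, rfl⟩
  unfold mpt
  rw [dif_pos hex]
  have h1 := hex.choose_spec.choose_spec.choose_spec
  rw [pt_inj] at h1
  exact pt_congr (by rw [← h1.1]) (by rw [← h1.2])

theorem mpt_zero (hd : dsc a b ≠ 0) : mpt l hd (0 : (cv a b).Point) = 0 := by
  unfold mpt
  rw [dif_neg]
  rintro ⟨x, y, h, h0⟩
  exact pt_ne h0.symm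

theorem mpt_neg (hd : dsc a b ≠ 0) (P : (cv a b).Point) : mpt l hd (-P) = -mpt l hd P := by
  rcases pt_cases hd P with rfl | ⟨x, y, h, rfl⟩
  · rw [neg_zero, mpt_zero, neg_zero]
  · rw [neg_pt, mpt_pt, mpt_pt, neg_pt]
    exact pt_congr rfl (map_neg l y)

theorem mpt_add (hd : dsc a b ≠ 0) (P Q : (cv a b).Point) :
    mpt l hd (P + Q) = mpt l hd P + mpt l hd Q := by
  rcases pt_cases hd P with rfl | ⟨x, y, h, rfl⟩
  · rw [zero_add, mpt_zero, zero_add]
  rcases pt_cases hd Q with rfl | ⟨x', y', h', rfl⟩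
  · rw [add_zero, mpt_zero, add_zero]
  by_cases hx : x = x'
  · subst hx
    rcases eq_or_neg (hd := hd) (h := h) (h' := h') with h1 | h1
    · rw [← h1]
      by_cases hy : y = 0
      · rw [add_self_zero hy, mpt_zero, mpt_pt, add_self_zero (by rw [hy, map_zero])]
      · obtain ⟨h3, h4⟩ := add_self (hd := hd) (h := h) hy
        have hy' : l y ≠ 0 := by rwa [Ne, map_eq_zero_iff _ l.injective]
        obtain ⟨h5, h6⟩ := add_self (hd := map_dsc l hd) (h := map_eqn l h) hy'
        rw [h4, mpt_pt, mpt_pt, h6]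
        have e2 : l 2 = 2 := map_ofNat _ _
        have e3 : l 3 = 3 := map_ofNat _ _
        apply pt_congr
        · simp only [map_sub, map_pow, map_div₀, map_add, map_mul, e2, e3]
        · simp only [map_neg, map_sub, map_pow, map_div₀, map_add, map_mul, e2, e3]
    · rw [h1, neg_add_cancel, mpt_zero, mpt_neg, neg_add_cancel]
  · obtain ⟨h3, h4⟩ := add_ne (hd := hd) (h := h) (h' := h') hx
    have hx' : l x ≠ l x' := fun h => hx (l.injective h)
    obtain ⟨h5, h6⟩ := add_ne (hd := map_dsc l hd) (h := map_eqn l h) (h' := map_eqn l h') hx'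
    rw [h4, mpt_pt, mpt_pt, mpt_pt, h6]
    apply pt_congr
    · simp only [map_sub, map_pow, map_div₀]
    · simp only [map_neg, map_sub, map_pow, map_div₀, map_add, map_mul]

/-- transport of points as a homomorphism -/
noncomputable def mph (hd : dsc a b ≠ 0) : (cv a b).Point →+ (cv (l a) (l b)).Point where
  toFun := mpt l hd
  map_zero' := mpt_zero l hd
  map_add' := mpt_add l hd

theorem mph_inj (hd : dsc a b ≠ 0) : Function.Injective (mph l hd) := by
  rw [injective_iff_map_eq_zero]
  intro P hP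
  rcases pt_cases hd P with rfl | ⟨x, y, h, rfl⟩
  · rfl
  · change mpt l hd _ = 0 at hP
    rw [mpt_pt] at hP
    exact absurd hP pt_ne

theorem mph_HC (hd : dsc a b ≠ 0) (P : (cv a b).Point) : HC l.fieldRange (mph l hd P) := by
  rcases pt_cases hd P with rfl | ⟨x, y, h, rfl⟩
  · rw [map_zero]
    exact HC.zero
  · change HC _ (mpt l hd _)
    rw [mpt_pt, HC.pt]
    exact ⟨⟨x, rfl⟩, ⟨y, rfl⟩⟩

theorem mph_surj (hd : dsc a b ≠ 0) (Q : (cv (l a) (l b)).Point) (hQ : HC l.fieldRange Q) :
    ∃ P, mph l hd P = Q := by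
  rcases pt_cases (map_dsc l hd) Q with rfl | ⟨x, y, h, rfl⟩
  · exact ⟨0, map_zero _⟩
  · rw [HC.pt] at hQ
    obtain ⟨⟨x', rfl⟩, ⟨y', rfl⟩⟩ := hQ
    have h' : y' ^ 2 = x' ^ 3 + a * x' + b := by
      apply l.injective
      simpa only [map_add, map_mul, map_pow] using h
    refine ⟨pt hd x' y' h', ?_⟩
    change mpt l hd _ = _
    rw [mpt_pt]

end

section rat

variable {k K : Type} [Field k] [Field K] [Algebra k K] {t : K}

/-- the embedding of the rational function field -/
theorem rat_embed (ht : Transcendental k t) : ∃ l : RatFunc k →+* K,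
    (∀ p : k[X], l (algebraMap k[X] (RatFunc k) p) = aeval t p) ∧
    l.fieldRange = (IntermediateField.adjoin k {t}).toSubfield := by
  have hinj : Function.Injective (aeval t : k[X] →ₐ[k] K).toRingHom :=
    transcendental_iff_injective.1 ht
  let l : RatFunc k →+* K := IsFractionRing.lift hinj
  have hl : ∀ p : k[X], l (algebraMap k[X] (RatFunc k) p) = aeval t p := fun p =>
    IsFractionRing.lift_algebraMap hinj p
  refine ⟨l, hl, ?_⟩
  ext z
  constructor
  · rintro ⟨w, rfl⟩
    obtain ⟨p, q, hq, rfl⟩ := IsFractionRing.div_surjective (A := k[X]) w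
    rw [map_div₀, hl, hl]
    have h1 : ∀ p : k[X], aeval t p ∈ (IntermediateField.adjoin k {t}).toSubfield := fun p =>
      IntermediateField.algebra_adjoin_le_adjoin _ _ (Polynomial.aeval_mem_adjoin_singleton _ _)
    exact div_mem (h1 p) (h1 q)
  · intro hz
    obtain ⟨p, q, hpq⟩ := (IntermediateField.mem_adjoin_simple_iff k z).1 hz
    refine ⟨algebraMap k[X] (RatFunc k) p / algebraMap k[X] (RatFunc k) q, ?_⟩
    rw [map_div₀, hl, hl, hpq]

end rat

end Pool.Agent.Helper97.HR
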